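import Pool.Agent.Y373.SX.Stm2

/-!
Project SX part 2 (helper373), part CENT2 (helper980): deletion.
-/

set_option autoImplicit false

namespace Pool.Agent.Y373.SX

open MeasureTheory Metric Filter

lemma cent2_pow (R : ℝ) (n : ℕ) (hn : 1 ≤ n) (hR : 0 < R) (hRn : R ≤ n) :
    (4 * n + 4 : ℝ) ^ n ≤ Real.exp (R + 2) * (4 * n - 2 * R) ^ n := by
  have hn0 : (0 : ℝ) < n := by exact_mod_cast hn
  have hd : (0 : ℝ) < 4 * n - 2 * R := by linarith
  set x : ℝ := (2 * R + 4) / (4 * n - 2 * R) with hx
  have h1 : (4 * n + 4 : ℝ) = (x + 1) * (4 * n - 2 * R) := by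
    rw [hx]
    field_simp
    ring
  have hx0 : 0 ≤ x := by
    rw [hx]
    positivity
  rw [h1, mul_pow]
  refine mul_le_mul_of_nonneg_right ?_ (by positivity)
  calc (x + 1) ^ n ≤ (Real.exp x) ^ n :=
        pow_le_pow_left₀ (by linarith) (Real.add_one_le_exp x) n
    _ = Real.exp (n * x) := by rw [← Real.exp_nat_mul]
    _ ≤ Real.exp (R + 2) := by
      rw [Real.exp_le_exp, hx, mul_div_assoc', div_le_iff₀ hd]
      nlinarith

theorem cent2 (h0 : S_vol) (h1 : S_cube) (h : S_pick) : S_cent2 := by
  classical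
  intro k hk τ R hτ hR hak
  set C : ℕ := ⌈2 * Real.exp (R + 2)⌉₊ with hC
  have hexp : 0 < Real.exp (R + 2) := Real.exp_pos _
  have hC2 : 2 * Real.exp (R + 2) ≤ C := Nat.le_ceil _
  have hC0 : (0 : ℝ) < C := by linarith
  have hC1 : 1 ≤ C := by
    have : 0 < C := by exact_mod_cast hC0
    omega
  refine ⟨C, hC1, ?_⟩
  filter_upwards [h k hk τ R hτ hR hak, eventually_ge_atTop 1,
    eventually_ge_atTop ⌈R⌉₊] with n hn hn1 hnR
  obtain ⟨N, c, hcube, hbad⟩ := hn
  have hRn : R ≤ n := (Nat.le_ceil R).trans (by exact_mod_cast hnR)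
  have hn0 : (1 : ℝ) ≤ n := by exact_mod_cast hn1
  set Bad : Finset (Fin (k + 1) → Fin N) := Finset.univ.filter fun f => 2 ≤ img f ∧
    τ ^ 2 * TT (fun a => c (f a)) ≤ ((k : ℝ) + 1) * ((img f : ℝ) - 1) with hBad
  have hBc : Set.ncard {f : Fin (k + 1) → Fin N | 2 ≤ img f ∧
      τ ^ 2 * TT (fun a => c (f a)) ≤ ((k : ℝ) + 1) * ((img f : ℝ) - 1)} = Bad.card := by
    rw [← Set.ncard_coe_finset]
    congr 1
    ext f
    simp [Bad]
  rw [hBc] at hbad
  set D : Finset (Fin N) := Bad.image fun f => f 0 with hD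
  have hDc : D.card ≤ Bad.card := Finset.card_image_le
  set J : Finset (Fin N) := Dᶜ with hJ
  set e := J.orderEmbOfFin rfl with he
  refine ⟨J.card, fun j => c (e j), fun j => hcube _, ?_, ?_⟩
  · intro f' hf'
    by_contra hcon
    push Not at hcon
    have himg : img (fun a => e (f' a)) = img f' := by
      unfold img
      have : (Finset.univ.image fun a => e (f' a)) = (Finset.univ.image f').image e := by
        rw [Finset.image_image]
        rfl
      rw [this, Finset.card_image_of_injective _ e.injective]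
    have hb : (fun a => e (f' a)) ∈ Bad := by
      rw [hBad, Finset.mem_filter, himg]
      exact ⟨Finset.mem_univ _, hf', hcon⟩
    have hb2 : e (f' 0) ∈ D := by
      rw [hD, Finset.mem_image]
      exact ⟨_, hb, rfl⟩
    have hb3 : e (f' 0) ∈ J := J.orderEmbOfFin_mem rfl _
    exact Finset.mem_compl.mp hb3 hb2
  · set Q : Set (E n) := cube n (2 + R) (4 * n + 2 - R) with hQ
    set U : Set (E n) := Q \ ⋃ i, closedBall (c i) R with hU
    set W : Set (E n) := ⋃ j, closedBall (c (e j)) R with hW
    have hQv : volume Q = ENNReal.ofReal ((4 * n - 2 * R) ^ n) := by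
      rw [hQ, (h1 n (2 + R) (4 * n + 2 - R) (by linarith)).2]
      congr 2
      ring
    have hUfin : volume U ≠ ⊤ := by
      have h2 : volume U ≤ volume Q := measure_mono Set.sdiff_subset
      rw [hQv] at h2
      exact (h2.trans_lt ENNReal.ofReal_lt_top).ne
    have hball : ∀ i, volume (closedBall (c i) R) = ENNReal.ofReal (R ^ n * V n) := fun i =>
      (h0 n hn1).2.2 (c i) R hR.le
    have hV0 : 0 ≤ V n := ENNReal.toReal_nonneg
    have hRV : 0 ≤ R ^ n * V n := by positivity
    have hsub : Q ⊆ (U ∪ W) ∪ ⋃ i ∈ D, closedBall (c i) R := by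
      intro x hx
      by_cases hx1 : x ∈ ⋃ i, closedBall (c i) R
      · rw [Set.mem_iUnion] at hx1
        obtain ⟨i, hi⟩ := hx1
        by_cases hiD : i ∈ D
        · right
          rw [Set.mem_iUnion₂]
          exact ⟨i, hiD, hi⟩
        · left
          right
          have hiJ : i ∈ J := by
            rw [hJ, Finset.mem_compl]
            exact hiD
          have : i ∈ Set.range e := by
            rw [he, Finset.range_orderEmbOfFin]
            exact hiJ
          obtain ⟨j, rfl⟩ := this
          rw [hW, Set.mem_iUnion]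
          exact ⟨j, hi⟩
      · left
        left
        exact ⟨hx, hx1⟩
    have hle : volume Q ≤ volume U + volume W + D.card * ENNReal.ofReal (R ^ n * V n) := by
      refine (measure_mono hsub).trans ((measure_union_le _ _).trans ?_)
      gcongr
      · exact measure_union_le _ _
      · refine (measure_biUnion_finset_le _ _).trans (le_of_eq ?_)
        simp only [hball]
        rw [Finset.sum_const, nsmul_eq_mul]
    by_cases hWt : volume W = ⊤
    · rw [hWt]
      exact le_top
    · have hreal : (4 * n - 2 * R : ℝ) ^ n ≤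
          (volume U).toReal + (volume W).toReal + D.card * (R ^ n * V n) := by
        have hfin : volume U + volume W + D.card * ENNReal.ofReal (R ^ n * V n) ≠ ⊤ := by
          refine ENNReal.add_ne_top.mpr ⟨ENNReal.add_ne_top.mpr ⟨hUfin, hWt⟩, ?_⟩
          exact ENNReal.mul_ne_top (ENNReal.natCast_ne_top _) ENNReal.ofReal_ne_top
        have h2 := ENNReal.toReal_mono hfin hle
        rw [hQv, ENNReal.toReal_ofReal (by
          have : (0 : ℝ) ≤ 4 * n - 2 * R := by linarith
          positivity), ENNReal.toReal_add (ENNReal.add_ne_top.mpr ⟨hUfin, hWt⟩)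
          (ENNReal.mul_ne_top (ENNReal.natCast_ne_top _) ENNReal.ofReal_ne_top),
          ENNReal.toReal_add hUfin hWt, ENNReal.toReal_mul, ENNReal.toReal_natCast,
          ENNReal.toReal_ofReal hRV] at h2
        exact h2
      have h3 : (D.card : ℝ) * (R ^ n * V n) ≤ Bad.card * (R ^ n * V n) :=
        mul_le_mul_of_nonneg_right (by exact_mod_cast hDc) hRV
      have h4 : 1 / 2 * (4 * n - 2 * R : ℝ) ^ n ≤ (volume W).toReal := by linarith
      have h5 : (4 * n + 4 : ℝ) ^ n / C ≤ (volume W).toReal := by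
        refine le_trans ?_ h4
        rw [div_le_iff₀ hC0]
        have h6 := cent2_pow R n hn1 hR hRn
        have h7 : (0 : ℝ) ≤ (4 * n - 2 * R) ^ n := by
          have : (0 : ℝ) ≤ 4 * n - 2 * R := by linarith
          positivity
        nlinarith [mul_le_mul_of_nonneg_right hC2 h7]
      calc ENNReal.ofReal ((4 * n + 4 : ℝ) ^ n / C) ≤ ENNReal.ofReal (volume W).toReal :=
            ENNReal.ofReal_le_ofReal h5
        _ = volume W := ENNReal.ofReal_toReal hWt

end Pool.Agent.Y373.SX
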