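import Pool.Agent.Y373.SX.Stm

set_option autoImplicit false

/-!
# Few translates of the periodic union of balls cover the space (helper543, job SX-COLOR)
-/

namespace Pool.Agent.Y373.SX

open MeasureTheory Metric Filter

theorem color_coord {n : ℕ} (x y : E n) (i : Fin n) : |x i - y i| ≤ dist x y := by
  have h := PiLp.norm_apply_le (x - y) i
  rw [dist_eq_norm]
  exact h

theorem color_lat_add (n : ℕ) (A : ℝ) (w w' : Fin n → ℤ) :
    lat n A (w + w') = lat n A w + lat n A w' := by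
  ext i
  show A * (((w + w') i : ℤ) : ℝ) = A * (w i : ℝ) + A * (w' i : ℝ)
  rw [Pi.add_apply]
  push_cast
  ring

theorem color (h1 : S_vol) (h2 : S_sep) (h3 : S_cover) : S_color := by
  intro n N M r δ p c hn hδ hδr hr1 hc hp0 hp1 hvol hM
  obtain ⟨A, hA⟩ : ∃ A : ℝ, A = 4 * n + 4 := ⟨_, rfl⟩
  have hApos : 0 < A := by rw [hA]; positivity
  obtain ⟨Z, hZ1, hZ2⟩ := h2 n hn A δ hApos.le hδ
  have hV := (h1 n hn).1
  have hnpos : (0 : ℝ) < n := by exact_mod_cast hn
  have hcard : (Z.card : ℝ) ≤ ((4 * n + 4 + δ) * (2 * n) / δ) ^ n := by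
    have e2 : (Z.card : ℝ) * ((δ / 2) ^ n * (1 / (n : ℝ)) ^ n) ≤ (A + δ) ^ n := by
      refine le_trans ?_ hZ2
      gcongr
    rw [← mul_pow] at e2
    have e3 : (0 : ℝ) < (δ / 2 * (1 / n)) ^ n := by positivity
    rw [← le_div_iff₀ e3, ← div_pow] at e2
    refine e2.trans (le_of_eq ?_)
    congr 1
    rw [hA]
    field_simp
  have hM' : (1 - p) ^ M * (Z.card : ℝ) < 1 := by
    refine lt_of_le_of_lt ?_ hM
    have : 0 ≤ 1 - p := by linarith
    gcongr
  have hmeas : MeasurableSet (⋃ j, closedBall (c j) (r - δ)) :=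
    MeasurableSet.iUnion fun j => measurableSet_closedBall
  have hin : ∀ x ∈ ⋃ j, closedBall (c j) (r - δ), ∀ i, 0 ≤ x i ∧ x i < A := by
    intro x hx i
    obtain ⟨j, hj⟩ := Set.mem_iUnion.1 hx
    have k1 := (color_coord x (c j) i).trans (mem_closedBall.1 hj)
    obtain ⟨k2, k3⟩ := abs_le.1 k1
    obtain ⟨k4, k5⟩ := hc j i
    rw [hA]
    constructor <;> linarith
  rw [← hA] at hvol ⊢
  obtain ⟨v, hv⟩ := h3 n hn A p hApos _ hmeas hin hp0 hp1 hvol Z M hM'
  refine ⟨v, fun x => ?_⟩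
  obtain ⟨w0, hw0⟩ : ∃ w0 : Fin n → ℤ, w0 = fun i => ⌊x i / A⌋ := ⟨_, rfl⟩
  have hcube : x - lat n A w0 ∈ cube n 0 A := by
    intro i
    have e : (x - lat n A w0) i = x i - A * ((⌊x i / A⌋ : ℤ) : ℝ) := by
      rw [hw0]
      rfl
    rw [e]
    have k1 := Int.floor_le (x i / A)
    have k2 := Int.lt_floor_add_one (x i / A)
    rw [le_div_iff₀ hApos] at k1
    rw [div_lt_iff₀ hApos] at k2
    constructor <;> linarith
  obtain ⟨y, hy, hd⟩ := hZ1 _ hcube
  obtain ⟨i, w, hw⟩ := hv y hy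
  obtain ⟨j, hj⟩ := Set.mem_iUnion.1 hw
  refine ⟨i, w0 + w, j, ?_⟩
  have hj' : dist (y - v i - lat n A w) (c j) ≤ r - δ := mem_closedBall.1 hj
  have e : dist (x - v i - lat n A (w0 + w)) (y - v i - lat n A w) = dist (x - lat n A w0) y := by
    rw [dist_eq_norm, dist_eq_norm, color_lat_add]
    congr 1
    abel
  have := dist_triangle (x - v i - lat n A (w0 + w)) (y - v i - lat n A w) (c j)
  rw [e] at this
  linarith

end Pool.Agent.Y373.SX
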