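import Pool.Agent.Y373.SX.Stm

/-!
Project SX (helper373), part COVER (helper980): few translates cover a finite set.
-/

set_option autoImplicit false

namespace Pool.Agent.Y373.SX

open MeasureTheory Metric Filter

theorem cover (h : S_shift) : S_cover := by
  classical
  intro n hn A p hA S hS hSA hp hp1 hvol X M hlt
  have key : ∀ M : ℕ, ∃ v : Fin M → E n,
      ((X.filter fun x => ¬ ∃ i, ∃ w : Fin n → ℤ, x - v i - lat n A w ∈ S).card : ℝ) ≤
        (1 - p) ^ M * X.card := by
    intro M
    induction M with
    | zero =>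
      refine ⟨Fin.elim0, ?_⟩
      rw [pow_zero, one_mul]
      exact_mod_cast Finset.card_filter_le _ _
    | succ M ih =>
      obtain ⟨v, hv⟩ := ih
      set U := X.filter fun x => ¬ ∃ i, ∃ w : Fin n → ℤ, x - v i - lat n A w ∈ S with hU
      obtain ⟨y, hy⟩ := h n hn A p hA S hS hSA hp hvol U
      set C := U.filter fun x => ∃ w : Fin n → ℤ, x - y - lat n A w ∈ S with hC
      have hCc : {x : E n | x ∈ U ∧ ∃ w : Fin n → ℤ, x - y - lat n A w ∈ S}.ncard = C.card := by
        rw [← Set.ncard_coe_finset]
        congr 1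
        ext x
        simp only [C, Finset.coe_filter]
      rw [hCc] at hy
      refine ⟨Fin.snoc v y, ?_⟩
      have hsub : (X.filter fun x => ¬ ∃ i, ∃ w : Fin n → ℤ,
          x - (Fin.snoc v y : Fin (M + 1) → E n) i - lat n A w ∈ S) ⊆ U \ C := by
        intro x hx
        rw [Finset.mem_filter] at hx
        obtain ⟨hxX, hx⟩ := hx
        push Not at hx
        rw [Finset.mem_sdiff]
        constructor
        · rw [hU, Finset.mem_filter]
          refine ⟨hxX, ?_⟩
          rintro ⟨i, w, hw⟩
          have := hx i.castSucc w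
          rw [Fin.snoc_castSucc] at this
          exact this hw
        · intro hxC
          rw [hC, Finset.mem_filter] at hxC
          obtain ⟨_, w, hw⟩ := hxC
          have := hx (Fin.last M) w
          rw [Fin.snoc_last] at this
          exact this hw
      have h1 := Finset.card_le_card hsub
      have h2 : (U \ C).card + C.card = U.card :=
        Finset.card_sdiff_add_card_eq_card (Finset.filter_subset _ _)
      have h3 : ((U \ C).card : ℝ) + C.card = U.card := by exact_mod_cast h2
      have h4 : (((X.filter fun x => ¬ ∃ i, ∃ w : Fin n → ℤ,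
          x - (Fin.snoc v y : Fin (M + 1) → E n) i - lat n A w ∈ S).card : ℕ) : ℝ) ≤
          (U \ C).card := by exact_mod_cast h1
      calc _ ≤ ((U \ C).card : ℝ) := h4
        _ ≤ (1 - p) * U.card := by linarith
        _ ≤ (1 - p) * ((1 - p) ^ M * X.card) :=
          mul_le_mul_of_nonneg_left hv (by linarith)
        _ = (1 - p) ^ (M + 1) * X.card := by ring
  obtain ⟨v, hv⟩ := key M
  refine ⟨v, fun x hx => ?_⟩
  by_contra hcon
  have h1 : x ∈ X.filter fun x => ¬ ∃ i, ∃ w : Fin n → ℤ, x - v i - lat n A w ∈ S := by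
    rw [Finset.mem_filter]
    exact ⟨hx, hcon⟩
  have h2 : 1 ≤ (X.filter fun x => ¬ ∃ i, ∃ w : Fin n → ℤ, x - v i - lat n A w ∈ S).card :=
    Finset.card_pos.mpr ⟨x, h1⟩
  have h3 : (1 : ℝ) ≤
      (X.filter fun x => ¬ ∃ i, ∃ w : Fin n → ℤ, x - v i - lat n A w ∈ S).card := by
    exact_mod_cast h2
  linarith

end Pool.Agent.Y373.SX
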