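import Pool.Agent.Y373.SX.Stm

set_option autoImplicit false

/-!
# No large unit simplex in the periodic union of balls (helper543, job SX-MONO)
-/

namespace Pool.Agent.Y373.SX

open MeasureTheory Metric Filter

theorem mono_coord {n : ℕ} (x y : E n) (i : Fin n) : |x i - y i| ≤ dist x y := by
  have h := PiLp.norm_apply_le (x - y) i
  rw [dist_eq_norm]
  exact h

theorem mono (h : S_simp) : S_mono := by
  intro n N m k r c hr hr2 hc hm hk x hx
  by_contra hcon
  push Not at hcon
  obtain ⟨A, hA⟩ : ∃ A : ℝ, A = 4 * n + 4 := ⟨_, rfl⟩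
  rw [← hA] at hcon
  have hr1 : r < 1 := by nlinarith
  choose w j hwj using hcon
  -- the lattice vectors are equal
  have hw : ∀ l l', w l = w l' := by
    intro l l'
    funext a
    by_contra hne
    have k0 : (1 : ℝ) ≤ |(w l a : ℝ) - (w l' a : ℝ)| := by
      have : (1 : ℤ) ≤ |w l a - w l' a| := Int.one_le_abs (sub_ne_zero.2 hne)
      exact_mod_cast this
    have k1 := (mono_coord _ _ a).trans (hwj l)
    have k2 := (mono_coord _ _ a).trans (hwj l')
    have k3 : |x l a - x l' a| ≤ 1 := by
      refine (mono_coord _ _ a).trans ?_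
      by_cases hll : l = l'
      · rw [hll, dist_self]
        exact zero_le_one
      · exact (hx l l' hll).le
    have e1 : (x l - lat n A (w l)) a = x l a - A * (w l a : ℝ) := rfl
    have e2 : (x l' - lat n A (w l')) a = x l' a - A * (w l' a : ℝ) := rfl
    rw [e1] at k1
    rw [e2] at k2
    obtain ⟨c1, c2⟩ := hc (j l) a
    obtain ⟨c3, c4⟩ := hc (j l') a
    obtain ⟨a1, a2⟩ := abs_le.1 k1
    obtain ⟨a3, a4⟩ := abs_le.1 k2
    obtain ⟨a5, a6⟩ := abs_le.1 k3
    have hApos : 0 < A := by rw [hA]; positivity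
    rcases le_abs.1 k0 with k4 | k4
    · have : A ≤ A * (w l a : ℝ) - A * (w l' a : ℝ) := by nlinarith
      linarith
    · have : A ≤ A * (w l' a : ℝ) - A * (w l a : ℝ) := by nlinarith
      linarith
  obtain ⟨⟨z, hz⟩, hb⟩ := h n k x hx
  obtain ⟨u, hu⟩ : ∃ u : E n, u = lat n A (w 0) := ⟨_, rfl⟩
  have hwj' : ∀ l, dist (x l) (c (j l) + u) ≤ r := by
    intro l
    have h1 := hwj l
    rw [hw l 0, ← hu] at h1
    rw [dist_eq_norm] at h1 ⊢
    rwa [show x l - (c (j l) + u) = x l - u - c (j l) by abel]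
  classical
  have hJ : (Finset.univ.image j).card ≤ m := by
    refine le_trans ?_ (hm (z - u))
    rw [← Set.ncard_coe_finset]
    refine Set.ncard_le_ncard ?_ (Set.toFinite _)
    intro b hb
    rw [Finset.mem_coe, Finset.mem_image] at hb
    obtain ⟨l, -, rfl⟩ := hb
    show dist (c (j l)) (z - u) ≤ √(1 / 2) + r
    have h1 := hwj' l
    have h2 := hz l
    have h3 := dist_triangle_left (c (j l) + u) z (x l)
    have e : dist (c (j l)) (z - u) = dist (c (j l) + u) z := by
      rw [dist_eq_norm, dist_eq_norm]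
      congr 1
      abel
    rw [e]
    linarith
  have hsum := Finset.card_eq_sum_card_image j (Finset.univ : Finset (Fin (k + 1)))
  rw [Finset.card_univ, Fintype.card_fin] at hsum
  have hfib : ∀ b ∈ Finset.univ.image j,
      (((Finset.univ : Finset (Fin (k + 1))).filter (fun l => j l = b)).card : ℝ) *
        (1 - 2 * r ^ 2) ≤ 1 := by
    intro b _
    refine hb _ (c b + u) r hr.le ?_
    intro l hl
    rw [Finset.mem_filter] at hl
    rw [← hl.2]
    exact hwj' l
  have h1 : ((k : ℝ) + 1) * (1 - 2 * r ^ 2) ≤ (Finset.univ.image j).card := by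
    have e : ((k : ℝ) + 1) = ∑ b ∈ Finset.univ.image j,
        (((Finset.univ : Finset (Fin (k + 1))).filter (fun l => j l = b)).card : ℝ) := by
      exact_mod_cast hsum
    rw [e, Finset.sum_mul]
    refine (Finset.sum_le_sum hfib).trans ?_
    rw [Finset.sum_const, nsmul_eq_mul, mul_one]
  have h2 : ((Finset.univ.image j).card : ℝ) ≤ m := by exact_mod_cast hJ
  linarith

end Pool.Agent.Y373.SX
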