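import Pool.Agent.Y373.SX.Stm2
import Pool.Agent.Y373.SX.Mono

/-!
# No simplex in the neighbourhood of the cells
-/

set_option autoImplicit false

namespace Pool.Agent.Y373.SX

open MeasureTheory Metric Filter

/-- the lattice vectors of the vertices of a unit simplex are equal -/
theorem free_lat {n N k : ℕ} {A r : ℝ} (hA : A = 4 * n + 4) (hr1 : r < 1) {c : Fin N → E n}
    (hc : ∀ j, c j ∈ cube n 2 (4 * n + 2)) {x : Fin (k + 1) → E n}
    (hx : ∀ i j, i ≠ j → dist (x i) (x j) = 1) {w : Fin (k + 1) → Fin n → ℤ}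
    {j : Fin (k + 1) → Fin N} (hwj : ∀ l, dist (x l - lat n A (w l)) (c (j l)) ≤ r) :
    ∀ l l', w l = w l' := by
  intro l l'
  funext a
  by_contra hne
  have k0 : (1 : ℝ) ≤ |(w l a : ℝ) - (w l' a : ℝ)| := by
    have : (1 : ℤ) ≤ |w l a - w l' a| := Int.one_le_abs (sub_ne_zero.2 hne)
    exact_mod_cast this
  have k1 := (mono_coord _ _ a).trans (hwj l)
  have k2 := (mono_coord _ _ a).trans (hwj l')
  have k3 : |x l a - x l' a| ≤ 1 := by
    refine (mono_coord _ _ a).trans ?_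
    by_cases hll : l = l'
    · rw [hll, dist_self]
      exact zero_le_one
    · exact (hx l l' hll).le
  have e1 : (x l - lat n A (w l)) a = x l a - A * (w l a : ℝ) := rfl
  have e2 : (x l' - lat n A (w l')) a = x l' a - A * (w l' a : ℝ) := rfl
  rw [e1] at k1
  rw [e2] at k2
  obtain ⟨c1, c2⟩ := hc (j l) a
  obtain ⟨c3, c4⟩ := hc (j l') a
  obtain ⟨a1, a2⟩ := abs_le.1 k1
  obtain ⟨a3, a4⟩ := abs_le.1 k2
  obtain ⟨a5, a6⟩ := abs_le.1 k3
  have hApos : 0 < A := by rw [hA]; positivity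
  rcases le_abs.1 k0 with k4 | k4
  · have : A ≤ A * (w l a : ℝ) - A * (w l' a : ℝ) := by nlinarith
    linarith
  · have : A ≤ A * (w l' a : ℝ) - A * (w l a : ℝ) := by nlinarith
    linarith

theorem free_sep {n N k : ℕ} {ρ : ℝ} {c : Fin N → E n} (hρ0 : 0 < ρ) (hρ1 : ρ < 1) (hk : 1 ≤ k)
    (hf : ∀ f : Fin (k + 1) → Fin N, 2 ≤ img f →
      ((k : ℝ) + 1) * ((img f : ℝ) - 1) < ρ ^ 2 * TT (fun a => c (f a)))
    (i j : Fin N) (hij : i ≠ j) : 2 * ‖c i - c j‖ ≤ 3 * ‖c i - c j‖ ^ 2 := by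
  set f : Fin (k + 1) → Fin N := Fin.cons j (fun _ => i) with hfd
  have h0 : f 0 = j := rfl
  have hs : ∀ a : Fin k, f a.succ = i := fun a => rfl
  have himg : 2 ≤ img f := by
    unfold img
    refine Finset.one_lt_card.2 ⟨i, ?_, j, ?_, hij⟩
    · exact Finset.mem_image.2 ⟨(⟨0, hk⟩ : Fin k).succ, Finset.mem_univ _, hs _⟩
    · exact Finset.mem_image.2 ⟨0, Finset.mem_univ _, h0⟩
  have h1 := hf f himg
  have hTT : TT (fun a => c (f a)) = 2 * k * ‖c i - c j‖ ^ 2 := by
    unfold TT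
    rw [Fin.sum_univ_succ]
    simp only [Fin.sum_univ_succ, h0, hs, sub_self, norm_zero, Finset.sum_const, Finset.card_univ,
      Fintype.card_fin, nsmul_eq_mul]
    rw [norm_sub_rev (c j) (c i)]
    ring
  rw [hTT] at h1
  have hk' : (1 : ℝ) ≤ k := by exact_mod_cast hk
  have himg' : (2 : ℝ) ≤ img f := by exact_mod_cast himg
  have h2 : (k : ℝ) + 1 ≤ ((k : ℝ) + 1) * ((img f : ℝ) - 1) := by nlinarith
  have h3 : ρ ^ 2 * (2 * k * ‖c i - c j‖ ^ 2) ≤ 2 * k * ‖c i - c j‖ ^ 2 := by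
    have h4 : ρ ^ 2 ≤ 1 := by nlinarith
    have h5 : 0 ≤ 2 * k * ‖c i - c j‖ ^ 2 := by positivity
    nlinarith
  have h6 : 1 < 2 * ‖c i - c j‖ ^ 2 := by
    by_contra hcon
    push Not at hcon
    nlinarith
  have h7 : 2 / 3 ≤ ‖c i - c j‖ := by
    by_contra hcon
    push Not at hcon
    have h8 := norm_nonneg (c i - c j)
    nlinarith
  have h8 := norm_nonneg (c i - c j)
  nlinarith

theorem free (h1 : S_simp) (h2 : S_vor1) (h3 : S_group) : S_free := by
  intro n N k R t δ c ht0 ht1 hδ hR htδ hr hc hf x hx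
  by_contra hcon
  push Not at hcon
  obtain ⟨A, hA⟩ : ∃ A : ℝ, A = 4 * n + 4 := ⟨_, rfl⟩
  rw [← hA] at hcon
  have hK : (0 : ℝ) < (k : ℝ) + 1 := by positivity
  set r : ℝ := t * R + δ with hrd
  have hr0 : 0 < r := by positivity
  have hr2 : r ^ 2 < 1 / 2 := by
    refine hr.trans ?_
    rw [div_lt_div_iff₀ (by positivity) (by norm_num)]
    linarith
  have hr1 : r < 1 := by nlinarith
  have hk : 1 ≤ k := by
    by_contra hk0
    have : k = 0 := by omega
    subst this
    have h4 : 0 < r ^ 2 := by positivity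
    norm_num at hr
    linarith
  choose w j s hs hd using hcon
  have hsc : ∀ l, dist (s l) (c (j l)) ≤ t * R := by
    intro l
    obtain ⟨q, hq1, hq2, -⟩ := hs l
    rw [dist_eq_norm, hq1, add_sub_cancel_left, norm_smul, Real.norm_of_nonneg ht0.le,
      ← dist_eq_norm]
    exact mul_le_mul_of_nonneg_left hq2 ht0.le
  have hwj : ∀ l, dist (x l - lat n A (w l)) (c (j l)) ≤ r := by
    intro l
    have h4 := dist_triangle (x l - lat n A (w l)) (s l) (c (j l))
    have h5 := hd l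
    have h6 := hsc l
    rw [hrd]
    linarith
  have hw := free_lat hA hr1 hc hx hwj
  obtain ⟨u, hu⟩ : ∃ u : E n, u = lat n A (w 0) := ⟨_, rfl⟩
  have hd' : ∀ l, ‖x l - u - s l‖ ≤ δ := by
    intro l
    have h4 := hd l
    rw [hw l 0, ← hu, dist_eq_norm] at h4
    exact h4
  have hwj' : ∀ l, dist (x l) (c (j l) + u) ≤ r := by
    intro l
    have h4 := hwj l
    rw [hw l 0, ← hu] at h4
    rw [dist_eq_norm] at h4 ⊢
    rwa [show x l - (c (j l) + u) = x l - u - c (j l) by abel]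
  -- the number of cells
  have himg : 2 ≤ img j := by
    by_contra himg
    have hall : ∀ l, j l = j 0 := by
      intro l
      by_contra hne
      apply himg
      unfold img
      exact Finset.one_lt_card.2 ⟨j l, Finset.mem_image_of_mem j (Finset.mem_univ _), j 0,
        Finset.mem_image_of_mem j (Finset.mem_univ _), hne⟩
    have h4 := (h1 n k x hx).2 Finset.univ (c (j 0) + u) r hr0.le (by
      intro l _
      have := hwj' l
      rwa [hall l] at this)
    rw [Finset.card_univ, Fintype.card_fin] at h4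
    push_cast at h4
    rw [lt_div_iff₀ (by positivity)] at hr
    nlinarith
  have hρ0 : 0 < 1 - t - 3 * δ := by linarith
  have hρ1 : 1 - t - 3 * δ < 1 := by linarith
  have hsep := free_sep hρ0 hρ1 hk hf
  have hpair : ∀ a b, (1 - t - 3 * δ) * ‖c (j a) - c (j b)‖ ^ 2 ≤
      inner ℝ (x a - x b) (c (j a) - c (j b)) := by
    intro a b
    by_cases hab : j a = j b
    · rw [hab]
      simp
    · have h4 := h2 n N c R t ht0.le (j a) (j b) (s a) (s b) (hs a) (hs b)
      have h5 := hsep (j a) (j b) hab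
      set v : E n := c (j a) - c (j b) with hv
      have h6 : x a - x b = (s a - s b) + ((x a - u - s a) - (x b - u - s b)) := by abel
      rw [h6, inner_add_left]
      have h7 : ‖(x a - u - s a) - (x b - u - s b)‖ ≤ 2 * δ := by
        refine (norm_sub_le _ _).trans ?_
        have := hd' a
        have := hd' b
        linarith
      have h8 := abs_real_inner_le_norm ((x a - u - s a) - (x b - u - s b)) v
      have h9 : ‖(x a - u - s a) - (x b - u - s b)‖ * ‖v‖ ≤ 2 * δ * ‖v‖ :=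
        mul_le_mul_of_nonneg_right h7 (norm_nonneg _)
      have h10 := (abs_le.1 h8).1
      have h11 : δ * (2 * ‖v‖) ≤ δ * (3 * ‖v‖ ^ 2) := mul_le_mul_of_nonneg_left h5 hδ.le
      linarith
  set P : ℝ := ∑ a, ∑ b, inner ℝ (x a - x b) (c (j a) - c (j b)) with hP
  set T : ℝ := TT (fun a => c (j a)) with hT
  have hPT : (1 - t - 3 * δ) * T ≤ P := by
    rw [hT, hP]
    unfold TT
    rw [Finset.mul_sum]
    refine Finset.sum_le_sum fun a _ => ?_
    rw [Finset.mul_sum]
    exact Finset.sum_le_sum fun b _ => hpair a b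
  have hg : P ^ 2 ≤ ((k : ℝ) + 1) * ((img j : ℝ) - 1) * T := h3 n k N x hx c j
  have hfj := hf j himg
  rw [← hT] at hfj
  have himg' : (2 : ℝ) ≤ img j := by exact_mod_cast himg
  have h4 : 0 < ((k : ℝ) + 1) * ((img j : ℝ) - 1) := mul_pos hK (by linarith)
  have hTpos : 0 < T := by
    by_contra hcon
    push Not at hcon
    have : (1 - t - 3 * δ) ^ 2 * T ≤ 0 := mul_nonpos_of_nonneg_of_nonpos (sq_nonneg _) hcon
    linarith
  have h5 : ((1 - t - 3 * δ) * T) ^ 2 ≤ P ^ 2 :=
    pow_le_pow_left₀ (mul_nonneg hρ0.le hTpos.le) hPT 2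
  have h6 : ((k : ℝ) + 1) * ((img j : ℝ) - 1) * T < (1 - t - 3 * δ) ^ 2 * T * T :=
    mul_lt_mul_of_pos_right hfj hTpos
  nlinarith

end Pool.Agent.Y373.SX
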