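import Pool.Agent.Y373.SX.Stm2

/-! The probability of a bad configuration, by a Gaussian integral. -/

set_option autoImplicit false

namespace Pool.Agent.Y373.SX

open MeasureTheory Metric Filter

theorem gauss_int (n : ℕ) {β : ℝ} (hβ : 0 < β) (y : E n) :
    ∫⁻ z : E n, ENNReal.ofReal (Real.exp (-β * ‖z - y‖ ^ 2)) =
      ENNReal.ofReal ((Real.pi / β) ^ ((n : ℝ) / 2)) := by
  have h0 : ∫ z : E n, Real.exp (-β * ‖z‖ ^ 2) = (Real.pi / β) ^ ((n : ℝ) / 2) := by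
    have := GaussianFourier.integral_rexp_neg_mul_sq_norm (V := E n) hβ
    rwa [finrank_euclideanSpace, Fintype.card_fin] at this
  have hpos : 0 < (Real.pi / β) ^ ((n : ℝ) / 2) := Real.rpow_pos_of_pos (by positivity) _
  have hint : Integrable (fun z : E n => Real.exp (-β * ‖z‖ ^ 2)) := by
    by_contra h
    rw [integral_undef h] at h0
    exact hpos.ne h0
  have h1 : ∫⁻ z : E n, ENNReal.ofReal (Real.exp (-β * ‖z‖ ^ 2)) =
      ENNReal.ofReal ((Real.pi / β) ^ ((n : ℝ) / 2)) := by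
    rw [← h0, ofReal_integral_eq_lintegral_ofReal hint (ae_of_all _ fun z => (Real.exp_pos _).le)]
  rw [← h1]
  exact lintegral_sub_right_eq_self (fun z : E n => ENNReal.ofReal (Real.exp (-β * ‖z‖ ^ 2))) y

theorem gauss_id {n k : ℕ} (y : Fin (k + 1) → E n) (z : E n) :
    ∑ a, ‖y a - z‖ ^ 2 = TT y / (2 * (k + 1)) +
      (k + 1) * ‖z - (1 / ((k : ℝ) + 1)) • ∑ a, y a‖ ^ 2 := by
  have hk : (0 : ℝ) < (k : ℝ) + 1 := by positivity
  obtain ⟨u, hu⟩ : ∃ u : Fin (k + 1) → E n, u = fun a => y a - z := ⟨_, rfl⟩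
  have e1 : TT y = 2 * (k + 1) * ∑ a, ‖u a‖ ^ 2 - 2 * ‖∑ a, u a‖ ^ 2 := by
    have e : ∀ a b, ‖y a - y b‖ ^ 2 = ‖u a‖ ^ 2 + ‖u b‖ ^ 2 - 2 * inner ℝ (u a) (u b) := by
      intro a b
      have e2 : y a - y b = u a - u b := by rw [hu]; simp
      rw [e2, norm_sub_sq_real]
      ring
    unfold TT
    simp only [e]
    have e3 : ‖∑ a, u a‖ ^ 2 = ∑ a, ∑ b, inner ℝ (u a) (u b) := by
      rw [← real_inner_self_eq_norm_sq, sum_inner]
      refine Finset.sum_congr rfl fun a _ => ?_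
      rw [inner_sum]
    rw [e3]
    simp only [Finset.sum_sub_distrib, Finset.sum_add_distrib, Finset.sum_const,
      Finset.card_univ, Fintype.card_fin, nsmul_eq_mul, ← Finset.mul_sum]
    push_cast
    ring
  have e2 : z - (1 / ((k : ℝ) + 1)) • ∑ a, y a = -((1 / ((k : ℝ) + 1)) • ∑ a, u a) := by
    have e3 : ∑ a, u a = ∑ a, y a - ((k : ℝ) + 1) • z := by
      rw [hu, Finset.sum_sub_distrib, Finset.sum_const, Finset.card_univ, Fintype.card_fin,
        ← Nat.cast_smul_eq_nsmul ℝ]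
      push_cast
      rfl
    rw [e3, smul_sub, smul_smul, one_div, inv_mul_cancel₀ hk.ne', one_smul]
    abel
  have e4 : ∑ a, ‖y a - z‖ ^ 2 = ∑ a, ‖u a‖ ^ 2 := by rw [hu]
  rw [e1, e2, e4, norm_neg, norm_smul, mul_pow, Real.norm_eq_abs, sq_abs]
  field_simp
  ring

open Classical in
/-- the number of `a` with `f a = i` -/
noncomputable def gauss_g {k N : ℕ} (f : Fin (k + 1) → Fin N) (i : Fin N) : ℝ :=
  (((Finset.univ.filter (fun a => f a = i)).card : ℕ) : ℝ)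

theorem gauss_gpos {k N : ℕ} (f : Fin (k + 1) → Fin N) {i : Fin N}
    (hi : i ∈ Finset.univ.image f) : 0 < gauss_g f i := by
  classical
  obtain ⟨a, -, ha⟩ := Finset.mem_image.1 hi
  unfold gauss_g
  exact_mod_cast Finset.card_pos.2 ⟨a, by simp [ha]⟩

theorem gauss_sum {k N : ℕ} (f : Fin (k + 1) → Fin N) (F : Fin N → ℝ) :
    ∑ a, F (f a) = ∑ i ∈ Finset.univ.image f, gauss_g f i * F i := by
  classical
  rw [Finset.sum_comp]
  refine Finset.sum_congr rfl fun i _ => ?_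
  rw [nsmul_eq_mul]
  unfold gauss_g
  congr

theorem gauss_prob (h1 : S_cube) {n : ℕ} {a b : ℝ} (hab : a < b) :
    IsProbabilityMeasure (unif n a b) := by
  have hM : 0 < (b - a) ^ n := pow_pos (by linarith) n
  have hM0 : ENNReal.ofReal ((b - a) ^ n) ≠ 0 := (ENNReal.ofReal_pos.2 hM).ne'
  refine ⟨?_⟩
  rw [unif, Measure.smul_apply, Measure.restrict_apply_univ, (h1 n a b hab.le).2, smul_eq_mul,
    ENNReal.inv_mul_cancel hM0 ENNReal.ofReal_ne_top]

/-- one factor -/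
noncomputable def gauss_h {n : ℕ} (β : ℝ) (z x : E n) : ENNReal :=
  ENNReal.ofReal (Real.exp (-β * ‖x - z‖ ^ 2))

theorem gauss_hm {n : ℕ} (β : ℝ) : Measurable (fun p : E n × E n => gauss_h β p.1 p.2) := by
  unfold gauss_h
  fun_prop

theorem gauss_hm' {n : ℕ} (β : ℝ) (z : E n) : Measurable (gauss_h β z) := by
  unfold gauss_h
  fun_prop

theorem gauss_hm2 {n N : ℕ} (β : ℝ) (i : Fin N) :
    Measurable (fun p : (Fin N → E n) × E n => gauss_h β p.2 (p.1 i)) := by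
  unfold gauss_h
  fun_prop

theorem gauss_hm3 {n N : ℕ} (β : Fin N → ℝ) (I : Finset (Fin N)) :
    Measurable (Function.uncurry fun (c : Fin N → E n) (z : E n) =>
      ∏ i ∈ I, gauss_h (β i) z (c i)) :=
  Finset.measurable_fun_prod I fun i _ => gauss_hm2 (β i) i

theorem gauss_h1 {n : ℕ} {β : ℝ} (hβ : 0 < β) {a b : ℝ} (hab : a < b) (z : E n) :
    ∫⁻ x, gauss_h β z x ∂(unif n a b) ≤
      ENNReal.ofReal (((b - a) ^ n)⁻¹ * (Real.pi / β) ^ ((n : ℝ) / 2)) := by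
  have hM : 0 < (b - a) ^ n := pow_pos (by linarith) n
  rw [unif, lintegral_smul_measure, ENNReal.ofReal_mul (by positivity),
    ENNReal.ofReal_inv_of_pos hM, smul_eq_mul]
  gcongr
  rw [← gauss_int n hβ z]
  exact setLIntegral_le_lintegral _ _

theorem gauss_h2 (h1 : S_cube) {n : ℕ} {β : ℝ} (hβ : 0 < β) {a b : ℝ} (hab : a < b) :
    ∫⁻ z, ∫⁻ x, gauss_h β z x ∂(unif n a b) =
      ENNReal.ofReal ((Real.pi / β) ^ ((n : ℝ) / 2)) := by
  have := gauss_prob h1 (n := n) hab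
  rw [lintegral_lintegral_swap (gauss_hm β).aemeasurable]
  have e : ∀ x : E n, ∫⁻ z, gauss_h β z x = ENNReal.ofReal ((Real.pi / β) ^ ((n : ℝ) / 2)) := by
    intro x
    rw [← gauss_int n hβ x]
    unfold gauss_h
    refine lintegral_congr fun z => ?_
    rw [norm_sub_rev]
  simp only [e]
  rw [lintegral_const, measure_univ, mul_one]

theorem gauss_prod {n N : ℕ} (μ : Measure (E n)) [IsProbabilityMeasure μ] (I : Finset (Fin N))
    (H : Fin N → E n → ENNReal) (hm : ∀ i, Measurable (H i)) :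
    ∫⁻ c : Fin N → E n, ∏ i ∈ I, H i (c i) ∂(Measure.pi (fun _ : Fin N => μ)) =
      ∏ i ∈ I, ∫⁻ x, H i x ∂μ := by
  have hind : ProbabilityTheory.iIndepFun (fun i (c : Fin N → E n) => H i (c i))
      (Measure.pi (fun _ : Fin N => μ)) :=
    ProbabilityTheory.iIndepFun_pi (μ := fun _ : Fin N => μ) (X := H)
      fun i => (hm i).aemeasurable
  have hme : ∀ i : Fin N, Measurable (fun c : Fin N → E n => H i (c i)) := fun i =>
    (hm i).comp (measurable_pi_apply i)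
  rw [ProbabilityTheory.lintegral_prod_eq_prod_lintegral_of_indepFun I _ hind hme]
  refine Finset.prod_congr rfl fun i _ => ?_
  exact (measurePreserving_eval (fun _ : Fin N => μ) i).lintegral_comp (hm i)

theorem gauss_up (h1 : S_cube) {n k N : ℕ} {a b : ℝ} (hab : a < b) (f : Fin (k + 1) → Fin N)
    {lam : ℝ} (hl : 0 < lam) :
    ∫⁻ c : Fin N → E n, (∫⁻ z : E n, ENNReal.ofReal (Real.exp (-lam * ∑ a, ‖c (f a) - z‖ ^ 2)))
        ∂(Measure.pi (fun _ : Fin N => unif n a b)) ≤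
      ENNReal.ofReal ((((b - a) ^ n)⁻¹) ^ (img f - 1) *
        ∏ i ∈ Finset.univ.image f, (Real.pi / (lam * gauss_g f i)) ^ ((n : ℝ) / 2)) := by
  classical
  have hprob := gauss_prob h1 (n := n) hab
  have hM : 0 < (b - a) ^ n := pow_pos (by linarith) n
  obtain ⟨I, hI⟩ : ∃ I : Finset (Fin N), I = Finset.univ.image f := ⟨_, rfl⟩
  have himg : img f = I.card := by rw [hI]; rfl
  have hg : ∀ i ∈ I, 0 < lam * gauss_g f i := by
    intro i hi
    rw [hI] at hi
    exact mul_pos hl (gauss_gpos f hi)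
  rw [← hI, himg]
  -- the integrand
  have e1 : ∀ (c : Fin N → E n) (z : E n),
      ENNReal.ofReal (Real.exp (-lam * ∑ a, ‖c (f a) - z‖ ^ 2)) =
        ∏ i ∈ I, gauss_h (lam * gauss_g f i) z (c i) := by
    intro c z
    unfold gauss_h
    rw [← ENNReal.ofReal_prod_of_nonneg fun i _ => (Real.exp_pos _).le, ← Real.exp_sum,
      gauss_sum f fun i => ‖c i - z‖ ^ 2, ← hI, Finset.mul_sum]
    congr 2
    refine Finset.sum_congr rfl fun i _ => ?_
    ring
  simp only [e1]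
  have hmeas : Measurable (Function.uncurry fun (c : Fin N → E n) (z : E n) =>
      ∏ i ∈ I, gauss_h (lam * gauss_g f i) z (c i)) :=
    gauss_hm3 (fun i => lam * gauss_g f i) I
  rw [lintegral_lintegral_swap hmeas.aemeasurable]
  have e2 : ∀ z : E n, ∫⁻ c : Fin N → E n, ∏ i ∈ I, gauss_h (lam * gauss_g f i) z (c i)
      ∂(Measure.pi (fun _ : Fin N => unif n a b)) =
      ∏ i ∈ I, ∫⁻ x, gauss_h (lam * gauss_g f i) z x ∂(unif n a b) := by
    intro z
    exact gauss_prod (unif n a b) I (fun i => gauss_h (lam * gauss_g f i) z)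
      fun i => gauss_hm' _ z
  simp only [e2]
  obtain ⟨i0, hi0⟩ : I.Nonempty := by
    rw [hI]
    exact Finset.univ_nonempty.image f
  obtain ⟨G, hG⟩ : ∃ G : Fin N → ℝ, G = fun i =>
    ((b - a) ^ n)⁻¹ * (Real.pi / (lam * gauss_g f i)) ^ ((n : ℝ) / 2) := ⟨_, rfl⟩
  have hG0 : ∀ i ∈ I, 0 ≤ G i := by
    intro i hi
    rw [hG]
    have := hg i hi
    positivity
  have e3 : ∀ z : E n, ∏ i ∈ I, ∫⁻ x, gauss_h (lam * gauss_g f i) z x ∂(unif n a b) ≤
      (∫⁻ x, gauss_h (lam * gauss_g f i0) z x ∂(unif n a b)) *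
        ENNReal.ofReal (∏ i ∈ I.erase i0, G i) := by
    intro z
    rw [← Finset.mul_prod_erase I _ hi0,
      ENNReal.ofReal_prod_of_nonneg fun i hi => hG0 i (Finset.mem_of_mem_erase hi)]
    gcongr with i hi
    rw [hG]
    exact gauss_h1 (hg i (Finset.mem_of_mem_erase hi)) hab z
  refine (lintegral_mono e3).trans ?_
  rw [lintegral_mul_const' _ _ ENNReal.ofReal_ne_top, gauss_h2 h1 (hg i0 hi0) hab,
    ← ENNReal.ofReal_mul (by have := hg i0 hi0; positivity)]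
  refine ENNReal.ofReal_le_ofReal (le_of_eq ?_)
  rw [hG, Finset.prod_mul_distrib, Finset.prod_const, Finset.card_erase_of_mem hi0,
    ← Finset.mul_prod_erase I _ hi0]
  ring

/-- the final inequality between real numbers -/
theorem gauss_real {n k M : ℕ} {D τ G : ℝ} (hn : 1 ≤ n) (hk : 1 ≤ k) (hD : 0 < D) (hτ : 0 < τ)
    (hM : 2 ≤ M) (hG : ((k : ℝ) + 1) ^ (((k : ℝ) + 1 - M) / k) ≤ G) :
    (D⁻¹) ^ (M - 1) * ((Real.pi / (n * τ ^ 2)) ^ M / G) ^ ((n : ℝ) / 2) ≤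
      ((2 * Real.pi * Real.exp 1 / n) ^ ((n : ℝ) / 2) * (ak k / τ) ^ n / D) ^ (M - 1) *
        (Real.exp (-(n * ((M : ℝ) - 1) / 2)) *
          (Real.pi / (n * τ ^ 2 * (k + 1))) ^ ((n : ℝ) / 2)) := by
  have hn0 : (0 : ℝ) < n := by exact_mod_cast hn
  have hk0 : (0 : ℝ) < k := by exact_mod_cast hk
  have hk1 : (0 : ℝ) < (k : ℝ) + 1 := by positivity
  have hpi := Real.pi_pos
  have hGpos : 0 < G := (Real.rpow_pos_of_pos hk1 _).trans_le hG
  obtain ⟨ν, hν⟩ : ∃ ν : ℝ, ν = (n : ℝ) / 2 := ⟨_, rfl⟩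
  obtain ⟨w, hw⟩ : ∃ w : ℝ, w = Real.pi / (n * τ ^ 2) := ⟨_, rfl⟩
  have hw0 : 0 < w := by rw [hw]; positivity
  obtain ⟨κ, hκ⟩ : ∃ κ : ℝ, κ = ((k : ℝ) + 1) ^ (1 / (k : ℝ)) := ⟨_, rfl⟩
  have hκ0 : 0 < κ := by rw [hκ]; exact Real.rpow_pos_of_pos hk1 _
  have hak0 : 0 < ak k := by
    unfold ak
    have : 0 < ((k : ℝ) + 1) ^ (1 / (2 * (k : ℝ))) := Real.rpow_pos_of_pos hk1 _
    positivity
  have hak : ak k ^ 2 = 1 / 2 * κ := by
    unfold ak
    rw [mul_pow, Real.sq_sqrt (by norm_num), hκ, ← Real.rpow_natCast, ← Real.rpow_mul hk1.le]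
    congr 2
    push_cast
    field_simp
  have e1 : (ak k / τ) ^ n = ((1 / 2 * κ / τ ^ 2)) ^ ν := by
    rw [← hak, ← div_pow, ← Real.rpow_natCast (ak k / τ) 2, ← Real.rpow_mul (by positivity), hν]
    have : ((2 : ℕ) : ℝ) * ((n : ℝ) / 2) = n := by push_cast; ring
    rw [this, Real.rpow_natCast]
  have e2 : (2 * Real.pi * Real.exp 1 / n) ^ ν * (ak k / τ) ^ n = (w * Real.exp 1 * κ) ^ ν := by
    rw [e1, ← Real.mul_rpow (by positivity) (by positivity)]
    congr 1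
    rw [hw]
    field_simp
  have e3 : Real.exp (-(n * ((M : ℝ) - 1) / 2)) = (Real.exp (-((M : ℝ) - 1))) ^ ν := by
    rw [← Real.exp_mul, hν]
    congr 1
    ring
  have e4 : Real.pi / (n * τ ^ 2 * (k + 1)) = w / (k + 1) := by
    rw [hw]
    field_simp
  rw [← hν, ← hw, e4, e2, e3, ← Real.mul_rpow (by positivity) (by positivity), div_eq_mul_inv _ D,
    mul_pow, ← Real.rpow_natCast ((w * Real.exp 1 * κ) ^ ν), ← Real.rpow_mul (by positivity),
    mul_comm ν, Real.rpow_mul (by positivity), Real.rpow_natCast,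
    mul_comm (((w * Real.exp 1 * κ) ^ (M - 1)) ^ ν), mul_assoc,
    ← Real.mul_rpow (by positivity) (by positivity)]
  apply mul_le_mul_of_nonneg_left _ (by positivity)
  apply Real.rpow_le_rpow (by positivity) _ (by rw [hν]; positivity)
  -- the inner inequality
  have hM1 : (M : ℝ) - 1 = ((M - 1 : ℕ) : ℝ) := by
    rw [Nat.cast_sub (by omega)]
    push_cast
    ring
  have e5 : Real.exp (-((M : ℝ) - 1)) = (Real.exp 1 ^ (M - 1))⁻¹ := by
    rw [hM1, Real.exp_neg, ← Real.exp_nat_mul, mul_one]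
  have e6 : w ^ M = w ^ (M - 1) * w := by
    rw [← pow_succ]
    congr 1
    omega
  have e7 : (k : ℝ) + 1 ≤ G * κ ^ (M - 1) := by
    have h1 : (k : ℝ) + 1 = ((k : ℝ) + 1) ^ (((k : ℝ) + 1 - M) / k) * κ ^ (M - 1) := by
      rw [hκ, ← Real.rpow_natCast, ← Real.rpow_mul hk1.le, ← Real.rpow_add hk1, ← hM1]
      have : ((k : ℝ) + 1 - M) / k + 1 / k * ((M : ℝ) - 1) = 1 := by
        field_simp
        ring
      rw [this, Real.rpow_one]
    rw [h1]
    exact mul_le_mul_of_nonneg_right hG (by positivity)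
  rw [e5, e6, mul_pow, mul_pow]
  have e8 : w ^ (M - 1) * Real.exp 1 ^ (M - 1) * κ ^ (M - 1) *
      ((Real.exp 1 ^ (M - 1))⁻¹ * (w / (k + 1))) = w ^ (M - 1) * w * (κ ^ (M - 1) / (k + 1)) := by
    have : Real.exp 1 ^ (M - 1) ≠ 0 := by positivity
    field_simp
  rw [e8, div_eq_mul_inv]
  apply mul_le_mul_of_nonneg_left _ (by positivity)
  rw [inv_eq_one_div, div_le_div_iff₀ hGpos hk1, one_mul]
  linarith

theorem gauss_low {n k N : ℕ} (c : Fin N → E n) (f : Fin (k + 1) → Fin N) {lam : ℝ}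
    (hl : 0 < lam) :
    ∫⁻ z : E n, ENNReal.ofReal (Real.exp (-lam * ∑ a, ‖c (f a) - z‖ ^ 2)) =
      ENNReal.ofReal (Real.exp (-lam * (TT (fun a => c (f a)) / (2 * (k + 1)))) *
        (Real.pi / (lam * (k + 1))) ^ ((n : ℝ) / 2)) := by
  have hl' : 0 < lam * ((k : ℝ) + 1) := by positivity
  rw [ENNReal.ofReal_mul (Real.exp_pos _).le,
    ← gauss_int n hl' ((1 / ((k : ℝ) + 1)) • ∑ a, c (f a)),
    ← lintegral_const_mul' _ _ ENNReal.ofReal_ne_top]
  refine lintegral_congr fun z => ?_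
  rw [← ENNReal.ofReal_mul (Real.exp_pos _).le, ← Real.exp_add,
    gauss_id (fun a => c (f a)) z]
  congr 2
  ring

theorem gauss_pm {n k N : ℕ} (f : Fin (k + 1) → Fin N) (lam : ℝ) :
    Measurable (fun c : Fin N → E n =>
      ∫⁻ z : E n, ENNReal.ofReal (Real.exp (-lam * ∑ a, ‖c (f a) - z‖ ^ 2))) := by
  have h : Measurable (fun p : (Fin N → E n) × E n =>
      ENNReal.ofReal (Real.exp (-lam * ∑ a, ‖p.1 (f a) - p.2‖ ^ 2))) := by
    fun_prop
  exact h.lintegral_prod_right'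

theorem gauss (h1 : S_cube) (h2 : S_gprod) : S_gauss := by
  intro n k N hn hk a b τ hab hτ f hf
  have hn0 : (0 : ℝ) < n := by exact_mod_cast hn
  have hpi := Real.pi_pos
  have hD : 0 < (b - a) ^ n := pow_pos (by linarith) n
  obtain ⟨lam, hlam⟩ : ∃ lam : ℝ, lam = n * τ ^ 2 := ⟨_, rfl⟩
  have hl : 0 < lam := by rw [hlam]; positivity
  have hprob := gauss_prob h1 (n := n) hab
  obtain ⟨e, he⟩ : ∃ e : ℝ, e = Real.exp (-(n * ((img f : ℝ) - 1) / 2)) *
    (Real.pi / (n * τ ^ 2 * (k + 1))) ^ ((n : ℝ) / 2) := ⟨_, rfl⟩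
  have he0 : 0 < e := by
    rw [he]
    exact mul_pos (Real.exp_pos _) (Real.rpow_pos_of_pos (by positivity) _)
  obtain ⟨t, ht⟩ : ∃ t : ℝ, t = ((2 * Real.pi * Real.exp 1 / n) ^ ((n : ℝ) / 2) *
    (ak k / τ) ^ n / (b - a) ^ n) ^ (img f - 1) := ⟨_, rfl⟩
  have ht0 : 0 ≤ t := by
    rw [ht]
    have h3 : 0 ≤ ak k := by
      unfold ak
      have : 0 ≤ ((k : ℝ) + 1) ^ (1 / (2 * (k : ℝ))) := Real.rpow_nonneg (by positivity) _
      positivity
    positivity
  rw [← ht]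
  -- the upper bound
  have hup := gauss_up h1 (n := n) hab f hl
  have hG := h2 k N hk f
  have hGe : ∏ i ∈ Finset.univ.image f, gauss_g f i =
      ∏ i ∈ Finset.univ.image f, (((Finset.univ.filter (fun a => f a = i)).card : ℕ) : ℝ) := by
    refine Finset.prod_congr rfl fun i _ => ?_
    unfold gauss_g
    congr
  have hreal := gauss_real (D := (b - a) ^ n) hn hk hD hτ hf hG
  have hpe : ∏ i ∈ Finset.univ.image f, (Real.pi / (lam * gauss_g f i)) ^ ((n : ℝ) / 2) =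
      ((Real.pi / (n * τ ^ 2)) ^ (img f) / ∏ i ∈ Finset.univ.image f,
        (((Finset.univ.filter (fun a => f a = i)).card : ℕ) : ℝ)) ^ ((n : ℝ) / 2) := by
    rw [Real.finsetProd_rpow _ _ fun i hi => by
      have := gauss_gpos f hi
      positivity]
    congr 1
    rw [← hGe, ← hlam]
    have : ∀ i ∈ Finset.univ.image f, Real.pi / (lam * gauss_g f i) =
        (Real.pi / lam) / gauss_g f i := fun i _ => by rw [div_div]
    rw [Finset.prod_congr rfl this, Finset.prod_div_distrib, Finset.prod_const]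
    rfl
  rw [hpe] at hup
  rw [← he, ← ht] at hreal
  -- Markov
  have hmk := mul_meas_ge_le_lintegral (μ := Measure.pi (fun _ : Fin N => unif n a b))
    (gauss_pm (n := n) f lam) (ENNReal.ofReal e)
  have hsub : {c : Fin N → E n | τ ^ 2 * TT (fun a => c (f a)) ≤
      ((k : ℝ) + 1) * ((img f : ℝ) - 1)} ⊆ {c | ENNReal.ofReal e ≤
        ∫⁻ z : E n, ENNReal.ofReal (Real.exp (-lam * ∑ a, ‖c (f a) - z‖ ^ 2))} := by
    intro c hc
    rw [Set.mem_ofPred_eq] at hc ⊢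
    rw [gauss_low c f hl, he, hlam]
    apply ENNReal.ofReal_le_ofReal
    apply mul_le_mul_of_nonneg_right _ (Real.rpow_nonneg (by positivity) _)
    apply Real.exp_le_exp.2
    have hk1 : (0 : ℝ) < (k : ℝ) + 1 := by positivity
    have h5 : (n : ℝ) * τ ^ 2 * (TT (fun a => c (f a)) / (2 * (k + 1))) ≤
        n * ((img f : ℝ) - 1) / 2 := by
      have h6 : (n : ℝ) * τ ^ 2 * (TT (fun a => c (f a)) / (2 * (k + 1))) =
          n * (τ ^ 2 * TT (fun a => c (f a))) / (2 * (k + 1)) := by ring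
      rw [h6, div_le_div_iff₀ (by positivity) (by norm_num)]
      nlinarith
    linarith
  have h7 : (Measure.pi (fun _ : Fin N => unif n a b))
      {c | τ ^ 2 * TT (fun a => c (f a)) ≤ ((k : ℝ) + 1) * ((img f : ℝ) - 1)} *
      ENNReal.ofReal e ≤ ENNReal.ofReal t * ENNReal.ofReal e := by
    rw [← ENNReal.ofReal_mul ht0]
    calc _ ≤ (Measure.pi (fun _ : Fin N => unif n a b)) {c | ENNReal.ofReal e ≤
        ∫⁻ z : E n, ENNReal.ofReal (Real.exp (-lam * ∑ a, ‖c (f a) - z‖ ^ 2))} *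
          ENNReal.ofReal e := by
          gcongr
      _ ≤ _ := by
          rw [mul_comm]
          exact (hmk.trans hup).trans (ENNReal.ofReal_le_ofReal hreal)
  have he1 : ENNReal.ofReal e ≠ 0 := (ENNReal.ofReal_pos.2 he0).ne'
  have h8 := ENNReal.div_le_of_le_mul h7
  rwa [ENNReal.mul_div_cancel_right he1 ENNReal.ofReal_ne_top] at h8

end Pool.Agent.Y373.SX
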