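import Pool.Agent.Y373.SX.Stm2

/-!
# SY-GPROD: a lower bound for the product of the sizes of the fibres (by helper383)
-/

set_option autoImplicit false

namespace Pool.Agent.Y373.SX

/-- the product of `1 + g i` is at least `1 + ∑ g i` -/
theorem gprod_sum_le {ι : Type*} (s : Finset ι) (g : ι → ℝ) (hg : ∀ i ∈ s, 1 ≤ g i) :
    1 + ∑ i ∈ s, (g i - 1) ≤ ∏ i ∈ s, g i := by
  classical
  induction s using Finset.induction_on with
  | empty => simp
  | insert a s ha ih =>
    rw [Finset.sum_insert ha, Finset.prod_insert ha]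
    have h1 := ih fun i hi => hg i (Finset.mem_insert_of_mem hi)
    have h2 := hg a (Finset.mem_insert_self _ _)
    have h3 : 0 ≤ ∑ i ∈ s, (g i - 1) := Finset.sum_nonneg fun i hi => by
      have := hg i (Finset.mem_insert_of_mem hi)
      linarith
    nlinarith [mul_le_mul_of_nonneg_left h1 (by linarith : (0 : ℝ) ≤ g a)]

theorem gprod : S_gprod := by
  classical
  intro k N hk f
  have hk0 : (0 : ℝ) < k := by exact_mod_cast hk
  have h1 := Finset.card_eq_sum_card_image f (Finset.univ : Finset (Fin (k + 1)))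
  rw [Finset.card_univ, Fintype.card_fin] at h1
  have h2 : ∀ i ∈ Finset.univ.image f,
      (1 : ℝ) ≤ (((Finset.univ.filter (fun a => f a = i)).card : ℕ) : ℝ) := by
    intro i hi
    obtain ⟨a, -, rfl⟩ := Finset.mem_image.1 hi
    have : 0 < (Finset.univ.filter (fun b => f b = f a)).card :=
      Finset.card_pos.2 ⟨a, Finset.mem_filter.2 ⟨Finset.mem_univ _, rfl⟩⟩
    exact_mod_cast this
  have h3 := gprod_sum_le _ _ h2
  rw [Finset.sum_sub_distrib, Finset.sum_const, nsmul_eq_mul, mul_one, ← Nat.cast_sum] at h3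
  have h4 : ((∑ i ∈ Finset.univ.image f, (Finset.univ.filter (fun a => f a = i)).card : ℕ) : ℝ) =
      (k : ℝ) + 1 := by
    rw [← h1]
    push_cast
    ring
  rw [h4] at h3
  have h5 : (img f : ℝ) = ((Finset.univ.image f).card : ℝ) := rfl
  rw [← h5] at h3
  have h6 : img f ≤ k + 1 := by
    have : (Finset.univ.image f).card ≤ (Finset.univ : Finset (Fin (k + 1))).card :=
      Finset.card_image_le
    rwa [Finset.card_univ, Fintype.card_fin] at this
  have h7 : 1 ≤ img f := Finset.card_pos.2 ⟨f 0, Finset.mem_image_of_mem _ (Finset.mem_univ _)⟩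
  have h6' : (img f : ℝ) ≤ k + 1 := by exact_mod_cast h6
  have h7' : (1 : ℝ) ≤ img f := by exact_mod_cast h7
  have h8 := rpow_one_add_le_one_add_mul_self (s := (k : ℝ)) (by linarith)
    (p := ((k : ℝ) + 1 - img f) / k) (div_nonneg (by linarith) hk0.le)
    (by rw [div_le_one hk0]; linarith)
  rw [div_mul_cancel₀ _ hk0.ne', add_comm 1 (k : ℝ)] at h8
  refine h8.trans (le_trans (le_of_eq ?_) h3)
  ring

end Pool.Agent.Y373.SX
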