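import Pool.Agent.Y373.SX.Stm2

/-!
# The variance of a unit simplex between groups
-/

set_option autoImplicit false

namespace Pool.Agent.Y373.SX

open Finset

section group_general

variable {F : Type*} [NormedAddCommGroup F] [InnerProductSpace ℝ F] {k : ℕ}

theorem group_bil (u z : Fin (k + 1) → F) (hu : ∑ a, u a = 0) :
    ∑ a, ∑ b, inner ℝ (u a - u b) (z a - z b) = 2 * ((k : ℝ) + 1) * ∑ a, inner ℝ (u a) (z a) := by
  have h1 : ∀ a b, inner ℝ (u a - u b) (z a - z b) =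
      inner ℝ (u a) (z a) - inner ℝ (u a) (z b) - (inner ℝ (u b) (z a) - inner ℝ (u b) (z b)) := by
    intro a b
    rw [inner_sub_left, inner_sub_right, inner_sub_right]
  have h2 : ∑ a, ∑ b, inner ℝ (u a) (z b) = 0 := by
    have : ∑ a, ∑ b, inner ℝ (u a) (z b) = inner ℝ (∑ a, u a) (∑ b, z b) := by
      rw [sum_inner]
      exact sum_congr rfl fun a _ => (inner_sum _ _ _).symm
    rw [this, hu, inner_zero_left]
  have h3 : ∑ a, ∑ b, inner ℝ (u b) (z a) = 0 := by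
    rw [sum_comm]
    exact h2
  simp only [h1, sum_sub_distrib]
  rw [h2, h3]
  simp only [sum_const, card_univ, Fintype.card_fin, nsmul_eq_mul, ← mul_sum]
  push_cast
  ring

theorem group_gram (u : Fin (k + 1) → F) (hu : ∑ a, u a = 0)
    (hd : ∀ a b, a ≠ b → ‖u a - u b‖ = 1) (a b : Fin (k + 1)) :
    inner ℝ (u a) (u b) = 1 / 2 * ((if a = b then 1 else 0) - 1 / ((k : ℝ) + 1)) := by
  have hK : (0 : ℝ) < (k : ℝ) + 1 := by positivity
  have h1 : ∀ a b, ‖u a‖ ^ 2 - 2 * inner ℝ (u a) (u b) + ‖u b‖ ^ 2 = 1 - (if a = b then 1 else 0) := by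
    intro a b
    rw [← norm_sub_sq_real]
    by_cases h : a = b
    · subst h
      simp
    · rw [hd a b h, if_neg h]
      norm_num
  set Q : ℝ := ∑ b, ‖u b‖ ^ 2 with hQ
  have h2 : ∀ a, ((k : ℝ) + 1) * ‖u a‖ ^ 2 + Q = k := by
    intro a
    have h3 : ∑ b, (‖u a‖ ^ 2 - 2 * inner ℝ (u a) (u b) + ‖u b‖ ^ 2) =
        ∑ b, (1 - (if a = b then (1 : ℝ) else 0)) := sum_congr rfl fun b _ => h1 a b
    rw [sum_add_distrib, sum_sub_distrib, ← mul_sum, ← inner_sum, hu, inner_zero_right,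
      sum_sub_distrib] at h3
    simp only [sum_const, card_univ, Fintype.card_fin, nsmul_eq_mul, sum_ite_eq, mem_univ,
      if_true] at h3
    push_cast at h3
    linarith
  have h4 : ((k : ℝ) + 1) * Q + ((k : ℝ) + 1) * Q = ((k : ℝ) + 1) * k := by
    have h5 : ∑ a : Fin (k + 1), (((k : ℝ) + 1) * ‖u a‖ ^ 2 + Q) = ∑ _a : Fin (k + 1), (k : ℝ) :=
      sum_congr rfl fun a _ => h2 a
    rw [sum_add_distrib, ← mul_sum] at h5
    simp only [sum_const, card_univ, Fintype.card_fin, nsmul_eq_mul] at h5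
    push_cast at h5
    linarith
  have h6 : Q = k / 2 := by
    have : ((k : ℝ) + 1) * (2 * Q) = ((k : ℝ) + 1) * k := by linarith
    have := mul_left_cancel₀ hK.ne' this
    linarith
  have h7 : ∀ a, ‖u a‖ ^ 2 = 1 / 2 * (1 - 1 / ((k : ℝ) + 1)) := by
    intro a
    have h8 := h2 a
    rw [h6] at h8
    field_simp
    linarith
  have h9 := h1 a b
  rw [h7 a, h7 b] at h9
  linarith

end group_general

theorem group : S_group := by
  intro n k N x hx c f
  have hK : (0 : ℝ) < (k : ℝ) + 1 := by positivity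
  set xb : E n := ((k : ℝ) + 1)⁻¹ • ∑ a, x a with hxb
  set u : Fin (k + 1) → E n := fun a => x a - xb with hu
  have husum : ∑ a, u a = 0 := by
    simp only [hu, sum_sub_distrib, sum_const, card_univ, Fintype.card_fin]
    rw [hxb, ← Nat.cast_smul_eq_nsmul ℝ, smul_smul]
    push_cast
    rw [mul_inv_cancel₀ hK.ne', one_smul, sub_self]
  set yb : E n := ((k : ℝ) + 1)⁻¹ • ∑ a, c (f a) with hyb
  set ζ : Fin N → E n := fun i => c i - yb with hζ
  have hzsum : ∑ a, ζ (f a) = 0 := by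
    simp only [hζ, sum_sub_distrib, sum_const, card_univ, Fintype.card_fin]
    rw [hyb, ← Nat.cast_smul_eq_nsmul ℝ, smul_smul]
    push_cast
    rw [mul_inv_cancel₀ hK.ne', one_smul, sub_self]
  have hud : ∀ a b, a ≠ b → ‖u a - u b‖ = 1 := by
    intro a b hab
    have : u a - u b = x a - x b := by simp [hu]
    rw [this, ← dist_eq_norm]
    exact hx a b hab
  have hP : ∑ a, ∑ b, inner ℝ (x a - x b) (c (f a) - c (f b)) =
      2 * ((k : ℝ) + 1) * ∑ a, inner ℝ (u a) (ζ (f a)) := by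
    rw [← group_bil u (fun a => ζ (f a)) husum]
    refine sum_congr rfl fun a _ => sum_congr rfl fun b _ => ?_
    congr 1
    · simp [hu]
    · simp [hζ]
  have hT : TT (fun a => c (f a)) = 2 * ((k : ℝ) + 1) * ∑ a, ‖ζ (f a)‖ ^ 2 := by
    have h1 := group_bil (fun a => ζ (f a)) (fun a => ζ (f a)) hzsum
    simp only [real_inner_self_eq_norm_sq] at h1
    rw [← h1]
    unfold TT
    refine sum_congr rfl fun a _ => sum_congr rfl fun b _ => ?_
    simp [hζ]
  set I : Finset (Fin N) := univ.image f with hI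
  set fib : Fin N → Finset (Fin (k + 1)) := fun i => univ.filter (fun a => f a = i) with hfib
  have hmaps : ∀ a ∈ (univ : Finset (Fin (k + 1))), f a ∈ I := fun a ha => mem_image_of_mem f ha
  have hsum1 : ∑ a, inner ℝ (u a) (ζ (f a)) = ∑ i ∈ I, inner ℝ (∑ a ∈ fib i, u a) (ζ i) := by
    rw [← sum_fiberwise_of_maps_to hmaps]
    refine sum_congr rfl fun i _ => ?_
    rw [sum_inner]
    refine sum_congr rfl fun a ha => ?_
    rw [(mem_filter.1 ha).2]
  have hsum2 : ∑ a, ‖ζ (f a)‖ ^ 2 = ∑ i ∈ I, ((fib i).card : ℝ) * ‖ζ i‖ ^ 2 := by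
    rw [← sum_fiberwise_of_maps_to hmaps]
    refine sum_congr rfl fun i _ => ?_
    rw [← nsmul_eq_mul, ← sum_const]
    refine sum_congr rfl fun a ha => ?_
    rw [(mem_filter.1 ha).2]
  have hnorm : ∀ i, ‖∑ a ∈ fib i, u a‖ ^ 2 =
      1 / 2 * ((fib i).card - ((fib i).card : ℝ) ^ 2 / ((k : ℝ) + 1)) := by
    intro i
    rw [← real_inner_self_eq_norm_sq, sum_inner]
    have h1 : ∀ a ∈ fib i, inner ℝ (u a) (∑ b ∈ fib i, u b) =
        1 / 2 * (1 - ((fib i).card : ℝ) / ((k : ℝ) + 1)) := by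
      intro a ha
      rw [inner_sum]
      have h2 : ∀ b ∈ fib i, inner ℝ (u a) (u b) =
          1 / 2 * ((if a = b then 1 else 0) - 1 / ((k : ℝ) + 1)) :=
        fun b _ => group_gram u husum hud a b
      rw [sum_congr rfl h2, ← mul_sum, sum_sub_distrib, sum_ite_eq, if_pos ha, sum_const,
        nsmul_eq_mul]
      ring
    rw [sum_congr rfl h1, sum_const, nsmul_eq_mul]
    ring
  have hcs : (∑ i ∈ I, inner ℝ (∑ a ∈ fib i, u a) (ζ i)) ^ 2 ≤
      (∑ i ∈ I, 1 / 2 * (1 - ((fib i).card : ℝ) / ((k : ℝ) + 1))) *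
        ∑ i ∈ I, ((fib i).card : ℝ) * ‖ζ i‖ ^ 2 := by
    refine sum_sq_le_sum_mul_sum_of_sq_le_mul I ?_ ?_ ?_
    · intro i _
      have h1 : (fib i).card ≤ k + 1 := by
        have := card_le_univ (fib i)
        simpa using this
      have h2 : ((fib i).card : ℝ) / ((k : ℝ) + 1) ≤ 1 := by
        rw [div_le_one hK]
        exact_mod_cast h1
      linarith
    · intro i _
      positivity
    · intro i _
      have h1 := real_inner_mul_inner_self_le (∑ a ∈ fib i, u a) (ζ i)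
      rw [real_inner_self_eq_norm_sq, real_inner_self_eq_norm_sq, hnorm i] at h1
      calc (inner ℝ (∑ a ∈ fib i, u a) (ζ i)) ^ 2 =
          inner ℝ (∑ a ∈ fib i, u a) (ζ i) * inner ℝ (∑ a ∈ fib i, u a) (ζ i) := by ring
        _ ≤ _ := h1
        _ = _ := by ring
  have hM : ∑ i ∈ I, 1 / 2 * (1 - ((fib i).card : ℝ) / ((k : ℝ) + 1)) =
      1 / 2 * ((img f : ℝ) - 1) := by
    rw [← mul_sum, sum_sub_distrib, ← sum_div]
    have h1 : (∑ i ∈ I, ((fib i).card : ℝ)) = (k : ℝ) + 1 := by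
      have h2 := card_eq_sum_card_fiberwise (s := (univ : Finset (Fin (k + 1)))) (t := I) (f := f)
        hmaps
      rw [card_univ, Fintype.card_fin] at h2
      have h3 : ((k + 1 : ℕ) : ℝ) = ∑ i ∈ I, ((fib i).card : ℝ) := by
        exact_mod_cast h2
      rw [← h3]
      push_cast
      ring
    rw [h1, div_self hK.ne', sum_const, nsmul_eq_mul, mul_one]
    rfl
  rw [hP, hT, hsum1, hsum2]
  rw [hM] at hcs
  have h5 : 0 ≤ 4 * ((k : ℝ) + 1) ^ 2 := by positivity
  calc (2 * ((k : ℝ) + 1) * ∑ i ∈ I, inner ℝ (∑ a ∈ fib i, u a) (ζ i)) ^ 2 =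
      4 * ((k : ℝ) + 1) ^ 2 * (∑ i ∈ I, inner ℝ (∑ a ∈ fib i, u a) (ζ i)) ^ 2 := by ring
    _ ≤ 4 * ((k : ℝ) + 1) ^ 2 * (1 / 2 * ((img f : ℝ) - 1) *
        ∑ i ∈ I, ((fib i).card : ℝ) * ‖ζ i‖ ^ 2) := mul_le_mul_of_nonneg_left hcs h5
    _ = _ := by ring

end Pool.Agent.Y373.SX
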