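import Pool.Agent.Y373.SX.Stm

/-!
Project SX: the number of translates and the parameters (helper41).
-/

set_option autoImplicit false

namespace Pool.Agent.Y373.SX

open MeasureTheory Metric Filter

theorem num : S_num := by
  intro θ δ β m hθ hθ1 hδ hm hβ
  have hm0 : (0 : ℝ) < m := by exact_mod_cast hm
  have hm1 : (1 : ℝ) ≤ m := by exact_mod_cast hm
  have ha : 1 < θ * β := by
    rw [div_lt_iff₀ hθ] at hβ
    linarith
  have hβ0 : 0 < β := lt_trans (by positivity) hβ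
  obtain ⟨C, hC⟩ : ∃ C : ℝ, C = (8 + δ) * 2 / δ := ⟨_, rfl⟩
  have hC0 : 0 < C := by rw [hC]; positivity
  have h1 := tendsto_pow_const_div_const_pow_of_one_lt 3 ha
  have h2 := tendsto_pow_const_div_const_pow_of_one_lt 0 ha
  have h3 := (h1.const_mul (16 * m * C)).add h2
  rw [mul_zero, add_zero] at h3
  have h4 := h3.eventually (gt_mem_nhds one_pos)
  filter_upwards [h4, eventually_ge_atTop 1] with n hn hn1
  have hn1' : (1 : ℝ) ≤ n := by exact_mod_cast hn1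
  have hn0 : (0 : ℝ) < n := by linarith
  have hapos : 0 < (θ * β) ^ n := by positivity
  have h5 : 16 * m * C * (n : ℝ) ^ 3 + 1 < (θ * β) ^ n := by
    have e : 16 * m * C * ((n : ℝ) ^ 3 / (θ * β) ^ n) + (n : ℝ) ^ 0 / (θ * β) ^ n =
        (16 * m * C * (n : ℝ) ^ 3 + 1) / (θ * β) ^ n := by
      rw [pow_zero]
      field_simp
    rw [e, div_lt_one hapos] at hn
    exact hn
  refine ⟨⌊β ^ n⌋₊, Nat.floor_le (by positivity), ?_⟩
  have hM : β ^ n - 1 ≤ (⌊β ^ n⌋₊ : ℝ) := by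
    have := Nat.lt_floor_add_one (β ^ n)
    linarith
  obtain ⟨p, hp⟩ : ∃ p : ℝ, p = θ ^ n / (16 * m) := ⟨_, rfl⟩
  have hθn : θ ^ n ≤ 1 := pow_le_one₀ hθ.le hθ1.le
  have hp0 : 0 < p := by rw [hp]; positivity
  have hp1 : p ≤ 1 := by
    rw [hp, div_le_one (by positivity)]
    linarith
  have h6 : C * (n : ℝ) ^ 3 < p * (⌊β ^ n⌋₊ : ℝ) := by
    have h7 : p * (β ^ n - 1) ≤ p * (⌊β ^ n⌋₊ : ℝ) := mul_le_mul_of_nonneg_left hM hp0.le
    refine lt_of_lt_of_le ?_ h7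
    have h8 : p * (β ^ n - 1) = ((θ * β) ^ n - θ ^ n) / (16 * m) := by
      rw [hp, mul_pow]
      ring
    rw [h8, lt_div_iff₀ (by positivity)]
    linarith
  have h7 : (1 - p) ^ ⌊β ^ n⌋₊ ≤ Real.exp (-(p * (⌊β ^ n⌋₊ : ℝ))) := by
    have h8 : 1 - p ≤ Real.exp (-p) := by
      have := Real.add_one_le_exp (-p)
      linarith
    calc (1 - p) ^ ⌊β ^ n⌋₊ ≤ (Real.exp (-p)) ^ ⌊β ^ n⌋₊ :=
          pow_le_pow_left₀ (by linarith) h8 _
      _ = Real.exp (-(p * (⌊β ^ n⌋₊ : ℝ))) := by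
          rw [← Real.exp_nat_mul]
          congr 1
          ring
  have h8 : ((4 * n + 4 + δ) * (2 * n) / δ) ^ n ≤ Real.exp (C * (n : ℝ) ^ 3) := by
    have h9 : (4 * n + 4 + δ) * (2 * n) / δ ≤ C * (n : ℝ) ^ 2 := by
      rw [hC, div_le_iff₀ hδ]
      have h10 : 4 * (n : ℝ) + 4 + δ ≤ (8 + δ) * n := by nlinarith
      have h11 : (4 * (n : ℝ) + 4 + δ) * (2 * n) ≤ (8 + δ) * n * (2 * n) :=
        mul_le_mul_of_nonneg_right h10 (by positivity)
      have h12 : (8 + δ) * 2 / δ * (n : ℝ) ^ 2 * δ = (8 + δ) * n * (2 * n) := by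
        field_simp
      rw [h12]
      exact h11
    have h10 : C * (n : ℝ) ^ 2 ≤ Real.exp (C * (n : ℝ) ^ 2) := by
      have := Real.add_one_le_exp (C * (n : ℝ) ^ 2)
      linarith
    calc ((4 * n + 4 + δ) * (2 * n) / δ) ^ n ≤ (Real.exp (C * (n : ℝ) ^ 2)) ^ n :=
          pow_le_pow_left₀ (by positivity) (h9.trans h10) _
      _ = Real.exp (C * (n : ℝ) ^ 3) := by
          rw [← Real.exp_nat_mul]
          congr 1
          ring
  rw [← hp]
  calc (1 - p) ^ ⌊β ^ n⌋₊ * ((4 * n + 4 + δ) * (2 * n) / δ) ^ n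
      ≤ Real.exp (-(p * (⌊β ^ n⌋₊ : ℝ))) * Real.exp (C * (n : ℝ) ^ 3) :=
        mul_le_mul h7 h8 (by positivity) (Real.exp_pos _).le
    _ = Real.exp (-(p * (⌊β ^ n⌋₊ : ℝ)) + C * (n : ℝ) ^ 3) := by rw [Real.exp_add]
    _ < 1 := by
        rw [Real.exp_lt_one_iff]
        linarith

theorem par : S_par := by
  intro ε hε
  obtain ⟨s, hs⟩ : ∃ s : ℝ, s = √(1 / 2) := ⟨_, rfl⟩
  have hs2 : s ^ 2 = 1 / 2 := by rw [hs]; exact Real.sq_sqrt (by norm_num)
  have hs0 : 0 < s := by rw [hs]; exact Real.sqrt_pos.mpr (by norm_num)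
  have hs1 : s < 1 := by nlinarith
  obtain ⟨t, ht⟩ : ∃ t : ℝ, t = min (1 / 10) (ε / 100) := ⟨_, rfl⟩
  have ht0 : 0 < t := by rw [ht]; positivity
  have ht1 : t ≤ 1 / 10 := by rw [ht]; exact min_le_left _ _
  have ht2 : t ≤ ε / 100 := by rw [ht]; exact min_le_right _ _
  refine ⟨s * (1 - t), 1 - t, t * s, by positivity, ?_, ?_, ?_, ?_, by linarith, by linarith, ?_⟩
  · nlinarith
  · nlinarith
  · rw [mul_pow, hs2]
    nlinarith
  · nlinarith
  · rw [← hs]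
    have e1 : s * (1 - t) - t * s = s * (1 - 2 * t) := by ring
    have e2 : s + s * (1 - t) + t * s = 2 * s := by ring
    rw [e1, e2]
    have h1 : 0 < 1 - t := by linarith
    have h2 : 0 < 1 - 2 * t := by linarith
    have e3 : 1 / ((1 - t) * (s * (1 - 2 * t)) / (2 * s)) = 2 / ((1 - t) * (1 - 2 * t)) := by
      field_simp
    rw [e3, div_lt_iff₀ (by positivity)]
    have h3 : 0 < t * ε := by positivity
    have h4 : t * ε ≤ 1 / 10 * ε := mul_le_mul_of_nonneg_right ht1 hε.le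
    nlinarith [sq_nonneg t]

end Pool.Agent.Y373.SX
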