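import Pool.Agent.Y373.SX.Stm2

/-!
# Parameters and the limit
-/

set_option autoImplicit false

namespace Pool.Agent.Y373.SX

open MeasureTheory Metric Filter Topology

theorem par2 : S_par2 := by
  intro k hk β hβ
  have hkR : (1 : ℝ) ≤ k := by exact_mod_cast hk
  obtain ⟨p, hp⟩ : ∃ p : ℝ, p = ((k : ℝ) + 1) ^ (1 / (2 * (k : ℝ))) := ⟨_, rfl⟩
  have hp0 : 0 < p := by
    rw [hp]
    positivity
  obtain ⟨A, hA⟩ : ∃ A : ℝ, A = p * √(((k : ℝ) + 1) / k) := ⟨_, rfl⟩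
  have hA0 : 0 < A := by
    rw [hA]
    positivity
  obtain ⟨r, hr⟩ : ∃ r : ℝ, r = √((k : ℝ) / (2 * (k + 1))) := ⟨_, rfl⟩
  have hr0 : 0 < r := by
    rw [hr]
    positivity
  have hr2 : r ^ 2 = (k : ℝ) / (2 * (k + 1)) := by
    rw [hr]
    exact Real.sq_sqrt (by positivity)
  have hak : ak k = A * r := by
    rw [ak, ← hp, hA, hr, mul_assoc, ← Real.sqrt_mul (by positivity), mul_comm]
    congr 2
    field_simp
  rw [← hp, ← hA] at hβ
  have hβ0 : 0 < β := by linarith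
  obtain ⟨t, ht1, ht2⟩ : ∃ t : ℝ, 1 / β < t ∧ t < 1 / (1 + A) :=
    exists_between (one_div_lt_one_div_of_lt (by positivity) hβ)
  have ht0 : 0 < t := lt_trans (by positivity) ht1
  have htA : t * (1 + A) < 1 := by
    rwa [lt_div_iff₀ (by positivity)] at ht2
  have ht3 : t < 1 := by nlinarith
  have hR : A * r / (1 - t) < r / t := by
    rw [div_lt_div_iff₀ (by linarith) ht0]
    nlinarith
  obtain ⟨R, hR1, hR2⟩ := exists_between hR
  have hR0 : 0 < R := lt_trans (by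
    have : 0 < 1 - t := by linarith
    positivity) hR1
  rw [div_lt_iff₀ (by linarith)] at hR1
  rw [lt_div_iff₀ ht0] at hR2
  have c1 : ∀ᶠ δ in 𝓝[>] (0 : ℝ), t + 3 * δ < 1 := by
    have : Tendsto (fun δ : ℝ => t + 3 * δ) (𝓝[>] 0) (𝓝 (t + 3 * 0)) :=
      (Continuous.tendsto (by fun_prop) _).mono_left nhdsWithin_le_nhds
    exact this.eventually_lt_const (by linarith)
  have c2 : ∀ᶠ δ in 𝓝[>] (0 : ℝ), (t * R + δ) ^ 2 < r ^ 2 := by
    have : Tendsto (fun δ : ℝ => (t * R + δ) ^ 2) (𝓝[>] 0) (𝓝 ((t * R + 0) ^ 2)) :=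
      (Continuous.tendsto (by fun_prop) _).mono_left nhdsWithin_le_nhds
    refine this.eventually_lt_const ?_
    rw [add_zero]
    exact pow_lt_pow_left₀ (by linarith) (by positivity) (by norm_num)
  have c3 : ∀ᶠ δ in 𝓝[>] (0 : ℝ), ak k < (1 - t - 3 * δ) * R := by
    have : Tendsto (fun δ : ℝ => (1 - t - 3 * δ) * R) (𝓝[>] 0) (𝓝 ((1 - t - 3 * 0) * R)) :=
      (Continuous.tendsto (by fun_prop) _).mono_left nhdsWithin_le_nhds
    refine this.eventually_const_lt ?_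
    rw [hak]
    nlinarith
  have c4 : ∀ᶠ δ in 𝓝[>] (0 : ℝ), 0 < δ := self_mem_nhdsWithin
  obtain ⟨δ, h1, h2, h3, h4⟩ := (c1.and (c2.and (c3.and c4))).exists
  refine ⟨t, R, δ, ht0, ht3, h4, hR0, h1, ?_, h3, ?_⟩
  · rw [← hr2]
    exact h2
  · rw [div_lt_iff₀ ht0]
    rw [div_lt_iff₀ hβ0] at ht1
    linarith

theorem lim2 : S_lim2 := by
  intro ε hε
  have h1 : Tendsto (fun k : ℕ => ((k : ℝ) + 1) ^ (1 / (2 * (k : ℝ)))) atTop (𝓝 1) := by
    have h := tendsto_rpow_div_mul_add 1 2 (-2) (by norm_num)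
    have h' := h.comp (tendsto_natCast_atTop_atTop.atTop_add (tendsto_const_nhds (x := (1 : ℝ))))
    refine h'.congr fun k => ?_
    simp only [Function.comp]
    congr 2
    ring
  have h2 : Tendsto (fun k : ℕ => √(((k : ℝ) + 1) / k)) atTop (𝓝 1) := by
    have h3 : Tendsto (fun k : ℕ => ((k : ℝ) + 1) / k) atTop (𝓝 1) := by
      have h4 : Tendsto (fun k : ℕ => 1 + 1 / (k : ℝ)) atTop (𝓝 (1 + 0)) :=
        tendsto_const_nhds.add tendsto_one_div_atTop_nhds_zero_nat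
      rw [add_zero] at h4
      refine h4.congr' ?_
      filter_upwards [eventually_ge_atTop 1] with k hk
      have : (k : ℝ) ≠ 0 := by
        have : (1 : ℝ) ≤ k := by exact_mod_cast hk
        positivity
      field_simp
    have := h3.sqrt
    rwa [Real.sqrt_one] at this
  have h3 : Tendsto (fun k : ℕ => 1 + ((k : ℝ) + 1) ^ (1 / (2 * (k : ℝ))) * √(((k : ℝ) + 1) / k))
      atTop (𝓝 (1 + 1 * 1)) := tendsto_const_nhds.add (h1.mul h2)
  have h4 := h3.eventually_lt_const (show (1 : ℝ) + 1 * 1 < 2 + ε by linarith)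
  obtain ⟨k, hk1, hk2⟩ := (h4.and (eventually_ge_atTop 1)).exists
  exact ⟨k, hk2, hk1⟩

end Pool.Agent.Y373.SX
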