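import Pool.Agent.Y373.SX.Stm2

/-!
# Choice of the centres
-/

set_option autoImplicit false

namespace Pool.Agent.Y373.SX

open MeasureTheory Metric Filter Topology

private lemma pick_img_le (k N : ℕ) (f : Fin (k + 1) → Fin N) : img f ≤ k + 1 := by
  rw [img]
  refine Finset.card_image_le.trans ?_
  simp

private lemma pick_count (k N M : ℕ) :
    ((Finset.univ.filter (fun f : Fin (k + 1) → Fin N => img f = M)).card : ℝ) ≤
      (N : ℝ) ^ M * ((k : ℝ) + 1) ^ (k + 1) := by
  by_cases hM : M ≤ k + 1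
  · have hsub : Finset.univ.filter (fun f : Fin (k + 1) → Fin N => img f = M) ⊆
        (Finset.powersetCard M (Finset.univ : Finset (Fin N))).biUnion
          (fun I => Fintype.piFinset (fun _ : Fin (k + 1) => I)) := by
      intro f hf
      rw [Finset.mem_filter] at hf
      rw [Finset.mem_biUnion]
      refine ⟨Finset.univ.image f, ?_, ?_⟩
      · rw [Finset.mem_powersetCard]
        exact ⟨Finset.subset_univ _, hf.2⟩
      · rw [Fintype.mem_piFinset]
        intro a
        exact Finset.mem_image_of_mem f (Finset.mem_univ a)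
    have h1 := (Finset.card_le_card hsub).trans Finset.card_biUnion_le
    have h2 : ∑ I ∈ Finset.powersetCard M (Finset.univ : Finset (Fin N)),
        (Fintype.piFinset (fun _ : Fin (k + 1) => I)).card = (N.choose M) * M ^ (k + 1) := by
      rw [Finset.sum_congr rfl (fun I hI => by
        rw [Fintype.card_piFinset_const, (Finset.mem_powersetCard.mp hI).2])]
      rw [Finset.sum_const, Finset.card_powersetCard, Finset.card_univ, Fintype.card_fin,
        smul_eq_mul]
    rw [h2] at h1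
    have h3 : (N.choose M) * M ^ (k + 1) ≤ N ^ M * (k + 1) ^ (k + 1) :=
      Nat.mul_le_mul (Nat.choose_le_pow N M) (Nat.pow_le_pow_left hM _)
    exact_mod_cast h1.trans h3
  · rw [Finset.filter_false_of_mem]
    · rw [Finset.card_empty, Nat.cast_zero]
      positivity
    · intro f _ h
      exact hM (h ▸ pick_img_le k N f)

private lemma pick_sum (k N : ℕ) (B : ℝ) (hB : 0 ≤ B) (hNB : N * B ≤ 1) :
    ∑ f ∈ Finset.univ.filter (fun f : Fin (k + 1) → Fin N => 2 ≤ img f), B ^ (img f - 1) ≤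
      k * (((k : ℝ) + 1) ^ (k + 1) * N * (N * B)) := by
  have hmaps : ∀ f ∈ Finset.univ.filter (fun f : Fin (k + 1) → Fin N => 2 ≤ img f),
      img f ∈ Finset.Icc 2 (k + 1) := by
    intro f hf
    rw [Finset.mem_filter] at hf
    exact Finset.mem_Icc.mpr ⟨hf.2, pick_img_le k N f⟩
  rw [← Finset.sum_fiberwise_of_maps_to hmaps]
  calc ∑ M ∈ Finset.Icc 2 (k + 1), ∑ f ∈ (Finset.univ.filter
        (fun f : Fin (k + 1) → Fin N => 2 ≤ img f)).filter (fun f => img f = M), B ^ (img f - 1)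
      ≤ ∑ M ∈ Finset.Icc 2 (k + 1), ((k : ℝ) + 1) ^ (k + 1) * N * (N * B) := by
        refine Finset.sum_le_sum fun M hM => ?_
        rw [Finset.mem_Icc] at hM
        calc ∑ f ∈ (Finset.univ.filter
            (fun f : Fin (k + 1) → Fin N => 2 ≤ img f)).filter (fun f => img f = M),
              B ^ (img f - 1)
            = ∑ f ∈ (Finset.univ.filter
            (fun f : Fin (k + 1) → Fin N => 2 ≤ img f)).filter (fun f => img f = M),
              B ^ (M - 1) := by
              refine Finset.sum_congr rfl fun f hf => ?_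
              rw [(Finset.mem_filter.mp hf).2]
          _ ≤ ∑ f ∈ Finset.univ.filter (fun f : Fin (k + 1) → Fin N => img f = M),
              B ^ (M - 1) := by
              refine Finset.sum_le_sum_of_subset_of_nonneg ?_ (fun _ _ _ => by positivity)
              intro f hf
              exact Finset.mem_filter.mpr ⟨Finset.mem_univ _, (Finset.mem_filter.mp hf).2⟩
          _ = ((Finset.univ.filter (fun f : Fin (k + 1) → Fin N => img f = M)).card : ℝ) *
              B ^ (M - 1) := by rw [Finset.sum_const, nsmul_eq_mul]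
          _ ≤ ((N : ℝ) ^ M * ((k : ℝ) + 1) ^ (k + 1)) * B ^ (M - 1) :=
              mul_le_mul_of_nonneg_right (pick_count k N M) (by positivity)
          _ = ((k : ℝ) + 1) ^ (k + 1) * N * (N * B) ^ (M - 1) := by
              obtain ⟨m, rfl⟩ : ∃ m, M = m + 1 := ⟨M - 1, by omega⟩
              rw [Nat.add_sub_cancel, mul_pow]
              ring
          _ ≤ ((k : ℝ) + 1) ^ (k + 1) * N * (N * B) := by
              refine mul_le_mul_of_nonneg_left ?_ (by positivity)
              exact pow_le_of_le_one (by positivity) hNB (by omega)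
    _ = _ := by
        rw [Finset.sum_const, Nat.card_Icc, nsmul_eq_mul]
        congr 2

private lemma pick_prob (h2 : S_cube) (n : ℕ) (a b : ℝ) (hab : a < b) :
    IsProbabilityMeasure (unif n a b) ∧ ∀ᵐ x ∂(unif n a b), x ∈ cube n a b := by
  obtain ⟨hm, hv⟩ := h2 n a b hab.le
  have hpos : 0 < (b - a) ^ n := pow_pos (by linarith) n
  refine ⟨⟨?_⟩, ?_⟩
  · rw [unif, Measure.smul_apply, Measure.restrict_apply_univ, hv, smul_eq_mul]
    exact ENNReal.inv_mul_cancel (by simpa using hpos) ENNReal.ofReal_ne_top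
  · rw [unif]
    exact Measure.ae_smul_measure (ae_restrict_mem hm) _

/-- the first moment argument -/
private lemma pick_exists (h2 : S_cube) (h4 : S_gauss) (h5 : S_covexp) (n k N : ℕ) (hn : 1 ≤ n)
    (hk : 1 ≤ k) (a b τ R K' K : ℝ) (hτ : 0 < τ) (hR : 0 < R) (hab : a + 2 * R < b)
    (hV : 0 ≤ V n) (hq : R ^ n * V n / (b - a) ^ n ≤ 1)
    (hK' : (∑ f ∈ Finset.univ.filter (fun f : Fin (k + 1) → Fin N => 2 ≤ img f),
      ((2 * Real.pi * Real.exp 1 / n) ^ ((n : ℝ) / 2) * (ak k / τ) ^ n /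
        (b - a) ^ n) ^ (img f - 1)) * (R ^ n * V n) +
      (b - a - 2 * R) ^ n * (1 - R ^ n * V n / (b - a) ^ n) ^ N ≤ K') (hKK : K' < K) :
    ∃ c : Fin N → E n, (∀ j, c j ∈ cube n a b) ∧
      (Set.ncard {f : Fin (k + 1) → Fin N | 2 ≤ img f ∧
          τ ^ 2 * TT (fun a => c (f a)) ≤ ((k : ℝ) + 1) * ((img f : ℝ) - 1)} : ℝ) * (R ^ n * V n) +
        (volume (cube n (a + R) (b - R) \ ⋃ i, closedBall (c i) R)).toReal ≤ K := by
  classical
  by_contra hcon
  push_neg at hcon
  have hab' : a < b := by linarith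
  obtain ⟨hP, hae⟩ := pick_prob h2 n a b hab'
  haveI := hP
  have hak : 0 ≤ ak k := by
    rw [ak]
    positivity
  have hae2 : ∀ᵐ c ∂(Measure.pi (fun _ : Fin N => unif n a b)), ∀ j, c j ∈ cube n a b := by
    rw [ae_all_iff]
    intro j
    exact (Measure.tendsto_eval_ae_ae (μ := fun _ : Fin N => unif n a b) (i := j)).eventually hae
  have hBnn : 0 ≤ (2 * Real.pi * Real.exp 1 / n) ^ ((n : ℝ) / 2) * (ak k / τ) ^ n / (b - a) ^ n := by
    have : 0 < b - a := by linarith
    have := Real.pi_pos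
    positivity
  have hK'0 : 0 ≤ K' := by
    refine le_trans ?_ hK'
    have e1 : 0 ≤ b - a - 2 * R := by linarith
    have e2 : 0 ≤ 1 - R ^ n * V n / (b - a) ^ n := by linarith
    have e3 : 0 ≤ ∑ f ∈ Finset.univ.filter (fun f : Fin (k + 1) → Fin N => 2 ≤ img f),
      ((2 * Real.pi * Real.exp 1 / n) ^ ((n : ℝ) / 2) * (ak k / τ) ^ n /
        (b - a) ^ n) ^ (img f - 1) := Finset.sum_nonneg fun f _ => pow_nonneg hBnn _
    positivity
  obtain ⟨Bad, hBad⟩ : ∃ Bad : (Fin (k + 1) → Fin N) → Set (Fin N → E n), Bad = fun f =>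
      {c | τ ^ 2 * TT (fun a => c (f a)) ≤ ((k : ℝ) + 1) * ((img f : ℝ) - 1)} := ⟨_, rfl⟩
  have hBm : ∀ f, MeasurableSet (Bad f) := by
    intro f
    rw [hBad]
    refine IsClosed.measurableSet (isClosed_le ?_ continuous_const)
    unfold TT
    fun_prop
  obtain ⟨F1, hF1⟩ : ∃ F1 : (Fin N → E n) → ENNReal, F1 = fun c =>
      (∑ f ∈ Finset.univ.filter (fun f : Fin (k + 1) → Fin N => 2 ≤ img f),
        (Bad f).indicator 1 c) * ENNReal.ofReal (R ^ n * V n) := ⟨_, rfl⟩
  have hF1m : Measurable F1 := by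
    rw [hF1]
    refine Measurable.mul_const ?_ _
    refine Finset.measurable_fun_sum _ fun f _ => ?_
    exact measurable_one.indicator (hBm f)
  have hI1 : ∫⁻ c, F1 c ∂(Measure.pi (fun _ : Fin N => unif n a b)) ≤
      ENNReal.ofReal ((∑ f ∈ Finset.univ.filter (fun f : Fin (k + 1) → Fin N => 2 ≤ img f),
      ((2 * Real.pi * Real.exp 1 / n) ^ ((n : ℝ) / 2) * (ak k / τ) ^ n /
        (b - a) ^ n) ^ (img f - 1)) * (R ^ n * V n)) := by
    rw [hF1, lintegral_mul_const _ (Finset.measurable_fun_sum _ fun f _ =>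
      measurable_one.indicator (hBm f)), lintegral_finset_sum _ (fun f _ =>
      measurable_one.indicator (hBm f))]
    rw [ENNReal.ofReal_mul (Finset.sum_nonneg fun f _ => pow_nonneg hBnn _)]
    refine mul_le_mul_left ?_ _
    rw [ENNReal.ofReal_sum_of_nonneg (fun f _ => pow_nonneg hBnn _)]
    refine Finset.sum_le_sum fun f hf => ?_
    rw [lintegral_indicator_one (hBm f), hBad]
    exact h4 n k N hn hk a b τ hab' hτ f (Finset.mem_filter.mp hf).2
  have hI2 := h5 n N hn a b R hR hab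
  have hI : ∫⁻ c, (F1 c + volume (cube n (a + R) (b - R) \ ⋃ i, closedBall (c i) R))
      ∂(Measure.pi (fun _ : Fin N => unif n a b)) ≤ ENNReal.ofReal K' := by
    rw [lintegral_add_left hF1m]
    refine (add_le_add hI1 hI2).trans ?_
    rw [← ENNReal.ofReal_add]
    · exact ENNReal.ofReal_le_ofReal hK'
    · exact mul_nonneg (Finset.sum_nonneg fun f _ => pow_nonneg hBnn _) (by positivity)
    · have e1 : 0 ≤ b - a - 2 * R := by linarith
      have e2 : 0 ≤ 1 - R ^ n * V n / (b - a) ^ n := by linarith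
      positivity
  have hlow : ENNReal.ofReal K ≤
      ∫⁻ c, (F1 c + volume (cube n (a + R) (b - R) \ ⋃ i, closedBall (c i) R))
      ∂(Measure.pi (fun _ : Fin N => unif n a b)) := by
    have h1 : ENNReal.ofReal K = ∫⁻ _c, ENNReal.ofReal K
        ∂(Measure.pi (fun _ : Fin N => unif n a b)) := by
      rw [lintegral_const, measure_univ, mul_one]
    rw [h1]
    refine lintegral_mono_ae ?_
    filter_upwards [hae2] with c hc
    have h3 := hcon c hc
    have h4 : (Set.ncard {f : Fin (k + 1) → Fin N | 2 ≤ img f ∧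
          τ ^ 2 * TT (fun a => c (f a)) ≤ ((k : ℝ) + 1) * ((img f : ℝ) - 1)} : ENNReal) =
        ∑ f ∈ Finset.univ.filter (fun f : Fin (k + 1) → Fin N => 2 ≤ img f),
          (Bad f).indicator (1 : (Fin N → E n) → ENNReal) c := by
      have e1 : {f : Fin (k + 1) → Fin N | 2 ≤ img f ∧
          τ ^ 2 * TT (fun a => c (f a)) ≤ ((k : ℝ) + 1) * ((img f : ℝ) - 1)} =
          (((Finset.univ.filter (fun f : Fin (k + 1) → Fin N => 2 ≤ img f)).filter
            (fun f => c ∈ Bad f) : Finset (Fin (k + 1) → Fin N)) : Set (Fin (k + 1) → Fin N)) := by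
        ext f
        simp [hBad]
      rw [e1, Set.ncard_coe_finset]
      simp only [Set.indicator_apply, Pi.one_apply]
      rw [Finset.sum_boole]
    calc ENNReal.ofReal K ≤ ENNReal.ofReal ((Set.ncard {f : Fin (k + 1) → Fin N | 2 ≤ img f ∧
          τ ^ 2 * TT (fun a => c (f a)) ≤ ((k : ℝ) + 1) * ((img f : ℝ) - 1)} : ℝ) *
          (R ^ n * V n) + (volume (cube n (a + R) (b - R) \ ⋃ i, closedBall (c i) R)).toReal) :=
          ENNReal.ofReal_le_ofReal h3.le
      _ = ENNReal.ofReal ((Set.ncard {f : Fin (k + 1) → Fin N | 2 ≤ img f ∧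
          τ ^ 2 * TT (fun a => c (f a)) ≤ ((k : ℝ) + 1) * ((img f : ℝ) - 1)} : ℝ) *
          (R ^ n * V n)) + ENNReal.ofReal
            (volume (cube n (a + R) (b - R) \ ⋃ i, closedBall (c i) R)).toReal :=
          ENNReal.ofReal_add (by positivity) ENNReal.toReal_nonneg
      _ ≤ F1 c + volume (cube n (a + R) (b - R) \ ⋃ i, closedBall (c i) R) := by
          refine add_le_add (le_of_eq ?_) ENNReal.ofReal_toReal_le
          rw [hF1]
          simp only
          rw [← h4, ENNReal.ofReal_mul (by positivity), ENNReal.ofReal_natCast]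
  have hfin := hlow.trans hI
  rw [ENNReal.ofReal_le_ofReal_iff hK'0] at hfin
  linarith

theorem pick (h1 : S_vol) (h2 : S_cube) (h3 : S_vlow) (h4 : S_gauss) (h5 : S_covexp) :
    S_pick := by
  intro k hk τ R hτ hR hakR
  obtain ⟨C, hC, hvlow⟩ := h3
  have hak : 0 < ak k := by
    rw [ak]
    positivity
  obtain ⟨ρ, hρ⟩ : ∃ ρ : ℝ, ρ = ak k / (τ * R) := ⟨_, rfl⟩
  have hρ0 : 0 < ρ := by
    rw [hρ]
    positivity
  have hρ1 : ρ < 1 := by
    rw [hρ, div_lt_one (by positivity)]
    exact hakR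
  have hlim := tendsto_pow_const_mul_const_pow_of_abs_lt_one 2
    (show |ρ| < 1 by rwa [abs_of_pos hρ0])
  obtain ⟨D, hD⟩ : ∃ D : ℝ, D = Real.exp R * (4 * C * (k * ((k : ℝ) + 1) ^ (k + 1))) := ⟨_, rfl⟩
  have hl1 : Tendsto (fun n : ℕ => 2 * C * ((n : ℝ) ^ 2 * ρ ^ n)) atTop (𝓝 (2 * C * 0)) :=
    hlim.const_mul _
  have hl2 : Tendsto (fun n : ℕ => Real.exp (-1) + D * ((n : ℝ) ^ 2 * ρ ^ n)) atTop
      (𝓝 (Real.exp (-1) + D * 0)) := tendsto_const_nhds.add (hlim.const_mul _)
  have hexp : Real.exp (-1) < 1 / 2 := by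
    rw [Real.exp_neg, inv_lt_comm₀ (Real.exp_pos _) (by norm_num)]
    have := Real.exp_one_gt_d9
    norm_num
    linarith
  have ev1 := hl1.eventually_lt_const (show 2 * C * 0 < (1 : ℝ) by norm_num)
  have ev2 := hl2.eventually_lt_const (show Real.exp (-1) + D * 0 < (1 / 2 : ℝ) by linarith)
  have ev3 : ∀ᶠ n : ℕ in atTop, R < n := tendsto_natCast_atTop_atTop.eventually_gt_atTop R
  filter_upwards [ev1, ev2, ev3, eventually_ge_atTop 1] with n hn1 hn2 hn3 hn
  have hnR : (1 : ℝ) ≤ n := by exact_mod_cast hn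
  obtain ⟨hVl, hVu, -⟩ := h1 n hn
  have hV0 : 0 < V n := lt_of_lt_of_le (by positivity) hVl
  obtain ⟨q, hq⟩ : ∃ q : ℝ, q = R ^ n * V n / (4 * n : ℝ) ^ n := ⟨_, rfl⟩
  have hq0 : 0 < q := by
    rw [hq]
    positivity
  have hq1 : q ≤ 1 := by
    rw [hq, div_le_one (by positivity)]
    calc R ^ n * V n ≤ R ^ n * 2 ^ n := mul_le_mul_of_nonneg_left hVu (by positivity)
      _ = (R * 2) ^ n := by rw [mul_pow]
      _ ≤ (4 * n) ^ n := pow_le_pow_left₀ (by positivity) (by linarith) _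
  obtain ⟨N, hN⟩ : ∃ N : ℕ, N = ⌈1 / q⌉₊ := ⟨_, rfl⟩
  have hN1 : 1 ≤ (N : ℝ) * q := by
    have : 1 / q ≤ (N : ℝ) := by
      rw [hN]
      exact Nat.le_ceil _
    rwa [div_le_iff₀ hq0] at this
  have hN2 : (N : ℝ) * q ≤ 2 := by
    have : (N : ℝ) < 1 / q + 1 := by
      rw [hN]
      exact Nat.ceil_lt_add_one (by positivity)
    have h := mul_le_mul_of_nonneg_right this.le hq0.le
    rw [add_mul, div_mul_cancel₀ _ hq0.ne', one_mul] at h
    linarith
  obtain ⟨W, hW⟩ : ∃ W : ℝ, W = (2 * Real.pi * Real.exp 1 / n) ^ ((n : ℝ) / 2) := ⟨_, rfl⟩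
  have hW0 : 0 < W := by
    rw [hW]
    have := Real.pi_pos
    positivity
  have hWV : W ≤ C * (n : ℝ) ^ 2 * V n := by
    rw [hW]
    exact hvlow n hn
  obtain ⟨B, hB⟩ : ∃ B : ℝ, B = W * (ak k / τ) ^ n / (4 * n : ℝ) ^ n := ⟨_, rfl⟩
  have hB0 : 0 < B := by
    rw [hB]
    positivity
  have hBq : B = q * (W / V n) * ρ ^ n := by
    rw [hB, hq, hρ, div_pow, div_pow, mul_pow]
    field_simp
    try rw [mul_pow]
  have hNB : (N : ℝ) * B ≤ 2 * C * ((n : ℝ) ^ 2 * ρ ^ n) := by
    have e1 : W / V n ≤ C * (n : ℝ) ^ 2 := by rwa [div_le_iff₀ hV0]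
    calc (N : ℝ) * B = (N * q) * ((W / V n) * ρ ^ n) := by rw [hBq]; ring
      _ ≤ 2 * ((C * (n : ℝ) ^ 2) * ρ ^ n) := by
          refine mul_le_mul hN2 ?_ (by positivity) (by norm_num)
          exact mul_le_mul_of_nonneg_right e1 (by positivity)
      _ = _ := by ring
  have hNB1 : (N : ℝ) * B ≤ 1 := hNB.trans hn1.le
  have hsum := pick_sum k N B hB0.le hNB1
  have h4n : (0 : ℝ) < 4 * n - 2 * R := by linarith
  have hratio : (4 * n : ℝ) ^ n ≤ Real.exp R * (4 * n - 2 * R) ^ n := by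
    have e1 : (4 * n : ℝ) ≤ Real.exp (R / n) * (4 * n - 2 * R) := by
      have e2 : 1 + R / n ≤ Real.exp (R / n) := by
        have := Real.add_one_le_exp (R / n)
        linarith
      have e3 : (4 * n : ℝ) ≤ (1 + R / n) * (4 * n - 2 * R) := by
        have e4 : (1 + R / n) * (4 * n - 2 * R) = 4 * n + 2 * R * (1 - R / n) := by
          field_simp
          ring
        rw [e4]
        have e5 : R / n ≤ 1 := by
          rw [div_le_one (by positivity)]
          exact hn3.le
        have : 0 ≤ 2 * R * (1 - R / n) := mul_nonneg (by positivity) (by linarith)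
        linarith
      exact e3.trans (mul_le_mul_of_nonneg_right e2 h4n.le)
    calc (4 * n : ℝ) ^ n ≤ (Real.exp (R / n) * (4 * n - 2 * R)) ^ n :=
          pow_le_pow_left₀ (by positivity) e1 _
      _ = Real.exp R * (4 * n - 2 * R) ^ n := by
          rw [mul_pow, ← Real.exp_nat_mul]
          congr 2
          field_simp
  have hcovN : (1 - q) ^ N ≤ Real.exp (-1) := by
    calc (1 - q) ^ N ≤ (Real.exp (-q)) ^ N := by
          refine pow_le_pow_left₀ (by linarith) ?_ _
          have := Real.add_one_le_exp (-q)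
          linarith
      _ = Real.exp (-(N * q)) := by
          rw [← Real.exp_nat_mul]
          congr 1
          ring
      _ ≤ Real.exp (-1) := Real.exp_le_exp.mpr (by linarith)
  have hRV : R ^ n * V n = q * (4 * n : ℝ) ^ n := by
    rw [hq]
    field_simp
  have hfin := pick_exists h2 h4 h5 n k N hn hk 2 (4 * n + 2) τ R
    ((4 * n - 2 * R) ^ n * (Real.exp (-1) + D * ((n : ℝ) ^ 2 * ρ ^ n)))
    (1 / 2 * (4 * n - 2 * R) ^ n) hτ hR (by linarith) hV0.le
  have e4 : (4 * n + 2 - 2 : ℝ) = 4 * n := by ring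
  rw [e4, ← hq, ← hW, ← hB] at hfin
  have hA : (∑ f ∈ Finset.univ.filter (fun f : Fin (k + 1) → Fin N => 2 ≤ img f),
        B ^ (img f - 1)) * (R ^ n * V n) + (4 * n - 2 * R) ^ n * (1 - q) ^ N ≤
        (4 * n - 2 * R) ^ n * (Real.exp (-1) + D * ((n : ℝ) ^ 2 * ρ ^ n)) := by
    calc (∑ f ∈ Finset.univ.filter (fun f : Fin (k + 1) → Fin N => 2 ≤ img f),
        B ^ (img f - 1)) * (R ^ n * V n) + (4 * n - 2 * R) ^ n * (1 - q) ^ N
        ≤ (k * (((k : ℝ) + 1) ^ (k + 1) * N * (N * B))) * (q * (4 * n : ℝ) ^ n) +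
          (4 * n - 2 * R) ^ n * Real.exp (-1) := by
          rw [hRV]
          refine add_le_add (mul_le_mul_of_nonneg_right hsum (by positivity))
            (mul_le_mul_of_nonneg_left hcovN (by positivity))
      _ = (k * ((k : ℝ) + 1) ^ (k + 1)) * (N * q) * ((N * B) * (4 * n : ℝ) ^ n) +
          (4 * n - 2 * R) ^ n * Real.exp (-1) := by ring
      _ ≤ (k * ((k : ℝ) + 1) ^ (k + 1)) * 2 * ((2 * C * ((n : ℝ) ^ 2 * ρ ^ n)) *
            (Real.exp R * (4 * n - 2 * R) ^ n)) +
          (4 * n - 2 * R) ^ n * Real.exp (-1) := by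
          refine add_le_add ?_ le_rfl
          refine mul_le_mul (mul_le_mul_of_nonneg_left hN2 (by positivity)) ?_ (by positivity)
            (by positivity)
          exact mul_le_mul hNB hratio (by positivity) (by positivity)
      _ = _ := by
          rw [hD]
          ring
  have hK : (4 * n - 2 * R) ^ n * (Real.exp (-1) + D * ((n : ℝ) ^ 2 * ρ ^ n)) <
      1 / 2 * (4 * n - 2 * R) ^ n := by
    rw [mul_comm (1 / 2 : ℝ)]
    exact mul_lt_mul_of_pos_left hn2 (by positivity)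
  obtain ⟨c, hc1, hc2⟩ := hfin hq1 hA hK
  exact ⟨N, c, hc1, hc2⟩

end Pool.Agent.Y373.SX
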