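import Pool.Agent.Y373.SX.Stm

/-!
Project SX: a net of a cube with few points (helper41).
-/

set_option autoImplicit false

namespace Pool.Agent.Y373.SX

open MeasureTheory Metric Filter

theorem sep_coord {n : ℕ} (x z : E n) (i : Fin n) : |x i - z i| ≤ dist x z := by
  rw [EuclideanSpace.dist_eq, ← Real.dist_eq, ← Real.sqrt_sq dist_nonneg]
  exact Real.sqrt_le_sqrt (Finset.single_le_sum (f := fun i => dist (x i) (z i) ^ 2)
    (fun i _ => sq_nonneg _) (Finset.mem_univ i))

/-- separated subsets of the cube -/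
def sep_good (n : ℕ) (A δ : ℝ) (T : Finset (E n)) : Prop :=
  (∀ x ∈ T, x ∈ cube n 0 A) ∧ ∀ x ∈ T, ∀ y ∈ T, x ≠ y → δ < dist x y

theorem sep_card (h1 : S_vol) (h2 : S_cube) (n : ℕ) (hn : 1 ≤ n) (A δ : ℝ) (hA : 0 ≤ A)
    (hδ : 0 < δ) (T : Finset (E n)) (hT : sep_good n A δ T) :
    (T.card : ℝ) * ((δ / 2) ^ n * V n) ≤ (A + δ) ^ n := by
  obtain ⟨hV1, -, hV3⟩ := h1 n hn
  have hn0 : (0 : ℝ) < n := by exact_mod_cast hn
  have hV : 0 < V n := lt_of_lt_of_le (by positivity) hV1
  have hsub : (⋃ x ∈ T, closedBall x (δ / 2)) ⊆ cube n (-(δ / 2)) (A + δ / 2) := by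
    intro w hw
    simp only [Set.mem_iUnion] at hw
    obtain ⟨x, hx, hwx⟩ := hw
    intro i
    have h3 := sep_coord w x i
    have h4 := abs_le.mp (h3.trans (mem_closedBall.mp hwx))
    have h5 := hT.1 x hx i
    constructor
    · linarith [h4.1, h5.1]
    · linarith [h4.2, h5.2]
  have hdis : (T : Set (E n)).PairwiseDisjoint (fun x => closedBall x (δ / 2)) := by
    intro x hx y hy hxy
    rw [Function.onFun, Set.disjoint_left]
    intro w hw1 hw2
    have h3 := hT.2 x hx y hy hxy
    have h4 : dist x y ≤ dist w x + dist w y := dist_triangle_left x y w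
    rw [mem_closedBall] at hw1 hw2
    linarith
  have h5 : volume (⋃ x ∈ T, closedBall x (δ / 2)) =
      ENNReal.ofReal ((T.card : ℝ) * ((δ / 2) ^ n * V n)) := by
    rw [measure_biUnion_finset hdis (fun x _ => measurableSet_closedBall),
      Finset.sum_congr rfl (fun x _ => hV3 x (δ / 2) (by positivity)), Finset.sum_const,
      nsmul_eq_mul, ENNReal.ofReal_mul (Nat.cast_nonneg _), ENNReal.ofReal_natCast]
  have h6 := measure_mono (μ := volume) hsub
  rw [h5, (h2 n (-(δ / 2)) (A + δ / 2) (by linarith)).2] at h6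
  have h7 : (A + δ / 2 - -(δ / 2)) = A + δ := by ring
  rw [h7] at h6
  exact (ENNReal.ofReal_le_ofReal_iff (by positivity)).mp h6

theorem sep (h1 : S_vol) (h2 : S_cube) : S_sep := by
  classical
  intro n hn A δ hA hδ
  have hn0 : (0 : ℝ) < n := by exact_mod_cast hn
  have hV : 0 < V n := lt_of_lt_of_le (by positivity) (h1 n hn).1
  let S : Set ℕ := {m | ∃ T : Finset (E n), sep_good n A δ T ∧ T.card = m}
  have hS0 : S.Nonempty := ⟨0, ∅, ⟨by simp, by simp⟩, rfl⟩
  have hSb : BddAbove S := by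
    refine ⟨⌈(A + δ) ^ n / ((δ / 2) ^ n * V n)⌉₊, ?_⟩
    rintro m ⟨T, hT, rfl⟩
    have h3 := sep_card h1 h2 n hn A δ hA hδ T hT
    have h4 : (T.card : ℝ) ≤ (A + δ) ^ n / ((δ / 2) ^ n * V n) := by
      rw [le_div_iff₀ (by positivity)]
      exact h3
    exact_mod_cast h4.trans (Nat.le_ceil _)
  obtain ⟨T, hT, hcard⟩ := Nat.sSup_mem hS0 hSb
  refine ⟨T, ?_, sep_card h1 h2 n hn A δ hA hδ T hT⟩
  intro z hz
  by_contra hcon
  push Not at hcon
  have hzT : z ∉ T := by
    intro h
    have := hcon z h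
    rw [dist_self] at this
    linarith
  have hgood : sep_good n A δ (insert z T) := by
    refine ⟨?_, ?_⟩
    · intro x hx
      rcases Finset.mem_insert.mp hx with rfl | hx
      · exact hz
      · exact hT.1 x hx
    · intro x hx y hy hxy
      rcases Finset.mem_insert.mp hx with rfl | hx'
      · rcases Finset.mem_insert.mp hy with rfl | hy'
        · exact absurd rfl hxy
        · exact hcon y hy'
      · rcases Finset.mem_insert.mp hy with rfl | hy'
        · rw [dist_comm]
          exact hcon x hx'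
        · exact hT.2 x hx' y hy' hxy
  have h5 : (insert z T).card ≤ sSup S := le_csSup hSb ⟨_, hgood, rfl⟩
  rw [Finset.card_insert_of_notMem hzT, ← hcard] at h5
  omega

end Pool.Agent.Y373.SX
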