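import Pool.Agent.Y373.SX.Stm

/-! Averaging over the translates modulo a lattice. -/

set_option autoImplicit false

namespace Pool.Agent.Y373.SX

open MeasureTheory Metric Filter

/-- the half open cube -/
def shift_D (n : ℕ) (A : ℝ) : Set (E n) := {x | ∀ i, 0 ≤ x i ∧ x i < A}

theorem shift_Dmeas (n : ℕ) (A : ℝ) : MeasurableSet (shift_D n A) := by
  have e : shift_D n A = ⋂ i, ((fun x : E n => x i) ⁻¹' Set.Ico 0 A) := by
    ext x
    simp [shift_D]
  rw [e]
  refine MeasurableSet.iInter fun i => ?_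
  have hm : Measurable fun x : E n => x i := by fun_prop
  exact hm measurableSet_Ico

theorem shift_lat (n : ℕ) (A : ℝ) (w : Fin n → ℤ) (i : Fin n) : lat n A w i = A * w i := rfl

/-- the translates which cover `y` -/
def shift_T (n : ℕ) (A : ℝ) (S : Set (E n)) (y : E n) : Set (E n) :=
  {v | ∃ w : Fin n → ℤ, y - v - lat n A w ∈ S}

theorem shift_Tmeas {n : ℕ} {A : ℝ} {S : Set (E n)} (hS : MeasurableSet S) (y : E n) :
    MeasurableSet (shift_T n A S y) := by
  have e : shift_T n A S y = ⋃ w : Fin n → ℤ, (fun v : E n => y - v - lat n A w) ⁻¹' S := by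
    ext v
    simp [shift_T]
  rw [e]
  refine MeasurableSet.iUnion fun w => ?_
  have hm : Measurable fun v : E n => y - v - lat n A w := by fun_prop
  exact hm hS

theorem shift_vol {n : ℕ} {A : ℝ} (hA : 0 < A) {S : Set (E n)} (hS : MeasurableSet S)
    (hSD : S ⊆ shift_D n A) (y : E n) :
    volume S ≤ volume (shift_T n A S y ∩ shift_D n A) := by
  obtain ⟨C, hC⟩ : ∃ C : (Fin n → ℤ) → Set (E n),
    C = fun w => S ∩ (fun s : E n => y - lat n A w - s) ⁻¹' (shift_D n A) := ⟨_, rfl⟩
  obtain ⟨B, hB⟩ : ∃ B : (Fin n → ℤ) → Set (E n),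
    B = fun w => shift_D n A ∩ (fun v : E n => y - v - lat n A w) ⁻¹' S := ⟨_, rfl⟩
  have hCm : ∀ w, MeasurableSet (C w) := by
    intro w
    rw [hC]
    have hm : Measurable fun s : E n => y - lat n A w - s := by fun_prop
    exact hS.inter (hm (shift_Dmeas n A))
  have hBm : ∀ w, MeasurableSet (B w) := by
    intro w
    rw [hB]
    have hm : Measurable fun v : E n => y - v - lat n A w := by fun_prop
    exact (shift_Dmeas n A).inter (hm hS)
  have hBC : ∀ w, volume (B w) = volume (C w) := by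
    intro w
    have h1 := (Measure.measurePreserving_sub_left (volume : Measure (E n)) (y - lat n A w)).measure_preimage
      (hCm w).nullMeasurableSet
    rw [← h1]
    congr 1
    ext v
    rw [hB, hC]
    simp only [Set.mem_inter_iff, Set.mem_preimage]
    rw [sub_sub_cancel, sub_right_comm y v]
    tauto
  have hCS : S ⊆ ⋃ w, C w := by
    intro s hs
    rw [Set.mem_iUnion]
    refine ⟨fun i => ⌊(y i - s i) / A⌋, ?_⟩
    rw [hC]
    refine ⟨hs, fun i => ?_⟩
    have e : (y - lat n A (fun i => ⌊(y i - s i) / A⌋) - s) i =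
        A * ((y i - s i) / A - ⌊(y i - s i) / A⌋) := by
      show y i - A * (⌊(y i - s i) / A⌋ : ℝ) - s i = _
      field_simp
      ring
    show 0 ≤ (y - lat n A (fun i => ⌊(y i - s i) / A⌋) - s) i ∧
      (y - lat n A (fun i => ⌊(y i - s i) / A⌋) - s) i < A
    rw [e]
    have h1 := Int.floor_le ((y i - s i) / A)
    have h2 := Int.lt_floor_add_one ((y i - s i) / A)
    constructor
    · exact mul_nonneg hA.le (by linarith)
    · nlinarith
  have hdis : Pairwise (Function.onFun Disjoint B) := by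
    intro w w' hne
    rw [Function.onFun, Set.disjoint_left]
    intro v hv hv'
    apply hne
    rw [hB] at hv hv'
    funext i
    have h1 := hSD hv.2 i
    have h2 := hSD hv'.2 i
    have e1 : (y - v - lat n A w) i = y i - v i - A * w i := rfl
    have e2 : (y - v - lat n A w') i = y i - v i - A * w' i := rfl
    rw [e1] at h1
    rw [e2] at h2
    have h3 : A * ((w i : ℝ) - w' i) < A * 1 := by linarith [h1.1, h2.2]
    have h4 : A * ((w' i : ℝ) - w i) < A * 1 := by linarith [h2.1, h1.2]
    have h5 := lt_of_mul_lt_mul_left h3 hA.le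
    have h6 := lt_of_mul_lt_mul_left h4 hA.le
    have h7 : w i - w' i < 1 := by exact_mod_cast h5
    have h8 : w' i - w i < 1 := by exact_mod_cast h6
    omega
  calc volume S ≤ volume (⋃ w, C w) := measure_mono hCS
    _ ≤ ∑' w, volume (C w) := measure_iUnion_le _
    _ = ∑' w, volume (B w) := by simp only [hBC]
    _ = volume (⋃ w, B w) := (measure_iUnion hdis hBm).symm
    _ ≤ volume (shift_T n A S y ∩ shift_D n A) := by
      refine measure_mono ?_
      rw [Set.iUnion_subset_iff]
      intro w v hv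
      rw [hB] at hv
      exact ⟨⟨w, hv.2⟩, hv.1⟩

theorem shift (h : S_cube) : S_shift := by
  classical
  intro n hn A p hA S hS hSD hp hvol Y
  by_contra hcon
  push Not at hcon
  have hAn : 0 < A ^ n := pow_pos hA n
  obtain ⟨cnt, hcnt⟩ : ∃ cnt : E n → ℕ, cnt = fun v =>
    Set.ncard {y : E n | y ∈ Y ∧ ∃ w : Fin n → ℤ, y - v - lat n A w ∈ S} := ⟨_, rfl⟩
  have hc1 : ∀ v, (cnt v : ℝ) < p * Y.card := by
    intro v
    rw [hcnt]
    exact hcon v
  have hpos : 0 < p * (Y.card : ℝ) := (Nat.cast_nonneg (cnt 0)).trans_lt (hc1 0)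
  obtain ⟨K, hK⟩ : ∃ K : ℕ, ⌈p * (Y.card : ℝ)⌉₊ = K + 1 :=
    ⟨⌈p * (Y.card : ℝ)⌉₊ - 1, by have := Nat.ceil_pos.2 hpos; omega⟩
  have hK1 : (K : ℝ) < p * Y.card := by
    have h1 : K < ⌈p * (Y.card : ℝ)⌉₊ := by omega
    exact Nat.lt_ceil.1 h1
  have hc2 : ∀ v, cnt v ≤ K := by
    intro v
    have h1 : cnt v < ⌈p * (Y.card : ℝ)⌉₊ := Nat.lt_ceil.2 (hc1 v)
    omega
  have hDvol : volume (shift_D n A) ≤ ENNReal.ofReal (A ^ n) := by
    have h1 := (h n 0 A hA.le).2
    rw [sub_zero] at h1
    rw [← h1]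
    exact measure_mono fun x hx i => ⟨(hx i).1, (hx i).2.le⟩
  have hce : ∀ v, (cnt v : ENNReal) =
      ∑ y ∈ Y, (shift_T n A S y).indicator (1 : E n → ENNReal) v := by
    intro v
    have e : cnt v = (Y.filter fun y => v ∈ shift_T n A S y).card := by
      rw [hcnt, ← Set.ncard_coe_finset]
      simp only
      congr 1
      ext y
      rw [Finset.mem_coe, Finset.mem_filter]
      exact Iff.rfl
    rw [e, Finset.card_filter]
    push_cast
    refine Finset.sum_congr rfl fun y _ => ?_
    rw [Set.indicator_apply]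
    rfl
  have key : (Y.card : ENNReal) * ENNReal.ofReal (p * A ^ n) ≤
      (K : ENNReal) * ENNReal.ofReal (A ^ n) := by
    calc (Y.card : ENNReal) * ENNReal.ofReal (p * A ^ n) =
        ∑ _y ∈ Y, ENNReal.ofReal (p * A ^ n) := by rw [Finset.sum_const, nsmul_eq_mul]
      _ ≤ ∑ y ∈ Y, volume (shift_T n A S y ∩ shift_D n A) :=
          Finset.sum_le_sum fun y _ => hvol.trans (shift_vol hA hS hSD y)
      _ = ∑ y ∈ Y, ∫⁻ v in shift_D n A, (shift_T n A S y).indicator (1 : E n → ENNReal) v := by
          refine Finset.sum_congr rfl fun y _ => ?_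
          rw [lintegral_indicator_one (shift_Tmeas hS y),
            Measure.restrict_apply (shift_Tmeas hS y)]
      _ = ∫⁻ v in shift_D n A, ∑ y ∈ Y, (shift_T n A S y).indicator (1 : E n → ENNReal) v :=
          (lintegral_finsetSum _ fun y _ => measurable_one.indicator (shift_Tmeas hS y)).symm
      _ ≤ ∫⁻ _ in shift_D n A, (K : ENNReal) := by
          refine lintegral_mono fun v => ?_
          show ∑ y ∈ Y, (shift_T n A S y).indicator (1 : E n → ENNReal) v ≤ K
          rw [← hce]
          exact_mod_cast hc2 v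
      _ = (K : ENNReal) * volume (shift_D n A) := by rw [setLIntegral_const]
      _ ≤ _ := by gcongr
  have h2 := ENNReal.toReal_mono (ENNReal.mul_ne_top (ENNReal.natCast_ne_top K)
    ENNReal.ofReal_ne_top) key
  rw [ENNReal.toReal_mul, ENNReal.toReal_mul, ENNReal.toReal_natCast, ENNReal.toReal_natCast,
    ENNReal.toReal_ofReal (by positivity), ENNReal.toReal_ofReal (by positivity), ← mul_assoc] at h2
  have h3 := le_of_mul_le_mul_right h2 hAn
  linarith

end Pool.Agent.Y373.SX
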