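import Pool.Agent.Y373.SX.Stm

/-!
Project SX (helper373), part SIMP (helper980): two facts on unit simplices.
-/

set_option autoImplicit false

namespace Pool.Agent.Y373.SX

open MeasureTheory Metric Filter

lemma simp_one {n : ℕ} {ι : Type} (T : Finset ι) (u : ι → E n) (a : E n) :
    ∑ j ∈ T, ‖u j - a‖ ^ 2 =
      ∑ j ∈ T, ‖u j‖ ^ 2 - 2 * inner ℝ (∑ j ∈ T, u j) a + T.card * ‖a‖ ^ 2 := by
  simp only [norm_sub_sq_real, Finset.sum_add_distrib, Finset.sum_sub_distrib, sum_inner,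
    ← Finset.mul_sum, Finset.sum_const, nsmul_eq_mul]

lemma simp_two {n : ℕ} {ι : Type} (T : Finset ι) (u : ι → E n) :
    ∑ i ∈ T, ∑ j ∈ T, ‖u j - u i‖ ^ 2 =
      2 * T.card * ∑ i ∈ T, ‖u i‖ ^ 2 - 2 * ‖∑ i ∈ T, u i‖ ^ 2 := by
  simp only [simp_one, Finset.sum_add_distrib, Finset.sum_sub_distrib, Finset.sum_const,
    nsmul_eq_mul, ← Finset.mul_sum, ← inner_sum]
  rw [real_inner_self_eq_norm_sq]
  ring

lemma simp_dist {n k : ℕ} (x : Fin (k + 1) → E n) (h : ∀ i j, i ≠ j → dist (x i) (x j) = 1)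
    (T : Finset (Fin (k + 1))) (i : Fin (k + 1)) (hi : i ∈ T) (c : E n) :
    ∑ j ∈ T, ‖(x j - c) - (x i - c)‖ ^ 2 = T.card - 1 := by
  classical
  have h1 : ∀ j ∈ T, ‖(x j - c) - (x i - c)‖ ^ 2 = if j = i then (0 : ℝ) else 1 := by
    intro j _
    rw [sub_sub_sub_cancel_right, ← dist_eq_norm]
    split_ifs with hij
    · rw [hij, dist_self]
      norm_num
    · rw [h j i hij]
      norm_num
  rw [Finset.sum_congr rfl h1]
  have h2 : ∀ j ∈ T, (if j = i then (0 : ℝ) else 1) = 1 - if j = i then (1 : ℝ) else 0 := by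
    intro j _
    split_ifs <;> norm_num
  rw [Finset.sum_congr rfl h2, Finset.sum_sub_distrib, Finset.sum_ite_eq' T i, if_pos hi]
  simp

theorem simp_facts : S_simp := by
  intro n k x h
  constructor
  · set K : ℝ := ((k : ℝ) + 1) with hK
    have hK0 : 0 < K := by positivity
    set z : E n := K⁻¹ • ∑ i, x i with hz
    have hcard : ((Finset.univ : Finset (Fin (k + 1))).card : ℝ) = K := by
      rw [Finset.card_univ, Fintype.card_fin]
      push_cast
      rfl
    have hsum : ∑ i, (x i - z) = 0 := by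
      rw [Finset.sum_sub_distrib, Finset.sum_const, ← Nat.cast_smul_eq_nsmul ℝ, hcard, hz,
        smul_inv_smul₀ hK0.ne', sub_self]
    have h2 := simp_two Finset.univ (fun i => x i - z)
    have h3 : ∑ i, ∑ j, ‖(x j - z) - (x i - z)‖ ^ 2 = K * (K - 1) := by
      rw [Finset.sum_congr rfl fun i _ => simp_dist x h Finset.univ i (Finset.mem_univ i) z]
      rw [Finset.sum_const, nsmul_eq_mul, hcard]
    rw [h3, hcard, hsum, norm_zero] at h2
    refine ⟨z, fun l => ?_⟩
    have h4 := simp_one Finset.univ (fun i => x i - z) (x l - z)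
    rw [simp_dist x h Finset.univ l (Finset.mem_univ l) z, hsum, inner_zero_left, hcard] at h4
    rw [dist_eq_norm]
    refine Real.le_sqrt_of_sq_le ?_
    have h5 : ∑ i, ‖x i - z‖ ^ 2 = (K - 1) / 2 := by
      have : K * (K - 1) = K * (2 * ∑ i, ‖x i - z‖ ^ 2) := by linarith
      have := mul_left_cancel₀ hK0.ne' this
      linarith
    rw [h5] at h4
    have h6 : K * ‖x l - z‖ ^ 2 = K * (1 / 2) - 1 / 2 := by linarith
    have h7 : K * ‖x l - z‖ ^ 2 ≤ K * (1 / 2) := by linarith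
    exact le_of_mul_le_mul_left h7 hK0
  · intro T c r hr hT
    rcases T.eq_empty_or_nonempty with hT0 | hT0
    · subst hT0
      simp
    have hs : (0 : ℝ) < T.card := by exact_mod_cast hT0.card_pos
    have h2 := simp_two T (fun i => x i - c)
    have h3 : ∑ i ∈ T, ∑ j ∈ T, ‖(x j - c) - (x i - c)‖ ^ 2 = T.card * (T.card - 1) := by
      rw [Finset.sum_congr rfl fun i hi => simp_dist x h T i hi c]
      rw [Finset.sum_const, nsmul_eq_mul]
    rw [h3] at h2
    have h4 : ∑ i ∈ T, ‖x i - c‖ ^ 2 ≤ T.card * r ^ 2 := by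
      rw [← nsmul_eq_mul]
      refine Finset.sum_le_card_nsmul _ _ _ fun i hi => ?_
      refine pow_le_pow_left₀ (norm_nonneg _) ?_ 2
      rw [← dist_eq_norm]
      exact hT i hi
    have h5 : (T.card : ℝ) * (T.card - 1) ≤ T.card * (2 * (T.card * r ^ 2)) := by
      have h6 : 0 ≤ ‖∑ i ∈ T, (x i - c)‖ ^ 2 := sq_nonneg _
      have h7 := mul_le_mul_of_nonneg_left h4 hs.le
      linarith
    have h8 := le_of_mul_le_mul_left h5 hs
    linarith

end Pool.Agent.Y373.SX
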