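import Pool.Agent.Y373.SX.Stm2

/-!
# A lower bound for the volume of the unit ball
-/

set_option autoImplicit false

namespace Pool.Agent.Y373.SX

open MeasureTheory Metric Filter

private lemma vlow_V (n : ℕ) (hn : 1 ≤ n) :
    V n = √Real.pi ^ n / Real.Gamma ((n : ℝ) / 2 + 1) := by
  haveI : Nonempty (Fin n) := ⟨⟨0, by omega⟩⟩
  have hG : 0 < Real.Gamma ((n : ℝ) / 2 + 1) := Real.Gamma_pos_of_pos (by positivity)
  rw [V, EuclideanSpace.volume_closedBall]
  simp only [Fintype.card_fin, ENNReal.ofReal_one, one_pow, one_mul]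
  rw [ENNReal.toReal_ofReal (by positivity)]

private noncomputable def vlow_B (x : ℝ) : ℝ :=
  1 + 2 * Real.log x + x / 2 * (Real.log x - Real.log 2 - 1)

private lemma vlow_gamma (n : ℕ) (hn : 1 ≤ n) :
    Real.log (Real.Gamma ((n : ℝ) / 2 + 1)) ≤ vlow_B n := by
  induction n using Nat.strong_induction_on with
  | _ n ih =>
    rcases (show n = 1 ∨ n = 2 ∨ 3 ≤ n by omega) with rfl | rfl | h3
    · have e1 : Real.Gamma (((1 : ℕ) : ℝ) / 2 + 1) = √Real.pi / 2 := by
        have := Real.Gamma_add_one (s := 1 / 2) (by norm_num)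
        rw [Real.Gamma_one_half_eq] at this
        push_cast
        rw [this]
        ring
      have e2 : √Real.pi ≤ 2 := by
        rw [Real.sqrt_le_left (by norm_num)]
        have := Real.pi_le_four
        linarith
      have e3 : Real.log (√Real.pi / 2) ≤ 0 := Real.log_nonpos (by positivity) (by linarith)
      rw [e1]
      refine e3.trans ?_
      have e4 : Real.log 2 ≤ 1 := by
        have := Real.log_two_lt_d9
        linarith
      simp only [vlow_B, Nat.cast_one, Real.log_one]
      linarith
    · have e1 : Real.Gamma (((2 : ℕ) : ℝ) / 2 + 1) = 1 := by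
        push_cast
        rw [show ((2 : ℝ) / 2 + 1) = 2 by norm_num, Real.Gamma_two]
      rw [e1, Real.log_one, vlow_B]
      push_cast
      have e4 : 0 ≤ Real.log 2 := Real.log_nonneg (by norm_num)
      linarith
    · obtain ⟨m, rfl⟩ : ∃ m, n = m + 2 := ⟨n - 2, by omega⟩
      have hm : 1 ≤ m := by omega
      have hmR : (1 : ℝ) ≤ m := by exact_mod_cast hm
      have h0 := ih m (by omega) hm
      have e1 : Real.Gamma (((m + 2 : ℕ) : ℝ) / 2 + 1) =
          ((m : ℝ) / 2 + 1) * Real.Gamma ((m : ℝ) / 2 + 1) := by
        rw [← Real.Gamma_add_one (by positivity)]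
        congr 1
        push_cast
        ring
      have hG : 0 < Real.Gamma ((m : ℝ) / 2 + 1) := Real.Gamma_pos_of_pos (by positivity)
      rw [e1, Real.log_mul (by positivity) hG.ne']
      have e2 : Real.log ((m : ℝ) / 2 + 1) = Real.log (m + 2) - Real.log 2 := by
        rw [← Real.log_div (by positivity) (by norm_num)]
        congr 1
        ring
      have e3 : 2 / ((m : ℝ) + 2) ≤ Real.log (m + 2) - Real.log m := by
        rw [← Real.log_div (by positivity) (by positivity)]
        have := Real.one_sub_inv_le_log_of_pos (x := ((m : ℝ) + 2) / m) (by positivity)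
        refine le_trans (le_of_eq ?_) this
        field_simp
        ring
      have e4 : 1 ≤ ((m : ℝ) + 2) / 2 * (Real.log (m + 2) - Real.log m) := by
        have : 1 = ((m : ℝ) + 2) / 2 * (2 / ((m : ℝ) + 2)) := by field_simp
        rw [this]
        exact mul_le_mul_of_nonneg_left e3 (by positivity)
      have e5 : 0 ≤ Real.log (m + 2) - Real.log m := le_trans (by positivity) e3
      rw [e2]
      simp only [vlow_B] at h0 ⊢
      push_cast
      nlinarith [h0, e4, e5]

theorem vlow : S_vlow := by
  refine ⟨Real.exp 1, Real.exp_pos _, fun n hn => ?_⟩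
  have hnR : (1 : ℝ) ≤ n := by exact_mod_cast hn
  have hG : 0 < Real.Gamma ((n : ℝ) / 2 + 1) := Real.Gamma_pos_of_pos (by positivity)
  have hπ := Real.pi_pos
  rw [vlow_V n hn]
  have h1 := vlow_gamma n hn
  have hL : 0 < (2 * Real.pi * Real.exp 1 / n) ^ ((n : ℝ) / 2) := by positivity
  have hR : 0 < Real.exp 1 * (n : ℝ) ^ 2 * (√Real.pi ^ n / Real.Gamma ((n : ℝ) / 2 + 1)) := by
    positivity
  rw [← Real.log_le_log_iff hL hR, Real.log_rpow (by positivity),
    Real.log_div (by positivity) (by positivity), Real.log_mul (by positivity) (by positivity),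
    Real.log_mul (by positivity) (by positivity), Real.log_exp,
    Real.log_mul (by positivity) (by positivity), Real.log_mul (by positivity) (by positivity),
    Real.log_exp, Real.log_div (by positivity) hG.ne', Real.log_pow, Real.log_pow,
    Real.log_sqrt hπ.le]
  simp only [vlow_B] at h1
  push_cast
  nlinarith [h1]

end Pool.Agent.Y373.SX
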