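import Pool.Agent.Y373.SX.Stm

/-!
Project SX (helper373), part VOL (helper980): volumes of balls and cubes.
-/

set_option autoImplicit false

namespace Pool.Agent.Y373.SX

open MeasureTheory Metric Filter

theorem cubes : S_cube := by
  intro n a b hab
  have h1 : cube n a b =
      (@WithLp.ofLp 2 (Fin n → ℝ)) ⁻¹' Set.Icc (fun _ => a) (fun _ => b) := by
    ext x
    simp only [cube, Set.mem_setOf_eq, Set.mem_preimage, Set.mem_Icc, Pi.le_def]
    exact ⟨fun h => ⟨fun i => (h i).1, fun i => (h i).2⟩, fun h i => ⟨h.1 i, h.2 i⟩⟩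
  have hmp := PiLp.volume_preserving_ofLp (Fin n)
  have hms : MeasurableSet (Set.Icc (fun _ : Fin n => a) (fun _ => b)) := measurableSet_Icc
  refine ⟨h1 ▸ hmp.measurable hms, ?_⟩
  rw [h1, hmp.measure_preimage hms.nullMeasurableSet, Real.volume_Icc_pi]
  rw [Finset.prod_const, Finset.card_univ, Fintype.card_fin,
    ENNReal.ofReal_pow (by linarith)]

theorem vol : S_vol := by
  intro n hn
  have hn0 : (0 : ℝ) < n := by exact_mod_cast hn
  have hfin : volume (closedBall (0 : E n) 1) ≠ ⊤ := measure_closedBall_lt_top.ne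
  refine ⟨?_, ?_, ?_⟩
  · have hsub : cube n (-(1 / (n : ℝ))) (1 / n) ⊆ closedBall (0 : E n) 1 := by
      intro x hx
      rw [mem_closedBall, dist_zero_right, EuclideanSpace.norm_eq]
      rw [Real.sqrt_le_one]
      have h1 : ∀ i, ‖x i‖ ^ 2 ≤ 1 / (n : ℝ) := by
        intro i
        have h2 : ‖x i‖ ≤ 1 / (n : ℝ) := by
          rw [Real.norm_eq_abs]
          exact abs_le.mpr (hx i)
        have h3 : (1 / (n : ℝ)) ≤ 1 := by
          rw [div_le_one hn0]
          exact_mod_cast hn
        calc ‖x i‖ ^ 2 ≤ (1 / (n : ℝ)) ^ 2 := pow_le_pow_left₀ (norm_nonneg _) h2 2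
          _ = 1 / (n : ℝ) * (1 / (n : ℝ)) := sq _
          _ ≤ 1 / (n : ℝ) * 1 := mul_le_mul_of_nonneg_left h3 (by positivity)
          _ = 1 / (n : ℝ) := mul_one _
      calc ∑ i, ‖x i‖ ^ 2 ≤ ∑ _i : Fin n, 1 / (n : ℝ) := Finset.sum_le_sum fun i _ => h1 i
        _ = 1 := by
          rw [Finset.sum_const, Finset.card_univ, Fintype.card_fin, nsmul_eq_mul]
          field_simp
    have h2 := measure_mono (μ := volume) hsub
    have hle : -(1 / (n : ℝ)) ≤ 1 / n := by
      have : 0 < 1 / (n : ℝ) := by positivity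
      linarith
    rw [(cubes n _ _ hle).2] at h2
    have h3 := ENNReal.toReal_mono hfin h2
    have h4 : (0 : ℝ) ≤ (1 / (n : ℝ) - -(1 / n)) ^ n := pow_nonneg (by linarith) _
    rw [ENNReal.toReal_ofReal h4] at h3
    refine le_trans ?_ h3
    refine pow_le_pow_left₀ (by positivity) ?_ n
    have : 0 < 1 / (n : ℝ) := by positivity
    linarith
  · have hsub : closedBall (0 : E n) 1 ⊆ cube n (-1) 1 := by
      intro x hx i
      rw [mem_closedBall, dist_zero_right] at hx
      have h1 : ‖x i‖ ≤ 1 := (PiLp.norm_apply_le x i).trans hx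
      rw [Real.norm_eq_abs] at h1
      exact abs_le.mp h1
    have h2 := measure_mono (μ := volume) hsub
    rw [(cubes n _ _ (by norm_num)).2] at h2
    have h3 := ENNReal.toReal_mono ENNReal.ofReal_ne_top h2
    rw [ENNReal.toReal_ofReal (by positivity)] at h3
    refine h3.trans (le_of_eq ?_)
    norm_num
  · intro x R hR
    rw [Measure.addHaar_closedBall' _ _ hR, finrank_euclideanSpace_fin,
      ENNReal.ofReal_mul (by positivity), V, ENNReal.ofReal_toReal hfin]

end Pool.Agent.Y373.SX
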