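import Pool.Agent.Y373.SX.Stm2

/-!
Project SX part 2 (helper373), part VOR (helper980): separation and volume of the cells.
-/

set_option autoImplicit false

namespace Pool.Agent.Y373.SX

open MeasureTheory Metric Filter

lemma vor_side {n : ℕ} (u a : E n) (h : ‖u‖ ≤ ‖u + a‖) : -(‖a‖ ^ 2 / 2) ≤ inner ℝ u a := by
  have h1 : ‖u‖ ^ 2 ≤ ‖u + a‖ ^ 2 := pow_le_pow_left₀ (norm_nonneg _) h 2
  rw [norm_add_sq_real] at h1
  linarith

theorem vor1 : S_vor1 := by
  rintro n N c R t ht i j x x' ⟨w, hx, -, hw⟩ ⟨w', hx', -, hw'⟩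
  have h1 := vor_side (w - c i) (c i - c j) (by
    rw [sub_add_sub_cancel, ← dist_eq_norm, ← dist_eq_norm]
    exact hw j)
  have h2 := vor_side (w' - c j) (c j - c i) (by
    rw [sub_add_sub_cancel, ← dist_eq_norm, ← dist_eq_norm]
    exact hw' i)
  have h3 : ‖c j - c i‖ = ‖c i - c j‖ := norm_sub_rev _ _
  have h4 : inner ℝ (w' - c j) (c j - c i) = -inner ℝ (w' - c j) (c i - c j) := by
    rw [← inner_neg_right, neg_sub]
  rw [h3, h4] at h2
  have h5 : x - x' = (c i - c j) + t • (w - c i) - t • (w' - c j) := by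
    rw [hx, hx']
    module
  rw [h5, inner_sub_left, inner_add_left, real_inner_self_eq_norm_sq, real_inner_smul_left,
    real_inner_smul_left]
  nlinarith [mul_le_mul_of_nonneg_left h1 ht, mul_le_mul_of_nonneg_left h2 ht]

/-- the Voronoi cell, cut at radius `R` -/
def vor_W (n N : ℕ) (c : Fin N → E n) (R : ℝ) (i : Fin N) : Set (E n) :=
  {w | dist w (c i) ≤ R ∧ ∀ j, dist w (c i) ≤ dist w (c j)}

lemma vor_compact (n N : ℕ) (c : Fin N → E n) (R : ℝ) (i : Fin N) :
    IsCompact (vor_W n N c R i) := by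
  refine (isCompact_closedBall (c i) R).of_isClosed_subset ?_ ?_
  · have : vor_W n N c R i = closedBall (c i) R ∩ ⋂ j, {w | dist w (c i) ≤ dist w (c j)} := by
      ext w
      simp [vor_W]
    rw [this]
    refine isClosed_closedBall.inter (isClosed_iInter fun j => ?_)
    exact isClosed_le (by fun_prop) (by fun_prop)
  · intro w hw
    exact hw.1

lemma vor_cell (n N : ℕ) (c : Fin N → E n) (R t : ℝ) (i : Fin N) :
    Cell n N c R t i = AffineMap.homothety (c i) t '' vor_W n N c R i := by
  ext x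
  constructor
  · rintro ⟨w, hx, h1, h2⟩
    refine ⟨w, ⟨h1, h2⟩, ?_⟩
    rw [AffineMap.homothety_apply, hx]
    simp [add_comm]
  · rintro ⟨w, ⟨h1, h2⟩, rfl⟩
    refine ⟨w, ?_, h1, h2⟩
    rw [AffineMap.homothety_apply]
    simp [add_comm]

theorem vor2 (h0 : S_vol) (h : S_vor1) : S_vor2 := by
  intro n N hn c R t hc hR ht0 ht1
  have hmeas : ∀ i, MeasurableSet (Cell n N c R t i) := by
    intro i
    rw [vor_cell]
    exact ((vor_compact n N c R i).image (AffineMap.homothety_continuous (c i) t)).measurableSet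
  refine ⟨MeasurableSet.iUnion hmeas, ?_⟩
  have hdisj : Pairwise (Function.onFun Disjoint (Cell n N c R t)) := by
    intro i j hij
    rw [Function.onFun, Set.disjoint_left]
    intro x hxi hxj
    have h1 := h n N c R t ht0.le i j x x hxi hxj
    rw [sub_self, inner_zero_left] at h1
    have h2 : 0 < ‖c i - c j‖ := norm_pos_iff.mpr (sub_ne_zero.mpr fun hh => hij (hc hh))
    have h3 : 0 < (1 - t) * ‖c i - c j‖ ^ 2 := by
      have : 0 < 1 - t := by linarith
      positivity
    linarith
  have hvol : ∀ i, volume (Cell n N c R t i) = ENNReal.ofReal (t ^ n) * volume (vor_W n N c R i) := by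
    intro i
    rw [vor_cell, Measure.addHaar_image_homothety, finrank_euclideanSpace_fin,
      abs_of_nonneg (by positivity)]
  rw [measure_iUnion hdisj hmeas, tsum_fintype]
  simp only [hvol]
  rw [← Finset.mul_sum]
  gcongr
  have hsub : (⋃ i, closedBall (c i) R) ⊆ ⋃ i, vor_W n N c R i := by
    intro x hx
    rw [Set.mem_iUnion] at hx ⊢
    obtain ⟨i, hi⟩ := hx
    haveI : Nonempty (Fin N) := ⟨i⟩
    obtain ⟨j, hj⟩ := Finite.exists_min fun j => dist x (c j)
    exact ⟨j, (hj i).trans (mem_closedBall.mp hi), hj⟩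
  exact (measure_mono hsub).trans (measure_iUnion_fintype_le _ _)

end Pool.Agent.Y373.SX
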