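import Pool.Agent.Y373.SX.Stm

/-!
Project SX: the choice of the centres (helper41).
-/

set_option autoImplicit false

namespace Pool.Agent.Y373.SX

open MeasureTheory Metric Filter

theorem cent_coord {n : ℕ} (x z : E n) (i : Fin n) : |x i - z i| ≤ dist x z := by
  rw [EuclideanSpace.dist_eq, ← Real.dist_eq, ← Real.sqrt_sq dist_nonneg]
  exact Real.sqrt_le_sqrt (Finset.single_le_sum (f := fun i => dist (x i) (z i) ^ 2)
    (fun i _ => sq_nonneg _) (Finset.mem_univ i))

theorem centers (h1 : S_vol) (h2 : S_sep) (h3 : S_first) (h4 : S_del) : S_centers := by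
  intro R κ δ hR hR2 hκ hκ1 hδ hδ1
  have hRδ : 0 < R + δ := by linarith
  -- choice of m
  obtain ⟨m, hm1, hm⟩ : ∃ m : ℕ, 1 ≤ m ∧ 6 * (R + δ) / δ * κ ^ m ≤ 1 / 4 := by
    have hc : 0 < 6 * (R + δ) / δ := by positivity
    obtain ⟨m, hm⟩ := exists_pow_lt_of_lt_one (show 0 < 1 / 4 / (6 * (R + δ) / δ) by positivity)
      hκ1
    refine ⟨m + 1, Nat.le_add_left 1 m, ?_⟩
    have h5 : κ ^ (m + 1) ≤ κ ^ m := pow_le_pow_of_le_one hκ.le hκ1.le (Nat.le_succ m)
    calc 6 * (R + δ) / δ * κ ^ (m + 1) ≤ 6 * (R + δ) / δ * (1 / 4 / (6 * (R + δ) / δ)) :=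
          mul_le_mul_of_nonneg_left (h5.trans hm.le) hc.le
      _ = 1 / 4 := by field_simp
  refine ⟨m, hm1, ?_⟩
  have hev : ∀ᶠ n : ℕ in atTop, (R + δ) / (2 * κ) ≤ n :=
    tendsto_natCast_atTop_atTop.eventually (eventually_ge_atTop _)
  filter_upwards [hev, eventually_ge_atTop 1] with n hn hn1
  have hn0 : (0 : ℝ) < n := by exact_mod_cast hn1
  have hn1' : (1 : ℝ) ≤ n := by exact_mod_cast hn1
  obtain ⟨hV1, hV2, -⟩ := h1 n hn1
  have hV : 0 < V n := lt_of_lt_of_le (by positivity) hV1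
  obtain ⟨q, hq⟩ : ∃ q : ℝ, q = (R + δ) ^ n * V n / (4 * n) ^ n := ⟨_, rfl⟩
  have hq0 : 0 < q := by rw [hq]; positivity
  obtain ⟨y, hy⟩ : ∃ y : ℝ, y = κ ^ n / q := ⟨_, rfl⟩
  have hy0 : 0 < y := by rw [hy]; positivity
  have hyq : y * q = κ ^ n := by rw [hy]; field_simp
  have hy1 : 1 ≤ y := by
    rw [hy, le_div_iff₀ hq0, one_mul, hq, div_le_iff₀ (by positivity)]
    calc (R + δ) ^ n * V n ≤ (R + δ) ^ n * 2 ^ n := mul_le_mul_of_nonneg_left hV2 (by positivity)
      _ = ((R + δ) * 2) ^ n := by rw [mul_pow]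
      _ ≤ (κ * (4 * n)) ^ n := by
          apply pow_le_pow_left₀ (by positivity)
          rw [div_le_iff₀ (by positivity)] at hn
          linarith
      _ = κ ^ n * (4 * n) ^ n := by rw [mul_pow]
  set N0 : ℕ := ⌊y⌋₊ with hN0
  have hN0y : (N0 : ℝ) ≤ y := Nat.floor_le hy0.le
  have hN01 : (1 : ℝ) ≤ N0 := by
    have : 1 ≤ N0 := Nat.le_floor (by simpa using hy1)
    exact_mod_cast this
  have hyN0 : y ≤ 2 * N0 := by
    have := Nat.lt_floor_add_one y
    linarith
  have hN0q : (N0 : ℝ) * q ≤ κ ^ n := by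
    rw [← hyq]
    exact mul_le_mul_of_nonneg_right hN0y hq0.le
  obtain ⟨Z, hZ1, hZ2⟩ := h2 n hn1 (4 * n + 4) δ (by positivity) hδ
  obtain ⟨c, hc, hbad⟩ := h3 n N0 m hn1 2 (4 * n + 2) (R + δ) (by linarith) hRδ Z
  have hab : (4 * (n : ℝ) + 2 - 2) = 4 * n := by ring
  rw [hab, ← hq] at hbad
  -- number of bad sets
  have hZq : (Z.card : ℝ) * q ≤ (6 * (R + δ) / δ) ^ n := by
    have e1 : (Z.card : ℝ) * q = (Z.card * ((δ / 2) ^ n * V n)) *
        ((2 / δ) ^ n * ((R + δ) ^ n / (4 * n) ^ n)) := by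
      rw [hq]
      have : (δ / 2) ^ n * (2 / δ) ^ n = 1 := by
        rw [← mul_pow]
        have : δ / 2 * (2 / δ) = 1 := by field_simp
        rw [this, one_pow]
      calc (Z.card : ℝ) * ((R + δ) ^ n * V n / (4 * n) ^ n) =
          (Z.card : ℝ) * ((R + δ) ^ n * V n / (4 * n) ^ n) * 1 := by ring
        _ = (Z.card : ℝ) * ((R + δ) ^ n * V n / (4 * n) ^ n) * ((δ / 2) ^ n * (2 / δ) ^ n) := by
            rw [this]
        _ = _ := by ring
    rw [e1]
    calc (Z.card * ((δ / 2) ^ n * V n)) * ((2 / δ) ^ n * ((R + δ) ^ n / (4 * n) ^ n))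
        ≤ (4 * n + 4 + δ) ^ n * ((2 / δ) ^ n * ((R + δ) ^ n / (4 * n) ^ n)) :=
          mul_le_mul_of_nonneg_right hZ2 (by positivity)
      _ = ((4 * n + 4 + δ) * (2 / δ * ((R + δ) / (4 * n)))) ^ n := by
          rw [← div_pow, ← mul_pow, ← mul_pow]
      _ ≤ (6 * (R + δ) / δ) ^ n := by
          apply pow_le_pow_left₀ (by positivity)
          rw [div_mul_div_comm, ← mul_div_assoc, div_le_div_iff₀ (by positivity) hδ]
          have h6 : 4 * (n : ℝ) + 4 + δ ≤ 12 * n := by linarith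
          have h7 : 0 ≤ (R + δ) * δ := by positivity
          nlinarith
  have hbad2 : (2 : ℝ) * (Z.card * (N0 : ℝ) ^ (m + 1) * q ^ (m + 1)) ≤ N0 := by
    have e1 : (N0 : ℝ) ^ (m + 1) * q ^ (m + 1) ≤ (κ ^ n) ^ m * κ ^ n := by
      rw [← mul_pow, ← pow_succ]
      exact pow_le_pow_left₀ (by positivity) hN0q _
    have e2 : (Z.card : ℝ) * ((κ ^ n) ^ m * κ ^ n) ≤ y / 4 := by
      have e3 : (κ ^ n) ^ m * κ ^ n = (κ ^ m) ^ n * (y * q) := by
        rw [hyq, ← pow_mul, ← pow_mul, mul_comm n m]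
      rw [e3]
      calc (Z.card : ℝ) * ((κ ^ m) ^ n * (y * q)) = (Z.card * q) * (κ ^ m) ^ n * y := by ring
        _ ≤ (6 * (R + δ) / δ) ^ n * (κ ^ m) ^ n * y := by
            apply mul_le_mul_of_nonneg_right _ hy0.le
            exact mul_le_mul_of_nonneg_right hZq (by positivity)
        _ = (6 * (R + δ) / δ * κ ^ m) ^ n * y := by rw [mul_pow]
        _ ≤ (1 / 4) ^ n * y := by
            apply mul_le_mul_of_nonneg_right _ hy0.le
            exact pow_le_pow_left₀ (by positivity) hm n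
        _ ≤ (1 / 4) ^ 1 * y := by
            apply mul_le_mul_of_nonneg_right _ hy0.le
            exact pow_le_pow_of_le_one (by norm_num) (by norm_num) hn1
        _ = y / 4 := by ring
    have e4 : (Z.card : ℝ) * (N0 : ℝ) ^ (m + 1) * q ^ (m + 1) ≤ y / 4 := by
      rw [mul_assoc]
      exact (mul_le_mul_of_nonneg_left e1 (Nat.cast_nonneg _)).trans e2
    linarith
  obtain ⟨J, hJ1, hJ2⟩ := h4 N0 m (E n) Z (fun i z => dist (c i) z ≤ R + δ) (by
    have : ((2 * ∑ z ∈ Z, Set.ncard {I : Finset (Fin N0) | I.card = m + 1 ∧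
        ∀ i ∈ I, dist (c i) z ≤ R + δ} : ℕ) : ℝ) ≤ (N0 : ℝ) := by
      push_cast
      push_cast at hbad
      linarith
    exact_mod_cast this)
  refine ⟨J.card, fun j => c (J.equivFin.symm j), fun j => hc _, ?_, ?_⟩
  · intro z
    by_cases hne : ∃ j : Fin J.card, dist (c (J.equivFin.symm j)) z ≤ R
    · obtain ⟨j, hj⟩ := hne
      have hz : z ∈ cube n 0 (4 * n + 4) := by
        intro i
        have h5 := cent_coord (c (J.equivFin.symm j)) z i
        have h6 := hc (J.equivFin.symm j) i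
        have h7 := abs_le.mp (h5.trans hj)
        constructor
        · linarith [h6.1, h7.2]
        · linarith [h6.2, h7.1]
      obtain ⟨z', hz', hzz'⟩ := hZ1 z hz
      refine le_trans ?_ (hJ2 z' hz')
      apply Set.ncard_le_ncard_of_injOn (fun j : Fin J.card => ((J.equivFin.symm j : J) : Fin N0))
      · intro a ha
        have ha' : dist (c (J.equivFin.symm a)) z ≤ R := ha
        refine ⟨(J.equivFin.symm a).2, ?_⟩
        exact (dist_triangle _ z _).trans (add_le_add ha' hzz')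
      · intro a _ b _ hab
        exact J.equivFin.symm.injective (Subtype.ext hab)
    · push Not at hne
      have : {j : Fin J.card | dist (c (J.equivFin.symm j)) z ≤ R} = ∅ := by
        ext j
        simp only [Set.mem_ofPred_eq, Set.mem_empty_iff_false, iff_false, not_le]
        exact hne j
      rw [this, Set.ncard_empty]
      exact Nat.zero_le _
  · have e1 : κ ^ n * (4 * n : ℝ) ^ n = y * ((R + δ) ^ n * V n) := by
      have : (R + δ) ^ n * V n = q * (4 * n) ^ n := by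
        rw [hq]
        field_simp
      rw [this, ← mul_assoc, hyq]
    rw [e1]
    have e2 : y ≤ 4 * J.card := by
      have : (N0 : ℝ) ≤ 2 * J.card := by exact_mod_cast hJ1
      linarith
    exact mul_le_mul_of_nonneg_right e2 (by positivity)

end Pool.Agent.Y373.SX
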