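import Pool.Agent.Y373.SX.Stm2

/-! The expected uncovered volume. -/

set_option autoImplicit false

namespace Pool.Agent.Y373.SX

open MeasureTheory Metric Filter

theorem covexp (h1 : S_vol) (h2 : S_cube) : S_covexp := by
  classical
  intro n N hn a b R hR hab
  obtain ⟨-, -, hb⟩ := h1 n hn
  have hab' : a < b := by linarith
  obtain ⟨hQm, hQ⟩ := h2 n a b hab'.le
  obtain ⟨hQm', hQ'⟩ := h2 n (a + R) (b - R) (by linarith)
  have hVn : 0 ≤ V n := ENNReal.toReal_nonneg
  have hM : 0 < (b - a) ^ n := pow_pos (by linarith) n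
  have hM0 : ENNReal.ofReal ((b - a) ^ n) ≠ 0 := (ENNReal.ofReal_pos.2 hM).ne'
  have hμp : IsProbabilityMeasure (unif n a b) := by
    refine ⟨?_⟩
    rw [unif, Measure.smul_apply, Measure.restrict_apply_univ, hQ, smul_eq_mul,
      ENNReal.inv_mul_cancel hM0 ENNReal.ofReal_ne_top]
  obtain ⟨q, hq⟩ : ∃ q : ℝ, q = R ^ n * V n / (b - a) ^ n := ⟨_, rfl⟩
  have hq0 : 0 ≤ q := by rw [hq]; positivity
  have hball : ∀ x ∈ cube n (a + R) (b - R), unif n a b (closedBall x R) = ENNReal.ofReal q := by
    intro x hx
    have hsub : closedBall x R ⊆ cube n a b := by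
      intro y hy i
      have h3 : |y i - x i| ≤ R := by
        have h4 : ‖(y - x) i‖ ≤ ‖y - x‖ := PiLp.norm_apply_le (y - x) i
        rw [mem_closedBall, dist_eq_norm] at hy
        exact (h4.trans hy)
      rw [abs_le] at h3
      have h5 := hx i
      constructor <;> linarith [h5.1, h5.2, h3.1, h3.2]
    rw [unif, Measure.smul_apply, Measure.restrict_apply' hQm,
      Set.inter_eq_left.2 hsub, hb x R hR.le, hq, ENNReal.ofReal_div_of_pos hM, smul_eq_mul,
      mul_comm, ← div_eq_mul_inv]
  obtain ⟨P, hP⟩ : ∃ P : Measure (Fin N → E n), P = Measure.pi (fun _ : Fin N => unif n a b) :=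
    ⟨_, rfl⟩
  have hPp : IsProbabilityMeasure P := by rw [hP]; infer_instance
  obtain ⟨s, hs⟩ : ∃ s : Set ((Fin N → E n) × E n), s = {p | p.2 ∈ cube n (a + R) (b - R)} ∩
    ⋂ i, {p | R < dist p.2 (p.1 i)} := ⟨_, rfl⟩
  have hsm : MeasurableSet s := by
    rw [hs]
    refine (measurable_snd hQm').inter (MeasurableSet.iInter fun i => ?_)
    exact measurableSet_lt measurable_const (by fun_prop)
  have e1 : ∀ c : Fin N → E n, cube n (a + R) (b - R) \ ⋃ i, closedBall (c i) R =
      Prod.mk c ⁻¹' s := by
    intro c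
    ext x
    rw [hs]
    simp
  rw [← hP]
  simp only [e1]
  rw [← Measure.prod_apply hsm, Measure.prod_apply_symm hsm]
  have e2 : ∀ x : E n, P ((fun c => (c, x)) ⁻¹' s) ≤
      (cube n (a + R) (b - R)).indicator (fun _ => ENNReal.ofReal ((1 - q) ^ N)) x := by
    intro x
    by_cases hx : x ∈ cube n (a + R) (b - R)
    · rw [Set.indicator_of_mem hx]
      have e3 : (fun c : Fin N → E n => (c, x)) ⁻¹' s =
          Set.pi Set.univ fun _ => (closedBall x R)ᶜ := by
        ext c
        rw [hs]
        simp only [Set.mem_preimage, Set.mem_inter_iff, Set.mem_iInter, Set.mem_ofPred_eq,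
          Set.mem_univ_pi, Set.mem_compl_iff, mem_closedBall, not_le]
        constructor
        · rintro ⟨-, h⟩ i
          rw [dist_comm]
          exact h i
        · intro h
          refine ⟨hx, fun i => ?_⟩
          rw [dist_comm]
          exact h i
      have hq1 : q ≤ 1 := by
        have h3 := hball x hx
        have h4 : unif n a b (closedBall x R) ≤ 1 := prob_le_one
        rw [h3] at h4
        exact (ENNReal.ofReal_le_one).1 h4
      rw [e3, hP, Measure.pi_pi, Finset.prod_const, Finset.card_univ, Fintype.card_fin,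
        prob_compl_eq_one_sub isClosed_closedBall.measurableSet, hball x hx,
        ← ENNReal.ofReal_one, ← ENNReal.ofReal_sub _ hq0, ENNReal.ofReal_pow (by linarith)]
    · rw [Set.indicator_of_notMem hx]
      have e3 : (fun c : Fin N → E n => (c, x)) ⁻¹' s = ∅ := by
        ext c
        rw [hs]
        simp [hx]
      rw [e3, measure_empty]
  refine (lintegral_mono e2).trans ?_
  rw [lintegral_indicator_const hQm', hQ', mul_comm, ← hq]
  have e4 : b - R - (a + R) = b - a - 2 * R := by ring
  rw [e4, ← ENNReal.ofReal_mul (pow_nonneg (by linarith) n)]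

end Pool.Agent.Y373.SX
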