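import Pool.Agent.Y373.SX.Stm

/-!
Project SX (helper373), part DEL (helper980): deletion lemma.
-/

set_option autoImplicit false

namespace Pool.Agent.Y373.SX

open Finset in
theorem del : S_del := by
  classical
  intro N m ι Z P h
  set B : ι → Finset (Finset (Fin N)) := fun z =>
    Finset.univ.filter fun I => I.card = m + 1 ∧ ∀ i ∈ I, P i z with hBd
  have hB : ∀ z, Set.ncard {I : Finset (Fin N) | I.card = m + 1 ∧ ∀ i ∈ I, P i z} =
      (B z).card := by
    intro z
    rw [← Set.ncard_coe_finset]
    congr 1
    ext I
    simp [B]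
  simp only [hB] at h
  rcases Nat.eq_zero_or_pos N with hN | hN
  · subst hN
    refine ⟨∅, by simp, fun z _ => ?_⟩
    simp
  set ch : Finset (Fin N) → Fin N := fun I => if h : I.Nonempty then I.min' h else ⟨0, hN⟩
    with hch
  set D : Finset (Fin N) := Z.biUnion fun z => (B z).image ch with hDd
  have hD : D.card ≤ ∑ z ∈ Z, (B z).card :=
    Finset.card_biUnion_le.trans (Finset.sum_le_sum fun z _ => Finset.card_image_le)
  refine ⟨Dᶜ, ?_, ?_⟩
  · have h1 := Finset.card_compl_add_card D
    rw [Fintype.card_fin] at h1
    omega
  · intro z hz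
    by_contra hlt
    push Not at hlt
    set F : Finset (Fin N) := Finset.univ.filter fun i => i ∈ Dᶜ ∧ P i z with hF
    have hFc : {i : Fin N | i ∈ Dᶜ ∧ P i z}.ncard = F.card := by
      rw [← Set.ncard_coe_finset]
      congr 1
      ext i
      simp [F]
    rw [hFc] at hlt
    obtain ⟨I, hI, hIc⟩ := Finset.exists_subset_card_eq (show m + 1 ≤ F.card by omega)
    have hIB : I ∈ B z := by
      simp only [B, Finset.mem_filter, Finset.mem_univ, true_and]
      refine ⟨hIc, fun i hi => ?_⟩
      have := hI hi
      simp only [F, Finset.mem_filter, Finset.mem_univ, true_and] at this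
      exact this.2
    have hne : I.Nonempty := by
      rw [← Finset.card_pos]
      omega
    have hchI : ch I ∈ I := by
      simp only [hch]
      rw [dif_pos hne]
      exact Finset.min'_mem I hne
    have h1 : ch I ∈ D := by
      simp only [hDd, Finset.mem_biUnion, Finset.mem_image]
      exact ⟨z, hz, I, hIB, rfl⟩
    have h2 := hI hchI
    simp only [F, Finset.mem_filter, Finset.mem_univ, true_and, Finset.mem_compl] at h2
    exact h2.1 h1

end Pool.Agent.Y373.SX
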