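import Pool.Agent.Y373.SX.Stm

/-! The volume of a union of balls. -/

set_option autoImplicit false

namespace Pool.Agent.Y373.SX

open MeasureTheory Metric Filter

theorem dens (h1 : S_vol) : S_dens := by
  classical
  intro n N m hn c r hr h
  obtain ⟨-, -, hb⟩ := h1 n hn
  have hVn : 0 ≤ V n := ENNReal.toReal_nonneg
  have hx : 0 ≤ r ^ n * V n := by positivity
  have hUm : MeasurableSet (⋃ j, closedBall (c j) r) :=
    MeasurableSet.iUnion fun j => isClosed_closedBall.measurableSet
  have hfin : volume (⋃ j, closedBall (c j) r) ≠ ⊤ := by
    refine ((measure_iUnion_fintype_le _ _).trans_lt ?_).ne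
    exact ENNReal.sum_lt_top.2 fun j _ => measure_closedBall_lt_top
  have key : ∑ j, volume (closedBall (c j) r) ≤ (m : ENNReal) * volume (⋃ j, closedBall (c j) r) := by
    calc ∑ j, volume (closedBall (c j) r) =
        ∑ j, ∫⁻ z, (closedBall (c j) r).indicator (1 : E n → ENNReal) z := by
          refine Finset.sum_congr rfl fun j _ => ?_
          rw [lintegral_indicator_one isClosed_closedBall.measurableSet]
      _ = ∫⁻ z, ∑ j, (closedBall (c j) r).indicator (1 : E n → ENNReal) z :=
          (lintegral_finsetSum _ fun j _ =>
            measurable_one.indicator isClosed_closedBall.measurableSet).symm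
      _ ≤ ∫⁻ z, (m : ENNReal) * (⋃ j, closedBall (c j) r).indicator (1 : E n → ENNReal) z := by
          refine lintegral_mono fun z => ?_
          have e : ∑ j, (closedBall (c j) r).indicator (1 : E n → ENNReal) z =
              ((Finset.univ.filter fun j => dist (c j) z ≤ r).card : ENNReal) := by
            rw [Finset.card_filter]
            push_cast
            refine Finset.sum_congr rfl fun j _ => ?_
            rw [Set.indicator_apply, mem_closedBall, dist_comm]
            rfl
          have e2 : Set.ncard {j : Fin N | dist (c j) z ≤ r} =
              (Finset.univ.filter fun j => dist (c j) z ≤ r).card := by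
            rw [← Set.ncard_coe_finset]
            congr 1
            ext j
            simp
          have h3 := h z
          rw [e2] at h3
          show ∑ j, (closedBall (c j) r).indicator (1 : E n → ENNReal) z ≤ _
          rw [e]
          by_cases hz : z ∈ ⋃ j, closedBall (c j) r
          · rw [Set.indicator_of_mem hz, Pi.one_apply, mul_one]
            exact_mod_cast h3
          · have h4 : (Finset.univ.filter fun j => dist (c j) z ≤ r) = ∅ := by
              rw [Finset.filter_eq_empty_iff]
              intro j _ hj
              apply hz
              rw [Set.mem_iUnion]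
              exact ⟨j, by rwa [mem_closedBall, dist_comm]⟩
            rw [h4]
            simp
      _ = (m : ENNReal) * volume (⋃ j, closedBall (c j) r) := by
          rw [lintegral_const_mul _ (measurable_one.indicator hUm), lintegral_indicator_one hUm]
  have e1 : ∑ j, volume (closedBall (c j) r) = (N : ENNReal) * ENNReal.ofReal (r ^ n * V n) := by
    rw [Finset.sum_congr rfl fun j _ => hb (c j) r hr.le, Finset.sum_const, Finset.card_univ,
      Fintype.card_fin, nsmul_eq_mul]
  rw [e1] at key
  have h5 := ENNReal.toReal_mono (ENNReal.mul_ne_top (ENNReal.natCast_ne_top m) hfin) key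
  rwa [ENNReal.toReal_mul, ENNReal.toReal_mul, ENNReal.toReal_natCast, ENNReal.toReal_natCast,
    ENNReal.toReal_ofReal hx] at h5

end Pool.Agent.Y373.SX
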