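import Pool.Agent.Y373.SX.Stm

/-!
# Assembly
-/

set_option autoImplicit false

namespace Pool.Agent.Y373.SX

open MeasureTheory Metric Filter

theorem fin_quarter (n : ℕ) (hn : 1 ≤ n) : ((n : ℝ) + 1) ^ n ≤ 4 * (n : ℝ) ^ n := by
  have hn0 : (0 : ℝ) < n := by exact_mod_cast hn
  have h1 : ((n : ℝ) + 1) ^ n = (n : ℝ) ^ n * (1 + 1 / n) ^ n := by
    rw [← mul_pow]; congr 1; field_simp
  have h2 : (1 + 1 / (n : ℝ)) ^ n ≤ Real.exp 1 := by
    calc (1 + 1 / (n : ℝ)) ^ n ≤ (Real.exp (1 / n)) ^ n :=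
          pow_le_pow_left₀ (by positivity) (by linarith [Real.add_one_le_exp (1 / (n : ℝ))]) n
      _ = Real.exp 1 := by rw [← Real.exp_nat_mul]; congr 1; field_simp
  have h3 : Real.exp 1 < 4 := by linarith [Real.exp_one_lt_d9]
  rw [h1]
  have h4 : (0 : ℝ) ≤ (n : ℝ) ^ n := by positivity
  nlinarith

theorem main (h1 : S_vol) (h2 : S_centers) (h3 : S_dens) (h4 : S_color) (h5 : S_mono)
    (h6 : S_num) (h7 : S_par) : S_main := by
  intro ε hε
  obtain ⟨r, κ, δ, hδ, hδ4, hδr, hr2, hr1, hκ0, hκ1, hpar⟩ := h7 ε hε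
  have hr0 : 0 < r := hδ.trans hδr
  set s : ℝ := √(1 / 2) with hs
  have hs0 : 0 < s := by rw [hs]; positivity
  have hs1 : s < 1 := by
    rw [hs, Real.sqrt_lt' one_pos]; norm_num
  set θ : ℝ := κ * (r - δ) / (s + r + δ) with hθ
  have hden : 0 < s + r + δ := by positivity
  have hθ0 : 0 < θ := div_pos (mul_pos hκ0 (by linarith)) hden
  have hθ1 : θ < 1 := by
    rw [hθ, div_lt_one hden]
    nlinarith
  obtain ⟨m, hm1, hc⟩ := h2 (s + r) κ δ (by positivity) (by linarith) hκ0 hκ1 hδ hδ4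
  have hnum := h6 θ δ (2 + ε) m hθ0 hθ1 hδ hm1 hpar
  have hgap : 0 < 1 - 2 * r ^ 2 := by linarith
  obtain ⟨k, hk⟩ := exists_nat_gt ((m : ℝ) / (1 - 2 * r ^ 2))
  have hk' : (m : ℝ) < (k + 1) * (1 - 2 * r ^ 2) := by
    rw [div_lt_iff₀ hgap] at hk
    nlinarith
  refine ⟨k, ?_⟩
  filter_upwards [hc, hnum, eventually_ge_atTop 1] with n hcn hnn hn
  obtain ⟨N, c, hcube, hcount, hdens⟩ := hcn
  obtain ⟨M, hM, hMp⟩ := hnn
  refine ⟨M, hM, ?_⟩
  obtain ⟨hV1, -, hvol⟩ := h1 n hn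
  have hn0 : (0 : ℝ) < n := by exact_mod_cast hn
  have hV0 : 0 < V n := lt_of_lt_of_le (by positivity) hV1
  have hm0 : (0 : ℝ) < m := by exact_mod_cast hm1
  -- the volume of the union
  have hrd : 0 < r - δ := by linarith
  have hcount' : ∀ z : E n, Set.ncard {j : Fin N | dist (c j) z ≤ r - δ} ≤ m := by
    intro z
    refine (Set.ncard_le_ncard ?_ (Set.toFinite _)).trans (hcount z)
    intro j hj
    have : dist (c j) z ≤ r - δ := hj
    show dist (c j) z ≤ s + r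
    linarith
  have hU := h3 n N m hn c (r - δ) hrd hcount'
  set p : ℝ := θ ^ n / (16 * m) with hp
  have hp0 : 0 ≤ p := by positivity
  have hp1 : p ≤ 1 := by
    rw [hp, div_le_one (by positivity)]
    have h10 : θ ^ n ≤ 1 := pow_le_one₀ hθ0.le hθ1.le
    have h11 : (1 : ℝ) ≤ m := by exact_mod_cast hm1
    linarith
  have hkey : p * (4 * n + 4 : ℝ) ^ n ≤ (volume (⋃ j, closedBall (c j) (r - δ))).toReal := by
    have hA : (4 * n + 4 : ℝ) ^ n ≤ 4 * (4 * n : ℝ) ^ n := by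
      have h12 : (4 * n + 4 : ℝ) ^ n = 4 ^ n * ((n : ℝ) + 1) ^ n := by
        rw [← mul_pow]; congr 1; ring
      have h13 : (4 * n : ℝ) ^ n = 4 ^ n * (n : ℝ) ^ n := mul_pow _ _ _
      rw [h12, h13]
      have h14 := fin_quarter n hn
      have h15 : (0 : ℝ) < 4 ^ n := by positivity
      nlinarith
    have hB : θ ^ n * (4 * n : ℝ) ^ n ≤ 4 * (m * (volume (⋃ j, closedBall (c j) (r - δ))).toReal) := by
      have e1 : θ ^ n * (4 * n : ℝ) ^ n * (s + r + δ) ^ n =
          κ ^ n * (4 * n : ℝ) ^ n * (r - δ) ^ n := by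
        rw [hθ, div_pow, mul_pow]
        field_simp
      have e2 : κ ^ n * (4 * n : ℝ) ^ n * (r - δ) ^ n ≤
          4 * N * ((s + r + δ) ^ n * V n) * (r - δ) ^ n :=
        mul_le_mul_of_nonneg_right hdens (by positivity)
      have e3 : 4 * N * ((s + r + δ) ^ n * V n) * (r - δ) ^ n =
          4 * ((N : ℝ) * ((r - δ) ^ n * V n)) * (s + r + δ) ^ n := by ring
      have e4 : (0 : ℝ) < (s + r + δ) ^ n := by positivity
      have e5 : θ ^ n * (4 * n : ℝ) ^ n * (s + r + δ) ^ n ≤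
          4 * (m * (volume (⋃ j, closedBall (c j) (r - δ))).toReal) * (s + r + δ) ^ n := by
        rw [e1]
        refine e2.trans ?_
        rw [e3]
        refine mul_le_mul_of_nonneg_right ?_ e4.le
        linarith
      exact le_of_mul_le_mul_right e5 e4
    rw [hp, div_mul_eq_mul_div, div_le_iff₀ (by positivity)]
    have h16 : (0 : ℝ) ≤ θ ^ n := by positivity
    nlinarith
  have hkey' : ENNReal.ofReal (p * (4 * n + 4 : ℝ) ^ n) ≤ volume (⋃ j, closedBall (c j) (r - δ)) := by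
    refine ENNReal.ofReal_le_of_le_toReal hkey
  obtain ⟨v, hv⟩ := h4 n N M r δ p c hn hδ hδr hr1 hcube hp0 hp1 hkey' hMp
  choose col hcol using hv
  refine ⟨col, fun x hx hall => ?_⟩
  -- translate by the vector of the common colour
  set i₀ := col (x 0) with hi₀
  obtain ⟨i, hi⟩ := h5 n N m k r c hr0 hr2 hcube hcount hk' (fun l => x l - v i₀) (by
    intro i j hij
    rw [dist_sub_right]
    exact hx i j hij)
  apply hi
  have : col (x i) = i₀ := hall i 0
  have h17 := hcol (x i)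
  rw [this] at h17
  exact h17

end Pool.Agent.Y373.SX
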