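import Pool.Agent.Y373.SX.Stm2

/-!
# Assembly, second part
-/

set_option autoImplicit false

namespace Pool.Agent.Y373.SX

open MeasureTheory Metric Filter

theorem main2 (h1 : S_vor1) (h2 : S_vor2) (h3 : S_free) (h4 : S_color2) (h5 : S_cent2)
    (h6 : S_num) (h7 : S_par2) : S_main2 := by
  intro k hk β hβ
  obtain ⟨t, R, δ, ht0, ht1, hδ, hR, htd, hr, hak, htβ⟩ := h7 k hk β hβ
  have hk0 : (0 : ℝ) < k := by exact_mod_cast hk
  have hτ : 0 < 1 - t - 3 * δ := by linarith
  obtain ⟨C, hC1, hc⟩ := h5 k hk (1 - t - 3 * δ) R hτ hR hak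
  have hnum := h6 t δ β C ht0 ht1 hδ hC1 htβ
  have hC0 : (0 : ℝ) < C := by exact_mod_cast hC1
  -- `t * R < 1`
  have htR : t * R < 1 := by
    have h10 : (k : ℝ) / (2 * (k + 1)) < 1 := by
      rw [div_lt_one (by positivity)]; linarith
    have h11 : 0 < t * R := by positivity
    nlinarith
  filter_upwards [hc, hnum, eventually_ge_atTop 1] with n hcn hnn hn
  obtain ⟨N, c, hcube, hbad, hvol⟩ := hcn
  obtain ⟨M, hM, hMp⟩ := hnn
  refine ⟨M, hM, ?_⟩
  have hinj : Function.Injective c := by
    intro i j hij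
    by_contra hne
    -- a two-valued map
    have hf : 2 ≤ img (fun a : Fin (k + 1) => if a = 0 then i else j) := by
      unfold img
      have hsub : ({i, j} : Finset (Fin N)) ⊆
          Finset.univ.image (fun a : Fin (k + 1) => if a = 0 then i else j) := by
        intro u hu
        rw [Finset.mem_insert, Finset.mem_singleton] at hu
        rw [Finset.mem_image]
        rcases hu with rfl | rfl
        · exact ⟨0, Finset.mem_univ _, by simp⟩
        · refine ⟨Fin.last k, Finset.mem_univ _, ?_⟩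
          have : Fin.last k ≠ 0 := by
            rw [Ne, Fin.ext_iff]; simp; omega
          simp [this]
      have := Finset.card_le_card hsub
      rw [Finset.card_pair hne] at this
      exact this
    have h12 := hbad _ hf
    have h13 : TT (fun a : Fin (k + 1) => c (if a = 0 then i else j)) = 0 := by
      unfold TT
      apply Finset.sum_eq_zero
      intro a _
      apply Finset.sum_eq_zero
      intro b _
      by_cases ha : a = 0 <;> by_cases hb : b = 0 <;> simp [ha, hb, hij]
    rw [h13, mul_zero] at h12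
    have h14 : (2 : ℝ) ≤ img (fun a : Fin (k + 1) => if a = 0 then i else j) := by exact_mod_cast hf
    have h15 : (0 : ℝ) ≤ ((k : ℝ) + 1) * ((img (fun a : Fin (k + 1) => if a = 0 then i else j) : ℝ) - 1) :=
      mul_nonneg (by positivity) (by linarith)
    linarith
  obtain ⟨hmeas, hvol2⟩ := h2 n N hn c R t hinj hR ht0 ht1
  set S : Set (E n) := ⋃ i, Cell n N c R t i with hS
  have hScoord : ∀ x ∈ S, ∀ i, 0 ≤ x i ∧ x i < 4 * n + 4 := by
    intro x hx i
    obtain ⟨j, w, hxw, hwR, -⟩ := Set.mem_iUnion.1 hx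
    have hd : ‖x - c j‖ ≤ t * R := by
      rw [hxw, add_sub_cancel_left, norm_smul, Real.norm_eq_abs, abs_of_pos ht0]
      rw [dist_eq_norm] at hwR
      exact mul_le_mul_of_nonneg_left hwR ht0.le
    have hi : |x i - c j i| ≤ t * R := by
      have := PiLp.norm_apply_le (x - c j) i
      rw [PiLp.sub_apply, Real.norm_eq_abs] at this
      exact this.trans hd
    obtain ⟨h16, h17⟩ := hcube j i
    obtain ⟨h18, h19⟩ := abs_le.1 hi
    constructor <;> linarith
  set p : ℝ := t ^ n / (16 * C) with hp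
  have hp0 : 0 ≤ p := by positivity
  have hC1' : (1 : ℝ) ≤ C := by exact_mod_cast hC1
  have hp1 : p ≤ 1 := by
    rw [hp, div_le_one (by positivity)]
    have h10 : t ^ n ≤ 1 := pow_le_one₀ ht0.le ht1.le
    linarith
  have hkey : ENNReal.ofReal (p * (4 * n + 4 : ℝ) ^ n) ≤ volume S := by
    refine le_trans ?_ hvol2
    refine le_trans ?_ (mul_le_mul_right hvol _)
    rw [← ENNReal.ofReal_mul (by positivity)]
    apply ENNReal.ofReal_le_ofReal
    rw [hp]
    have h20 : (0 : ℝ) ≤ t ^ n * (4 * n + 4 : ℝ) ^ n := by positivity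
    rw [div_mul_eq_mul_div, mul_div_assoc']
    apply div_le_div_of_nonneg_left h20 hC0
    linarith
  obtain ⟨v, hv⟩ := h4 n M δ p S hn hδ hmeas hScoord hp0 hp1 hkey hMp
  choose col hcol using hv
  refine ⟨col, fun x hx hall => ?_⟩
  set i₀ := col (x 0) with hi₀
  obtain ⟨i, hi⟩ := h3 n N k R t δ c ht0 ht1 hδ hR htd hr hcube (fun f hf => hbad f hf)
    (fun l => x l - v i₀) (by
      intro i j hij
      rw [dist_sub_right]
      exact hx i j hij)
  apply hi
  have h21 : col (x i) = i₀ := hall i 0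
  obtain ⟨w, s, hs, hd⟩ := hcol (x i)
  obtain ⟨j, hj⟩ := Set.mem_iUnion.1 hs
  rw [h21] at hd
  exact ⟨w, j, s, hj, hd⟩

end Pool.Agent.Y373.SX
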