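import Pool.Agent.Y373.SX.Stm

/-! First moment over the product measure. -/

set_option autoImplicit false

namespace Pool.Agent.Y373.SX

open MeasureTheory Metric Filter

theorem first (h1 : S_vol) (h2 : S_cube) : S_first := by
  classical
  intro n N m hn a b ρ hab hρ Z
  obtain ⟨-, -, hb⟩ := h1 n hn
  obtain ⟨hQm, hQ⟩ := h2 n a b hab.le
  have hVn : 0 ≤ V n := ENNReal.toReal_nonneg
  have hM : 0 < (b - a) ^ n := pow_pos (by linarith) n
  have hQ0 : volume (cube n a b) ≠ 0 := by
    rw [hQ]
    exact (ENNReal.ofReal_pos.2 hM).ne'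
  have hQ1 : volume (cube n a b) ≠ ⊤ := by
    rw [hQ]
    exact ENNReal.ofReal_ne_top
  obtain ⟨μ, hμ⟩ : ∃ μ : Measure (E n), μ = ProbabilityTheory.cond volume (cube n a b) := ⟨_, rfl⟩
  have hμp : IsProbabilityMeasure μ := by
    rw [hμ]
    exact ProbabilityTheory.cond_isProbabilityMeasure_of_finite hQ0 hQ1
  have hμc : μ (cube n a b)ᶜ = 0 := by
    rw [hμ, ProbabilityTheory.cond_apply hQm, Set.inter_compl_self, measure_empty, mul_zero]
  obtain ⟨q, hq⟩ : ∃ q : ℝ, q = ρ ^ n * V n / (b - a) ^ n := ⟨_, rfl⟩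
  have hq0 : 0 ≤ q := by rw [hq]; positivity
  have hball : ∀ z : E n, μ (closedBall z ρ) ≤ ENNReal.ofReal q := by
    intro z
    rw [hμ, ProbabilityTheory.cond_apply hQm, hQ, hq, ENNReal.ofReal_div_of_pos hM, mul_comm,
      ← div_eq_mul_inv, ← hb z ρ hρ.le]
    exact ENNReal.div_le_div_right (measure_mono Set.inter_subset_right) _
  -- the events
  obtain ⟨Ev, hEv⟩ : ∃ Ev : E n → Finset (Fin N) → Set (Fin N → E n), Ev = fun z I =>
    Set.pi Set.univ fun i => if i ∈ I then closedBall z ρ else Set.univ := ⟨_, rfl⟩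
  have hEvm : ∀ z I, MeasurableSet (Ev z I) := by
    intro z I
    rw [hEv]
    refine MeasurableSet.univ_pi fun i => ?_
    split_ifs
    · exact isClosed_closedBall.measurableSet
    · exact MeasurableSet.univ
  have hEvi : ∀ z I c, c ∈ Ev z I ↔ ∀ i ∈ I, dist (c i) z ≤ ρ := by
    intro z I c
    rw [hEv]
    simp only [Set.mem_univ_pi]
    refine forall_congr' fun i => ?_
    by_cases hi : i ∈ I <;> simp [hi]
  have hEvp : ∀ z, ∀ I ∈ Finset.powersetCard (m + 1) (Finset.univ : Finset (Fin N)),
      Measure.pi (fun _ : Fin N => μ) (Ev z I) ≤ ENNReal.ofReal q ^ (m + 1) := by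
    intro z I hI
    rw [hEv, Measure.pi_pi]
    have e : ∀ i : Fin N, μ (if i ∈ I then closedBall z ρ else Set.univ) =
        if i ∈ I then μ (closedBall z ρ) else 1 := by
      intro i
      split_ifs
      · rfl
      · exact measure_univ
    simp only [e]
    rw [Finset.prod_ite_mem, Finset.univ_inter, Finset.prod_const, (Finset.mem_powersetCard.1 hI).2]
    exact pow_le_pow_left₀ zero_le (hball z) _
  obtain ⟨F, hF⟩ : ∃ F : (Fin N → E n) → ENNReal, F = fun c => ∑ z ∈ Z,
    ∑ I ∈ Finset.powersetCard (m + 1) (Finset.univ : Finset (Fin N)),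
      (Ev z I).indicator (1 : (Fin N → E n) → ENNReal) c := ⟨_, rfl⟩
  have hFm : Measurable F := by
    rw [hF]
    exact Finset.measurable_fun_sum _ fun z _ => Finset.measurable_fun_sum _ fun I _ =>
      measurable_one.indicator (hEvm z I)
  have hFi : ∫⁻ c, F c ∂(Measure.pi fun _ : Fin N => μ) ≤
      ENNReal.ofReal (Z.card * (N : ℝ) ^ (m + 1) * q ^ (m + 1)) := by
    have e1 : ∫⁻ c, F c ∂(Measure.pi fun _ : Fin N => μ) = ∑ z ∈ Z,
        ∑ I ∈ Finset.powersetCard (m + 1) (Finset.univ : Finset (Fin N)),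
          Measure.pi (fun _ : Fin N => μ) (Ev z I) := by
      rw [hF, lintegral_finsetSum _ fun z _ => Finset.measurable_fun_sum _ fun I _ =>
        measurable_one.indicator (hEvm z I)]
      refine Finset.sum_congr rfl fun z _ => ?_
      rw [lintegral_finsetSum _ fun I _ => measurable_one.indicator (hEvm z I)]
      refine Finset.sum_congr rfl fun I _ => ?_
      rw [lintegral_indicator_one (hEvm z I)]
    rw [e1]
    refine (Finset.sum_le_sum fun z _ => Finset.sum_le_sum (hEvp z)).trans ?_
    rw [Finset.sum_const, Finset.sum_const, Finset.card_powersetCard, Finset.card_univ,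
      Fintype.card_fin, nsmul_eq_mul, nsmul_eq_mul, ENNReal.ofReal_mul (by positivity),
      ENNReal.ofReal_mul (by positivity), ENNReal.ofReal_natCast, ENNReal.ofReal_pow hq0,
      ENNReal.ofReal_pow (by positivity), ENNReal.ofReal_natCast, mul_assoc]
    gcongr
    exact_mod_cast Nat.choose_le_pow N (m + 1)
  have hnull : Measure.pi (fun _ : Fin N => μ) {c | ∃ j, c j ∉ cube n a b} = 0 := by
    have e : {c : Fin N → E n | ∃ j, c j ∉ cube n a b} =
        ⋃ j, (Function.eval j) ⁻¹' (cube n a b)ᶜ := by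
      ext c
      simp
    rw [e]
    refine measure_iUnion_null fun j => ?_
    rw [(measurePreserving_eval (fun _ : Fin N => μ) j).measure_preimage
      hQm.compl.nullMeasurableSet]
    exact hμc
  obtain ⟨c, hcN, hc⟩ := exists_notMem_null_le_lintegral
    (μ := Measure.pi fun _ : Fin N => μ) hFm.aemeasurable hnull
  refine ⟨c, fun j => ?_, ?_⟩
  · by_contra hj
    exact hcN ⟨j, hj⟩
  · have e : F c = ((∑ z ∈ Z, Set.ncard {I : Finset (Fin N) | I.card = m + 1 ∧
        ∀ i ∈ I, dist (c i) z ≤ ρ} : ℕ) : ENNReal) := by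
      rw [hF]
      push_cast
      refine Finset.sum_congr rfl fun z _ => ?_
      have e2 : Set.ncard {I : Finset (Fin N) | I.card = m + 1 ∧ ∀ i ∈ I, dist (c i) z ≤ ρ} =
          ((Finset.powersetCard (m + 1) (Finset.univ : Finset (Fin N))).filter
            fun I => c ∈ Ev z I).card := by
        rw [← Set.ncard_coe_finset]
        congr 1
        ext I
        rw [Finset.mem_coe, Finset.mem_filter, Finset.mem_powersetCard, hEvi]
        simp
      rw [e2, Finset.card_filter]
      push_cast
      refine Finset.sum_congr rfl fun I _ => ?_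
      rw [Set.indicator_apply]
      rfl
    have h3 := hc.trans hFi
    rw [e] at h3
    have h4 := ENNReal.toReal_mono ENNReal.ofReal_ne_top h3
    rw [ENNReal.toReal_natCast, ENNReal.toReal_ofReal (by positivity), hq] at h4
    exact h4

end Pool.Agent.Y373.SX
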