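import Pool.Agent.Y373.SX.Fin
import Pool.Agent.Y373.SX.Vol
import Pool.Agent.Y373.SX.Sep
import Pool.Agent.Y373.SX.First
import Pool.Agent.Y373.SX.Del
import Pool.Agent.Y373.SX.Cent
import Pool.Agent.Y373.SX.Dens
import Pool.Agent.Y373.SX.Shift
import Pool.Agent.Y373.SX.Cover
import Pool.Agent.Y373.SX.Simp
import Pool.Agent.Y373.SX.Mono
import Pool.Agent.Y373.SX.Color
import Pool.Agent.Y373.SX.Num

/-!
# Colourings of `ℝⁿ` without monochromatic large unit simplices: `(2 + ε) ^ n` colours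
-/

set_option autoImplicit false

namespace Pool.Agent.Y373.SX.SimplexColourings

open Pool.Agent.Y373.SX

theorem result :
    ∀ ε : ℝ, 0 < ε → ∃ k : ℕ, ∀ᶠ n : ℕ in Filter.atTop, ∃ m : ℕ, (m : ℝ) ≤ (2 + ε) ^ n ∧
      ∃ c : EuclideanSpace ℝ (Fin n) → Fin m,
        ∀ x : Fin (k + 1) → EuclideanSpace ℝ (Fin n),
          (∀ i j, i ≠ j → dist (x i) (x j) = 1) → ¬ ∀ i j, c (x i) = c (x j) :=
  main vol (centers vol (sep vol cubes) (first vol cubes) del) (dens vol)
    (color vol (sep vol cubes) (cover (shift cubes))) (mono simp_facts) num par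

end Pool.Agent.Y373.SX.SimplexColourings
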