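import Mathlib

/-!
# Statements: few colours suffice to avoid monochromatic large unit simplices

A periodic union of balls of radius `r < 1 / √2` whose centres are chosen so that every ball of
radius `1 / √2 + r` contains at most `m` of them does not contain a unit simplex with many vertices.
-/

set_option autoImplicit false

namespace Pool.Agent.Y373.SX

open MeasureTheory Metric Filter

abbrev E (n : ℕ) : Type := EuclideanSpace ℝ (Fin n)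

/-- the volume of the unit ball -/
noncomputable def V (n : ℕ) : ℝ := (volume (closedBall (0 : E n) 1)).toReal

/-- a cube -/
def cube (n : ℕ) (a b : ℝ) : Set (E n) := {x | ∀ i, a ≤ x i ∧ x i ≤ b}

/-- a vector of the lattice `A ℤⁿ` -/
noncomputable def lat (n : ℕ) (A : ℝ) (w : Fin n → ℤ) : E n :=
  WithLp.toLp 2 (fun i => A * (w i : ℝ))

/-- the periodic union of the balls of radius `r` with centres `c j` -/
def Per (n N : ℕ) (A r : ℝ) (c : Fin N → E n) : Set (E n) :=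
  {x | ∃ (w : Fin n → ℤ) (j : Fin N), dist (x - lat n A w) (c j) ≤ r}

/-- volumes of balls -/
def S_vol : Prop :=
  ∀ n : ℕ, 1 ≤ n → (1 / (n : ℝ)) ^ n ≤ V n ∧ V n ≤ 2 ^ n ∧
    ∀ (x : E n) (R : ℝ), 0 ≤ R → volume (closedBall x R) = ENNReal.ofReal (R ^ n * V n)

/-- volumes of cubes -/
def S_cube : Prop :=
  ∀ (n : ℕ) (a b : ℝ), a ≤ b →
    MeasurableSet (cube n a b) ∧ volume (cube n a b) = ENNReal.ofReal ((b - a) ^ n)

/-- a net of a cube with few points -/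
def S_sep : Prop :=
  ∀ n : ℕ, 1 ≤ n → ∀ A δ : ℝ, 0 ≤ A → 0 < δ → ∃ Z : Finset (E n),
    (∀ z ∈ cube n 0 A, ∃ y ∈ Z, dist z y ≤ δ) ∧
      (Z.card : ℝ) * ((δ / 2) ^ n * V n) ≤ (A + δ) ^ n

/-- first moment: the number of sets of `m + 1` points in a common ball -/
def S_first : Prop :=
  ∀ n N m : ℕ, 1 ≤ n → ∀ a b ρ : ℝ, a < b → 0 < ρ → ∀ Z : Finset (E n),
    ∃ c : Fin N → E n, (∀ j, c j ∈ cube n a b) ∧
      ((∑ z ∈ Z, Set.ncard {I : Finset (Fin N) | I.card = m + 1 ∧ ∀ i ∈ I, dist (c i) z ≤ ρ} : ℕ) : ℝ)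
        ≤ Z.card * (N : ℝ) ^ (m + 1) * (ρ ^ n * V n / (b - a) ^ n) ^ (m + 1)

/-- deletion of one element of every bad set -/
def S_del : Prop :=
  ∀ (N m : ℕ) (ι : Type) (Z : Finset ι) (P : Fin N → ι → Prop),
    2 * ∑ z ∈ Z, Set.ncard {I : Finset (Fin N) | I.card = m + 1 ∧ ∀ i ∈ I, P i z} ≤ N →
    ∃ J : Finset (Fin N), N ≤ 2 * J.card ∧ ∀ z ∈ Z, Set.ncard {i : Fin N | i ∈ J ∧ P i z} ≤ m

/-- the centres -/
def S_centers : Prop :=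
  ∀ R κ δ : ℝ, 0 < R → R < 2 → 0 < κ → κ < 1 → 0 < δ → δ < 1 / 4 →
    ∃ m : ℕ, 1 ≤ m ∧ ∀ᶠ n : ℕ in atTop, ∃ (N : ℕ) (c : Fin N → E n),
      (∀ j, c j ∈ cube n 2 (4 * n + 2)) ∧
      (∀ z : E n, Set.ncard {j : Fin N | dist (c j) z ≤ R} ≤ m) ∧
      κ ^ n * (4 * n : ℝ) ^ n ≤ 4 * N * ((R + δ) ^ n * V n)

/-- the volume of the union of the balls -/
def S_dens : Prop :=
  ∀ n N m : ℕ, 1 ≤ n → ∀ (c : Fin N → E n) (r : ℝ), 0 < r →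
    (∀ z : E n, Set.ncard {j : Fin N | dist (c j) z ≤ r} ≤ m) →
    (N : ℝ) * (r ^ n * V n) ≤ m * (volume (⋃ j, closedBall (c j) r)).toReal

/-- one translate covers its share of the points -/
def S_shift : Prop :=
  ∀ n : ℕ, 1 ≤ n → ∀ A p : ℝ, 0 < A → ∀ S : Set (E n), MeasurableSet S →
    (∀ x ∈ S, ∀ i, 0 ≤ x i ∧ x i < A) → 0 ≤ p → ENNReal.ofReal (p * A ^ n) ≤ volume S →
    ∀ Y : Finset (E n), ∃ v : E n,
      p * Y.card ≤ (Set.ncard {y : E n | y ∈ Y ∧ ∃ w : Fin n → ℤ, y - v - lat n A w ∈ S} : ℝ)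

/-- few translates cover all the points -/
def S_cover : Prop :=
  ∀ n : ℕ, 1 ≤ n → ∀ A p : ℝ, 0 < A → ∀ S : Set (E n), MeasurableSet S →
    (∀ x ∈ S, ∀ i, 0 ≤ x i ∧ x i < A) → 0 ≤ p → p ≤ 1 → ENNReal.ofReal (p * A ^ n) ≤ volume S →
    ∀ (X : Finset (E n)) (M : ℕ), (1 - p) ^ M * X.card < 1 →
    ∃ v : Fin M → E n, ∀ x ∈ X, ∃ i, ∃ w : Fin n → ℤ, x - v i - lat n A w ∈ S

/-- two facts on unit simplices -/
def S_simp : Prop :=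
  ∀ (n k : ℕ) (x : Fin (k + 1) → E n), (∀ i j, i ≠ j → dist (x i) (x j) = 1) →
    (∃ z : E n, ∀ l, dist (x l) z ≤ √(1 / 2)) ∧
    ∀ (T : Finset (Fin (k + 1))) (c : E n) (r : ℝ), 0 ≤ r → (∀ l ∈ T, dist (x l) c ≤ r) →
      (T.card : ℝ) * (1 - 2 * r ^ 2) ≤ 1

/-- the periodic union of balls contains no large unit simplex -/
def S_mono : Prop :=
  ∀ (n N m k : ℕ) (r : ℝ) (c : Fin N → E n), 0 < r → r ^ 2 < 1 / 2 →
    (∀ j, c j ∈ cube n 2 (4 * n + 2)) →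
    (∀ z : E n, Set.ncard {j : Fin N | dist (c j) z ≤ √(1 / 2) + r} ≤ m) →
    (m : ℝ) < (k + 1) * (1 - 2 * r ^ 2) →
    ∀ x : Fin (k + 1) → E n, (∀ i j, i ≠ j → dist (x i) (x j) = 1) →
      ∃ i, x i ∉ Per n N (4 * n + 4) r c

/-- few translates of the periodic union of balls cover the space -/
def S_color : Prop :=
  ∀ (n N M : ℕ) (r δ p : ℝ) (c : Fin N → E n), 1 ≤ n → 0 < δ → δ < r → r < 1 →
    (∀ j, c j ∈ cube n 2 (4 * n + 2)) → 0 ≤ p → p ≤ 1 →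
    ENNReal.ofReal (p * (4 * n + 4 : ℝ) ^ n) ≤ volume (⋃ j, closedBall (c j) (r - δ)) →
    (1 - p) ^ M * ((4 * n + 4 + δ) * (2 * n) / δ) ^ n < 1 →
    ∃ v : Fin M → E n, ∀ x : E n, ∃ i, x - v i ∈ Per n N (4 * n + 4) r c

/-- the number of translates -/
def S_num : Prop :=
  ∀ (θ δ β : ℝ) (m : ℕ), 0 < θ → θ < 1 → 0 < δ → 1 ≤ m → 1 / θ < β →
    ∀ᶠ n : ℕ in atTop, ∃ M : ℕ, (M : ℝ) ≤ β ^ n ∧
      (1 - θ ^ n / (16 * m)) ^ M * ((4 * n + 4 + δ) * (2 * n) / δ) ^ n < 1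

/-- the choice of the parameters -/
def S_par : Prop :=
  ∀ ε : ℝ, 0 < ε → ∃ r κ δ : ℝ, 0 < δ ∧ δ < 1 / 4 ∧ δ < r ∧ r ^ 2 < 1 / 2 ∧ r < 1 ∧ 0 < κ ∧ κ < 1 ∧
    1 / (κ * (r - δ) / (√(1 / 2) + r + δ)) < 2 + ε

/-- the theorem -/
def S_main : Prop :=
  ∀ ε : ℝ, 0 < ε → ∃ k : ℕ, ∀ᶠ n : ℕ in atTop, ∃ m : ℕ, (m : ℝ) ≤ (2 + ε) ^ n ∧
    ∃ c : EuclideanSpace ℝ (Fin n) → Fin m,
      ∀ x : Fin (k + 1) → EuclideanSpace ℝ (Fin n),
        (∀ i j, i ≠ j → dist (x i) (x j) = 1) → ¬ ∀ i j, c (x i) = c (x j)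

end Pool.Agent.Y373.SX
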