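import Pool.Agent.Y373.SX.Stm

/-!
# Statements, second part: shrunk Voronoi cells instead of balls

The bound for every fixed `k`.
-/

set_option autoImplicit false

namespace Pool.Agent.Y373.SX

open MeasureTheory Metric Filter

/-- the number of values of `f` -/
def img {k N : ℕ} (f : Fin (k + 1) → Fin N) : ℕ := (Finset.univ.image f).card

/-- the sum of the squared distances over ordered pairs -/
noncomputable def TT {n k : ℕ} (y : Fin (k + 1) → E n) : ℝ := ∑ a, ∑ b, ‖y a - y b‖ ^ 2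

/-- the cell of `c i` in the Voronoi diagram, cut at radius `R` and shrunk by the factor `t` -/
def Cell (n N : ℕ) (c : Fin N → E n) (R t : ℝ) (i : Fin N) : Set (E n) :=
  {x | ∃ w : E n, x = c i + t • (w - c i) ∧ dist w (c i) ≤ R ∧ ∀ j, dist w (c i) ≤ dist w (c j)}

/-- the `δ`-neighbourhood of the periodic union of the cells -/
def Nbh (n N : ℕ) (A δ R t : ℝ) (c : Fin N → E n) : Set (E n) :=
  {x | ∃ (w : Fin n → ℤ) (j : Fin N) (s : E n), s ∈ Cell n N c R t j ∧ dist (x - lat n A w) s ≤ δ}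

/-- the constant `(k + 1) ^ (1 / (2 k)) / √2` -/
noncomputable def ak (k : ℕ) : ℝ := √(1 / 2) * ((k : ℝ) + 1) ^ (1 / (2 * (k : ℝ)))

/-- the uniform probability measure on a cube -/
noncomputable def unif (n : ℕ) (a b : ℝ) : Measure (E n) :=
  (ENNReal.ofReal ((b - a) ^ n))⁻¹ • volume.restrict (cube n a b)

/-- separation of the cells -/
def S_vor1 : Prop :=
  ∀ (n N : ℕ) (c : Fin N → E n) (R t : ℝ), 0 ≤ t → ∀ (i j : Fin N) (x x' : E n),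
    x ∈ Cell n N c R t i → x' ∈ Cell n N c R t j →
    (1 - t) * ‖c i - c j‖ ^ 2 ≤ inner ℝ (x - x') (c i - c j)

/-- volume of the cells -/
def S_vor2 : Prop :=
  ∀ (n N : ℕ), 1 ≤ n → ∀ (c : Fin N → E n) (R t : ℝ), Function.Injective c → 0 < R → 0 < t →
    t < 1 → MeasurableSet (⋃ i, Cell n N c R t i) ∧
      ENNReal.ofReal (t ^ n) * volume (⋃ i, closedBall (c i) R) ≤ volume (⋃ i, Cell n N c R t i)

/-- the variance of a unit simplex between groups -/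
def S_group : Prop :=
  ∀ (n k N : ℕ) (x : Fin (k + 1) → E n), (∀ i j, i ≠ j → dist (x i) (x j) = 1) →
    ∀ (c : Fin N → E n) (f : Fin (k + 1) → Fin N),
      (∑ a, ∑ b, inner ℝ (x a - x b) (c (f a) - c (f b))) ^ 2 ≤
        ((k : ℝ) + 1) * ((img f : ℝ) - 1) * TT (fun a => c (f a))

/-- the neighbourhood of the cells contains no unit simplex with `k + 1` vertices -/
def S_free : Prop :=
  ∀ (n N k : ℕ) (R t δ : ℝ) (c : Fin N → E n), 0 < t → t < 1 → 0 < δ → 0 < R → t + 3 * δ < 1 →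
    (t * R + δ) ^ 2 < (k : ℝ) / (2 * (k + 1)) → (∀ j, c j ∈ cube n 2 (4 * n + 2)) →
    (∀ f : Fin (k + 1) → Fin N, 2 ≤ img f →
      ((k : ℝ) + 1) * ((img f : ℝ) - 1) < (1 - t - 3 * δ) ^ 2 * TT (fun a => c (f a))) →
    ∀ x : Fin (k + 1) → E n, (∀ i j, i ≠ j → dist (x i) (x j) = 1) →
      ∃ i, x i ∉ Nbh n N (4 * n + 4) δ R t c

/-- few translates of the neighbourhood of a periodic set cover the space -/
def S_color2 : Prop :=
  ∀ (n M : ℕ) (δ p : ℝ) (S : Set (E n)), 1 ≤ n → 0 < δ → MeasurableSet S →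
    (∀ x ∈ S, ∀ i, 0 ≤ x i ∧ x i < 4 * n + 4) → 0 ≤ p → p ≤ 1 →
    ENNReal.ofReal (p * (4 * n + 4 : ℝ) ^ n) ≤ volume S →
    (1 - p) ^ M * ((4 * n + 4 + δ) * (2 * n) / δ) ^ n < 1 →
    ∃ v : Fin M → E n, ∀ x : E n, ∃ (i : Fin M) (w : Fin n → ℤ) (s : E n),
      s ∈ S ∧ dist (x - v i - lat n (4 * n + 4) w) s ≤ δ

/-- a lower bound for the volume of the unit ball -/
def S_vlow : Prop :=
  ∃ C : ℝ, 0 < C ∧ ∀ n : ℕ, 1 ≤ n →
    (2 * Real.pi * Real.exp 1 / n) ^ ((n : ℝ) / 2) ≤ C * (n : ℝ) ^ 2 * V n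

/-- a lower bound for the product of the sizes of the fibres -/
def S_gprod : Prop :=
  ∀ (k N : ℕ), 1 ≤ k → ∀ f : Fin (k + 1) → Fin N,
    ((k : ℝ) + 1) ^ (((k : ℝ) + 1 - img f) / k) ≤
      ∏ i ∈ Finset.univ.image f, (((Finset.univ.filter (fun a => f a = i)).card : ℕ) : ℝ)

/-- the probability that `f` is bad -/
def S_gauss : Prop :=
  ∀ (n k N : ℕ), 1 ≤ n → 1 ≤ k → ∀ (a b τ : ℝ), a < b → 0 < τ → ∀ f : Fin (k + 1) → Fin N,
    2 ≤ img f →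
    (Measure.pi (fun _ : Fin N => unif n a b))
        {c | τ ^ 2 * TT (fun a => c (f a)) ≤ ((k : ℝ) + 1) * ((img f : ℝ) - 1)} ≤
      ENNReal.ofReal (((2 * Real.pi * Real.exp 1 / n) ^ ((n : ℝ) / 2) * (ak k / τ) ^ n /
        (b - a) ^ n) ^ (img f - 1))

/-- the expected volume of the uncovered part -/
def S_covexp : Prop :=
  ∀ (n N : ℕ), 1 ≤ n → ∀ (a b R : ℝ), 0 < R → a + 2 * R < b →
    ∫⁻ c : Fin N → E n, volume (cube n (a + R) (b - R) \ ⋃ i, closedBall (c i) R)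
        ∂(Measure.pi (fun _ : Fin N => unif n a b)) ≤
      ENNReal.ofReal ((b - a - 2 * R) ^ n * (1 - R ^ n * V n / (b - a) ^ n) ^ N)

/-- a choice of the centres with few bad `f` that cover much -/
def S_pick : Prop :=
  ∀ k : ℕ, 1 ≤ k → ∀ τ R : ℝ, 0 < τ → 0 < R → ak k < τ * R →
    ∀ᶠ n : ℕ in atTop, ∃ (N : ℕ) (c : Fin N → E n), (∀ j, c j ∈ cube n 2 (4 * n + 2)) ∧
      (Set.ncard {f : Fin (k + 1) → Fin N | 2 ≤ img f ∧
          τ ^ 2 * TT (fun a => c (f a)) ≤ ((k : ℝ) + 1) * ((img f : ℝ) - 1)} : ℝ) * (R ^ n * V n) +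
        (volume (cube n (2 + R) (4 * n + 2 - R) \ ⋃ i, closedBall (c i) R)).toReal ≤
      1 / 2 * (4 * n - 2 * R) ^ n

/-- the centres -/
def S_cent2 : Prop :=
  ∀ k : ℕ, 1 ≤ k → ∀ τ R : ℝ, 0 < τ → 0 < R → ak k < τ * R →
    ∃ C : ℕ, 1 ≤ C ∧ ∀ᶠ n : ℕ in atTop, ∃ (N : ℕ) (c : Fin N → E n),
      (∀ j, c j ∈ cube n 2 (4 * n + 2)) ∧
      (∀ f : Fin (k + 1) → Fin N, 2 ≤ img f →
        ((k : ℝ) + 1) * ((img f : ℝ) - 1) < τ ^ 2 * TT (fun a => c (f a))) ∧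
      ENNReal.ofReal ((4 * n + 4 : ℝ) ^ n / C) ≤ volume (⋃ j, closedBall (c j) R)

/-- the choice of the parameters -/
def S_par2 : Prop :=
  ∀ k : ℕ, 1 ≤ k → ∀ β : ℝ,
    1 + ((k : ℝ) + 1) ^ (1 / (2 * (k : ℝ))) * √(((k : ℝ) + 1) / k) < β →
    ∃ t R δ : ℝ, 0 < t ∧ t < 1 ∧ 0 < δ ∧ 0 < R ∧ t + 3 * δ < 1 ∧
      (t * R + δ) ^ 2 < (k : ℝ) / (2 * (k + 1)) ∧ ak k < (1 - t - 3 * δ) * R ∧ 1 / t < β

/-- the limit of the bases -/
def S_lim2 : Prop :=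
  ∀ ε : ℝ, 0 < ε → ∃ k : ℕ, 1 ≤ k ∧
    1 + ((k : ℝ) + 1) ^ (1 / (2 * (k : ℝ))) * √(((k : ℝ) + 1) / k) < 2 + ε

/-- the theorem for fixed `k` -/
def S_main2 : Prop :=
  ∀ k : ℕ, 1 ≤ k → ∀ β : ℝ,
    1 + ((k : ℝ) + 1) ^ (1 / (2 * (k : ℝ))) * √(((k : ℝ) + 1) / k) < β →
    ∀ᶠ n : ℕ in atTop, ∃ m : ℕ, (m : ℝ) ≤ β ^ n ∧
      ∃ c : EuclideanSpace ℝ (Fin n) → Fin m,
        ∀ x : Fin (k + 1) → EuclideanSpace ℝ (Fin n),
          (∀ i j, i ≠ j → dist (x i) (x j) = 1) → ¬ ∀ i j, c (x i) = c (x j)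

end Pool.Agent.Y373.SX
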